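import Mathlib
import Pool.Agent.K3h17.T.Fc

set_option autoImplicit false
set_option linter.unusedSectionVars false
set_option linter.unusedSimpArgs false

namespace Pool.Agent.K3h17.T

open Polynomial Pool.Agent.H391R2 Pool.Agent.Y793

/-- The index set of the parameters. -/
abbrev Iy (ι : Type) : Type := Option ι ⊕ Unit

namespace Dat

section mem

variable {K Ω ι : Type} [Field K] [CharZero K] [Field Ω] [Algebra (RatFunc K) Ω] [Algebra K Ω]
  [IsScalarTower K (RatFunc K) Ω] [FiniteDimensional (RatFunc K) Ω]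
  [Fintype ι] (d : Dat K Ω ι)
variable {k₀ N : Type} [Field k₀] [Field N] [Algebra K k₀] [Algebra K N] [Algebra k₀ N]
  [IsScalarTower K k₀ N]

theorem val_eq (F : IntermediateField k₀ N) (φ : Ω →ₐ[K] N) (h : ∀ z, φ z ∈ F) :
    (IsScalarTower.toAlgHom K F N).comp (cod F φ h) = φ := by
  apply AlgHom.ext
  intro z
  rfl

theorem BF_mem' (F : IntermediateField k₀ N) (a b : Option ι → N) (ha : ∀ i, a i ∈ F)
    (hb : ∀ i, b i ∈ F) (φ : Ω →ₐ[K] N) (hφ : ∀ z, φ z ∈ F) : d.BF a b φ ∈ F := by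
  have h := d.BF_map (IsScalarTower.toAlgHom K F N) (fun i => (⟨a i, ha i⟩ : F))
    (fun i => (⟨b i, hb i⟩ : F)) (cod F φ hφ)
  rw [val_eq] at h
  change _ = d.BF a b φ at h
  rw [← h]
  exact (d.BF (fun i => (⟨a i, ha i⟩ : F)) (fun i => (⟨b i, hb i⟩ : F)) (cod F φ hφ)).2

theorem BF_mem (F : IntermediateField k₀ N) (hF : ∀ x, IsAlgebraic F x → x ∈ F)
    (a b : Option ι → N) (ha : ∀ i, a i ∈ F)
    (hb : ∀ i, b i ∈ F) (φ : Ω →ₐ[K] N) (hφ : φ (xx K Ω) ∈ F) : d.BF a b φ ∈ F :=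
  d.BF_mem' F a b ha hb φ (emb_mem' φ F hF hφ)

end mem

section sa

variable {K Ω ι : Type} [Field K] [CharZero K] [Field Ω] [Algebra (RatFunc K) Ω] [Algebra K Ω]
  [IsScalarTower K (RatFunc K) Ω] [FiniteDimensional (RatFunc K) Ω] [IsGalois (RatFunc K) Ω]
  [Fintype ι] (d : Dat K Ω ι)
variable {k₀ N : Type} [Field k₀] [Field N] [Algebra K k₀] [Algebra K N] [Algebra k₀ N]
  [IsScalarTower K k₀ N]

/-- A point of the family on which the function takes the value `T`. -/
def Pt (η : Iy ι → N) (φ : Ω →ₐ[K] N) : Prop :=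
  d.BF (fun i => η (Sum.inl i)) (fun i => η (Sum.inl i)) φ = η (Sum.inr ())

theorem card_Iy : Nat.card (Iy ι) = Fintype.card ι + 2 := by
  simp [Nat.card_eq_fintype_card]

variable (η : Iy ι → N) (hη : IsTranscendenceBasis k₀ η)

include hη

/-- `N` is algebraic over the field generated by the parameters over a field containing
a point. -/
theorem alg_over (F : IntermediateField k₀ N) (φ : Ω →ₐ[K] N) (hφ : ∀ z, φ z ∈ F)
    (hp : d.Pt η φ) :
    Algebra.IsAlgebraic (IntermediateField.adjoin F (Set.range fun i => η (Sum.inl i))) N := by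
  refine ⟨fun x => mem_cl.1 ?_⟩
  have hF : ∀ x ∈ F, x ∈ cl F (Set.range fun i => η (Sum.inl i)) := fun x hx =>
    (cl F (Set.range fun i => η (Sum.inl i))).algebraMap_mem (⟨x, hx⟩ : F)
  have hv : ∀ i, η (Sum.inl i) ∈ cl F (Set.range fun i => η (Sum.inl i)) :=
    fun i => sub_cl _ ⟨i, rfl⟩
  have hk : ∀ z : k₀, algebraMap k₀ N z ∈ cl F (Set.range fun i => η (Sum.inl i)) := fun z =>
    hF _ (F.algebraMap_mem z)
  refine basis_top η hη (cl F (Set.range fun i => η (Sum.inl i))) hk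
    (fun j => ?_) (fun z hz => cl_closed hz) x
  rcases j with j | j
  · exact hv j
  · have h1 := d.BF_mem'
      ((cl F (Set.range fun i => η (Sum.inl i))).toSubfield.toIntermediateField hk)
      (fun i => η (Sum.inl i)) (fun i => η (Sum.inl i)) hv hv φ (fun z => hF _ (hφ z))
    rw [hp] at h1
    exact h1

/-- The coordinate of a point is not algebraic over the parameters. -/
theorem x_not_mem (φ : Ω →ₐ[K] N) (hp : d.Pt η φ) :
    φ (xx K Ω) ∉ cl k₀ (Set.range fun i => η (Sum.inl i)) := by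
  intro hw
  have hcl : ∀ x, IsAlgebraic (cl k₀ (Set.range fun i => η (Sum.inl i))) x →
      x ∈ cl k₀ (Set.range fun i => η (Sum.inl i)) := fun x hx => cl_closed hx
  have hv : ∀ i, η (Sum.inl i) ∈ cl k₀ (Set.range fun i => η (Sum.inl i)) :=
    fun i => sub_cl _ ⟨i, rfl⟩
  have h1 := le_trdeg_cl η hη (fun i => η (Sum.inl i)) 1 (by
    rw [card_Iy]
    simp [Nat.card_eq_fintype_card]
    omega)
  have h2 : Algebra.IsAlgebraic (cl k₀ (Set.range fun i => η (Sum.inl i))) N := by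
    refine ⟨fun x => ?_⟩
    have h3 : x ∈ cl k₀ (Set.range fun i => η (Sum.inl i)) := by
      refine basis_top η hη _ (fun z => IntermediateField.algebraMap_mem _ z) (fun j => ?_) hcl x
      rcases j with j | j
      · exact hv j
      · have h1 := d.BF_mem _ hcl (fun i => η (Sum.inl i)) (fun i => η (Sum.inl i)) hv hv φ hw
        rw [hp] at h1
        exact h1
    exact isAlgebraic_algebraMap (⟨x, h3⟩ : cl k₀ (Set.range fun i => η (Sum.inl i)))
  have h4 : Algebra.trdeg (cl k₀ (Set.range fun i => η (Sum.inl i))) N = 0 :=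
    _root_.trdeg_eq_zero
  rw [h4] at h1
  simp at h1

/-- Two points whose coordinates are algebraically dependent are equivalent. -/
theorem sep (hgen : Y793.St_gen) (hiso : Y793.St_iso) (φ₁ φ₂ : Ω →ₐ[K] N)
    (p₁ : d.Pt η φ₁) (p₂ : d.Pt η φ₂)
    (hw : φ₂ (xx K Ω) ∈ cl k₀ (Set.range fun _ : Unit => φ₁ (xx K Ω))) :
    ∃ γ ∈ d.P, ∀ z, φ₂ z = φ₁ (γ z) := by
  classical
  set F := cl k₀ (Set.range fun _ : Unit => φ₁ (xx K Ω)) with hF
  have hcl : ∀ x, IsAlgebraic F x → x ∈ F := fun x hx => cl_closed hx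
  have hw₁ : φ₁ (xx K Ω) ∈ F := sub_cl _ ⟨(), rfl⟩
  have m₁ := emb_mem' φ₁ F hcl hw₁
  have m₂ := emb_mem' φ₂ F hcl hw
  have halg := d.alg_over η hη F φ₁ m₁ p₁
  have htr : (Module.finrank F (⊤ : Submodule F (Option ι → F)) : Cardinal) ≤
      Algebra.trdeg F N := by
    rw [finrank_top, Module.finrank_fintype_fun_eq_card, Fintype.card_option]
    refine le_trdeg_cl η hη (fun _ : Unit => φ₁ (xx K Ω)) _ ?_
    rw [card_Iy]
    simp
  have hrel : d.BF (fun i => η (Sum.inl i)) (fun i => η (Sum.inl i))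
      ((IsScalarTower.toAlgHom K F N).comp (cod F φ₁ m₁)) =
      d.BF (fun i => η (Sum.inl i)) (fun i => η (Sum.inl i))
      ((IsScalarTower.toAlgHom K F N).comp (cod F φ₂ m₂)) := by
    rw [val_eq, val_eq]
    exact p₁.trans p₂.symm
  have hall := d.rel_all hgen (fun i => η (Sum.inl i)) halg ⊤ (mem_span_top _) htr _ _ hrel
  have hx : cod F φ₁ m₁ (xx K Ω) = cod F φ₂ m₂ (xx K Ω) := by
    by_contra hne
    refine d.rel_contra hgen hiso (fun i => η (Sum.inl i)) halg ⊤ (mem_span_top _) htr ?_ _ _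
      hne hrel
    rw [finrank_top, Module.finrank_fintype_fun_eq_card, Fintype.card_option]
    omega
  have hx' : φ₂ (xx K Ω) = φ₁ (xx K Ω) := congrArg Subtype.val hx.symm
  obtain ⟨γ, hγ⟩ := comp_gal' φ₁ φ₂ hx'
  refine ⟨γ, ?_, hγ⟩
  have hsub : ∀ a : Option ι → F, 2 * a none * (∑ i, a (some i) * (cod F φ₁ m₁ (d.W i) -
      cod F φ₂ m₂ (d.W i))) + a none ^ 2 * (cod F φ₁ m₁ d.H - cod F φ₂ m₂ d.H) = 0 := by
    intro a
    have h1 := hall a trivial
    unfold BF at h1
    rw [hx] at h1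
    have h2 : ∀ φ : Ω →ₐ[K] F, ∑ i, (a none * a (some i) + a none * a (some i)) * φ (d.W i) =
        2 * a none * ∑ i, a (some i) * φ (d.W i) := by
      intro φ
      rw [Finset.mul_sum]
      exact Finset.sum_congr rfl fun i _ => by ring
    rw [h2, h2] at h1
    simp only [mul_sub, Finset.sum_sub_distrib]
    linear_combination h1
  have hcF : CharZero F := charZero_of_injective_algebraMap (algebraMap K F).injective
  have hH : cod F φ₁ m₁ d.H = cod F φ₂ m₂ d.H := by
    have h1 := hsub (fun o => o.elim 1 (fun _ => 0))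
    simpa [sub_eq_zero] using h1
  have hWi : cod F φ₁ m₁ (d.W d.i₁) = cod F φ₂ m₂ (d.W d.i₁) := by
    have h1 := hsub (fun o => o.elim 1 (Pi.single d.i₁ 1))
    rw [hH, sub_self, mul_zero, add_zero] at h1
    have h2 : ∑ i, (fun o : Option ι => (o.elim 1 (Pi.single d.i₁ 1) : F)) (some i) *
        (cod F φ₁ m₁ (d.W i) - cod F φ₂ m₂ (d.W i)) =
        cod F φ₁ m₁ (d.W d.i₁) - cod F φ₂ m₂ (d.W d.i₁) := by
      rw [Finset.sum_eq_single d.i₁]
      · simp
      · intro j _ hj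
        simp [hj]
      · intro h
        exact absurd (Finset.mem_univ _) h
    rw [h2] at h1
    simpa [sub_eq_zero] using h1
  have hWi' : d.W d.i₁ = γ (d.W d.i₁) := by
    apply φ₁.injective
    have h1 : φ₁ (d.W d.i₁) = φ₂ (d.W d.i₁) := congrArg Subtype.val hWi
    exact h1.trans (hγ _)
  rw [← d.hy]
  have h1 := congrArg d.δ hWi'
  rw [d.hδg, d.hW, map_mul] at h1
  have h2 : γ (aeval (xx K Ω) (d.κ d.i₁)) = aeval (xx K Ω) (d.κ d.i₁) := by
    have h3 : ∀ q : K[X], aeval (xx K Ω) q = algebraMap (RatFunc K) Ω (algebraMap K[X] _ q) :=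
      fun q => (xpoly (AlgHom.id K Ω) q).symm
    rw [h3, γ.commutes]
  rw [h2] at h1
  have h3 : aeval (xx K Ω) (d.κ d.i₁) ≠ 0 := fun h4 =>
    d.hli.ne_zero d.i₁ (transcendental_iff.1 (xx_trans (AlgHom.id K Ω)) _ h4)
  exact (mul_left_cancel₀ h3 h1).symm

end sa

end Dat

end Pool.Agent.K3h17.T
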