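import Mathlib
import Pool.Agent.K3h17.T.Fd

set_option autoImplicit false
set_option linter.unusedSectionVars false
set_option linter.unusedSimpArgs false

namespace Pool.Agent.K3h17.T

open Polynomial Pool.Agent.H391R2 Pool.Agent.Y793

namespace Dat

section bb

variable {K Ω ι : Type} [Field K] [CharZero K] [Field Ω] [Algebra (RatFunc K) Ω] [Algebra K Ω]
  [Fintype ι] (d : Dat K Ω ι)
variable {E : Type} [CommRing E] [Algebra K E]

/-- The difference of the bilinear forms at two points. -/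
noncomputable def BB (φ₁ φ₂ : Ω →ₐ[K] E) (a b : Option ι → E) : E :=
  d.BF a b φ₁ - d.BF a b φ₂

variable (φ₁ φ₂ : Ω →ₐ[K] E)

theorem BB_comm (a b : Option ι → E) : d.BB φ₁ φ₂ a b = d.BB φ₁ φ₂ b a := by
  unfold BB
  rw [BF_comm, d.BF_comm a b φ₂]

theorem BB_add (a b c : Option ι → E) :
    d.BB φ₁ φ₂ a (b + c) = d.BB φ₁ φ₂ a b + d.BB φ₁ φ₂ a c := by
  unfold BB
  rw [BF_add, BF_add]
  ring

theorem BB_smul (a : Option ι → E) (t : E) (b : Option ι → E) :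
    d.BB φ₁ φ₂ a (t • b) = t * d.BB φ₁ φ₂ a b := by
  unfold BB
  rw [BF_smul, BF_smul]
  ring

theorem BB_map {E' : Type} [CommRing E'] [Algebra K E'] (τ : E →ₐ[K] E')
    (a b : Option ι → E) : τ (d.BB φ₁ φ₂ a b) =
      d.BB (τ.comp φ₁) (τ.comp φ₂) (fun i => τ (a i)) (fun i => τ (b i)) := by
  unfold BB
  rw [map_sub, BF_map, BF_map]

theorem BB_tilde (e v : Option ι → E) (t : E)
    (he : d.BB φ₁ φ₂ e e = 0) (hv : d.BB φ₁ φ₂ v v = 0) :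
    d.BB φ₁ φ₂ e (v + (-t) • e) = d.BB φ₁ φ₂ e v ∧
    d.BB φ₁ φ₂ (v + (-t) • e) (v + (-t) • e) = -2 * t * d.BB φ₁ φ₂ e v := by
  have h1 : d.BB φ₁ φ₂ e (v + (-t) • e) = d.BB φ₁ φ₂ e v := by
    rw [BB_add, BB_smul, he, mul_zero, add_zero]
  refine ⟨h1, ?_⟩
  rw [BB_add, BB_smul, d.BB_comm _ _ (v + (-t) • e) e, h1,
    d.BB_comm _ _ (v + (-t) • e) v, BB_add, BB_smul, hv,
    d.BB_comm _ _ v e]
  ring

end bb

section sc

variable {K Ω ι : Type} [Field K] [CharZero K] [Field Ω] [Algebra (RatFunc K) Ω] [Algebra K Ω]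
  [IsScalarTower K (RatFunc K) Ω] [FiniteDimensional (RatFunc K) Ω] [IsGalois (RatFunc K) Ω]
  [Fintype ι] (d : Dat K Ω ι)
variable {k₀ N : Type} [Field k₀] [Field N] [Algebra K k₀] [Algebra K N] [Algebra k₀ N]
  [IsScalarTower K k₀ N]

theorem exists_e (hiso : Y793.St_iso) {F : Type} [Field F] [Algebra K F]
    [IsAlgClosed F] (φ₁ φ₂ : Ω →ₐ[K] F) (hne : φ₁ (xx K Ω) ≠ φ₂ (xx K Ω)) :
    ∃ (e : Option ι → F) (i₀ : Option ι), e i₀ = 1 ∧ d.BB φ₁ φ₂ e e = 0 ∧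
      ∃ b, d.BB φ₁ φ₂ e b ≠ 0 := by
  have hF : CharZero F := charZero_of_injective_algebraMap (algebraMap K F).injective
  obtain ⟨e, he, b, hb⟩ := exists_isotropic (d.BB φ₁ φ₂)
    (d.BB_comm φ₁ φ₂) (d.BB_add φ₁ φ₂) (d.BB_smul φ₁ φ₂)
    (fun U hU => by
      have h1 := d.iso' hiso φ₁ φ₂ hne U (fun a ha => by
        have h2 := hU a ha
        exact sub_eq_zero.1 h2)
      rw [Module.finrank_fintype_fun_eq_card, Fintype.card_option]
      omega)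
  have he0 : ∃ i₀, e i₀ ≠ 0 := by
    by_contra hcon
    push Not at hcon
    have h1 : e = 0 := funext hcon
    have h2 : d.BB φ₁ φ₂ e b = 0 := by
      rw [BB_comm, h1]
      have h3 := d.BB_smul φ₁ φ₂ b 0 (0 : Option ι → F)
      rwa [zero_smul, zero_mul] at h3
    exact hb h2
  obtain ⟨i₀, hi₀⟩ := he0
  refine ⟨(e i₀)⁻¹ • e, i₀, ?_, ?_, b, ?_⟩
  · rw [Pi.smul_apply, smul_eq_mul, inv_mul_cancel₀ hi₀]
  · rw [BB_smul, BB_comm, BB_smul, he, mul_zero, mul_zero]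
  · rw [BB_comm, BB_smul, BB_comm]
    exact mul_ne_zero (inv_ne_zero hi₀) hb

variable (η : Iy ι → N) (hη : IsTranscendenceBasis k₀ η)
include hη

/-- The isotropic vector is not orthogonal to the parameters. -/
theorem BB_ne (hgen : Y793.St_gen) (hiso : Y793.St_iso) (φ₁ φ₂ : Ω →ₐ[K] N)
    (p₁ : d.Pt η φ₁) (p₂ : d.Pt η φ₂)
    (F : IntermediateField k₀ N)
    (hF : F = cl k₀ (Set.range ![φ₁ (xx K Ω), φ₂ (xx K Ω)]))
    (m₁ : ∀ z, φ₁ z ∈ F) (m₂ : ∀ z, φ₂ z ∈ F) (hne : φ₁ (xx K Ω) ≠ φ₂ (xx K Ω))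
    (e b : Option ι → F) (hb : d.BB (cod F φ₁ m₁) (cod F φ₂ m₂) e b ≠ 0) :
    d.BB φ₁ φ₂ (fun i => (e i : N)) (fun i => η (Sum.inl i)) ≠ 0 := by
  intro h0
  have halg := d.alg_over η hη F φ₁ m₁ p₁
  have hrel : d.BF (fun i => η (Sum.inl i)) (fun i => η (Sum.inl i))
      ((IsScalarTower.toAlgHom K F N).comp (cod F φ₁ m₁)) =
      d.BF (fun i => η (Sum.inl i)) (fun i => η (Sum.inl i))
      ((IsScalarTower.toAlgHom K F N).comp (cod F φ₂ m₂)) := by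
    rw [val_eq, val_eq]
    exact p₁.trans p₂.symm
  let L : (Option ι → F) →ₗ[F] F :=
    { toFun := d.BB (cod F φ₁ m₁) (cod F φ₂ m₂) e
      map_add' := d.BB_add _ _ e
      map_smul' := d.BB_smul _ _ e }
  let LN : (Option ι → N) →ₗ[N] N :=
    { toFun := d.BB φ₁ φ₂ (fun i => (e i : N))
      map_add' := d.BB_add _ _ _
      map_smul' := d.BB_smul _ _ _ }
  have hLN : ∀ c : Option ι → F, LN (fun i => (c i : N)) = ((L c : F) : N) := fun c =>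
    (d.BB_map (cod F φ₁ m₁) (cod F φ₂ m₂) (IsScalarTower.toAlgHom K F N) e c).symm
  have hmem := mem_span_ker (F := F) (N := N) (I := Option ι) (J := Unit) (fun _ => L)
    (fun _ => LN) (fun _ c => hLN c)
    (fun i => η (Sum.inl i)) (fun _ => h0)
  rw [ciInf_const] at hmem
  have hr := L.finrank_range_add_finrank_ker
  rw [Module.finrank_fintype_fun_eq_card, Fintype.card_option] at hr
  have hr1 : Module.finrank F (LinearMap.range L) ≤ 1 := by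
    refine (Submodule.finrank_le _).trans ?_
    simp
  have hr2 : 0 < Module.finrank F (LinearMap.range L) := by
    rw [Module.finrank_pos_iff_exists_ne_zero]
    exact ⟨⟨L b, ⟨b, rfl⟩⟩, fun h1 => hb (congrArg Subtype.val h1)⟩
  refine d.rel_contra hgen hiso (fun i => η (Sum.inl i)) halg (LinearMap.ker L) hmem ?_ ?_
    (cod F φ₁ m₁) (cod F φ₂ m₂) (fun h => hne (congrArg Subtype.val h)) hrel
  · subst hF
    refine le_trdeg_cl η hη ![φ₁ (xx K Ω), φ₂ (xx K Ω)] _ ?_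
    rw [card_Iy]
    simp
    omega
  · omega

end sc

section sd

variable {K Ω ι : Type} [Field K] [CharZero K] [Field Ω] [Algebra (RatFunc K) Ω] [Algebra K Ω]
  [IsScalarTower K (RatFunc K) Ω] [FiniteDimensional (RatFunc K) Ω] [IsGalois (RatFunc K) Ω]
  [Fintype ι] (d : Dat K Ω ι)
variable {k₀ N : Type} [Field k₀] [Field N] [Algebra K k₀] [Algebra K N] [Algebra k₀ N]
  [IsScalarTower K k₀ N]

theorem BB_mem (F : IntermediateField k₀ N) (hF : ∀ x, IsAlgebraic F x → x ∈ F)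
    (a b : Option ι → N) (ha : ∀ i, a i ∈ F) (hb : ∀ i, b i ∈ F) (φ₁ φ₂ : Ω →ₐ[K] N)
    (h1 : φ₁ (xx K Ω) ∈ F) (h2 : φ₂ (xx K Ω) ∈ F) : d.BB φ₁ φ₂ a b ∈ F :=
  sub_mem (d.BF_mem F hF a b ha hb φ₁ h1) (d.BF_mem F hF a b ha hb φ₂ h2)

/-- The formula for the coordinate `i₀`. -/
theorem coord [CharZero N] {η : Iy ι → N} {φ₁ φ₂ : Ω →ₐ[K] N}
    (p₁ : d.Pt η φ₁) (p₂ : d.Pt η φ₂) (v : Option ι → N) (hv : v = fun i => η (Sum.inl i))
    (e : Option ι → N) (i₀ : Option ι)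
    (hee : d.BB φ₁ φ₂ e e = 0) (hev : d.BB φ₁ φ₂ e v ≠ 0) :
    v i₀ = d.BB φ₁ φ₂ (v + (-(v i₀)) • e) (v + (-(v i₀)) • e) /
      (-2 * d.BB φ₁ φ₂ e (v + (-(v i₀)) • e)) := by
  have hvv : d.BB φ₁ φ₂ v v = 0 := by
    rw [hv]
    exact sub_eq_zero.2 (p₁.trans p₂.symm)
  obtain ⟨h1, h2⟩ := d.BB_tilde φ₁ φ₂ e v (v i₀) hee hvv
  rw [h1, h2, eq_div_iff (mul_ne_zero (by norm_num) hev)]
  ring

variable (η : Iy ι → N) (hη : IsTranscendenceBasis k₀ η)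
include hη

theorem mem_all [CharZero N] {φ₁ φ₂ : Ω →ₐ[K] N}
    (p₁ : d.Pt η φ₁) (p₂ : d.Pt η φ₂)
    (e : Option ι → N) (i₀ : Option ι) (he1 : e i₀ = 1)
    (hee : d.BB φ₁ φ₂ e e = 0)
    (hev : d.BB φ₁ φ₂ e (fun i => η (Sum.inl i)) ≠ 0)
    (L : IntermediateField k₀ N) (hL : ∀ x, IsAlgebraic L x → x ∈ L) (hw₁ : φ₁ (xx K Ω) ∈ L)
    (hw₂ : φ₂ (xx K Ω) ∈ L) (he : ∀ i, e i ∈ L)
    (hz : ∀ i, i ≠ i₀ → η (Sum.inl i) - η (Sum.inl i₀) * e i ∈ L) (x : N) : x ∈ L := by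
  have hct : ∀ i, ((fun i => η (Sum.inl i)) + (-(η (Sum.inl i₀))) • e) i ∈ L := by
    intro i
    change η (Sum.inl i) + -(η (Sum.inl i₀)) * e i ∈ L
    by_cases hi : i = i₀
    · subst hi
      rw [he1, mul_one, add_neg_cancel]
      exact L.zero_mem
    · have h1 := hz i hi
      have h2 : η (Sum.inl i) + -(η (Sum.inl i₀)) * e i =
        η (Sum.inl i) - η (Sum.inl i₀) * e i := by ring
      rw [h2]
      exact h1
  have hc := d.coord p₁ p₂ (fun i => η (Sum.inl i)) rfl e i₀ hee hev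
  have h0 : η (Sum.inl i₀) ∈ L := by
    rw [hc]
    refine div_mem (d.BB_mem L hL _ _ hct hct φ₁ φ₂ hw₁ hw₂) (mul_mem ?_
      (d.BB_mem L hL _ _ he hct φ₁ φ₂ hw₁ hw₂))
    exact neg_mem (by exact_mod_cast L.natCast_mem 2)
  have hv : ∀ i, η (Sum.inl i) ∈ L := by
    intro i
    by_cases hi : i = i₀
    · rw [hi]
      exact h0
    · have h1 := add_mem (hz i hi) (mul_mem h0 (he i))
      rwa [sub_add_cancel] at h1
  refine basis_top η hη L (fun x => L.algebraMap_mem x) (fun j => ?_) hL x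
  rcases j with i | ⟨⟩
  · exact hv i
  · have h1 := d.BF_mem L hL (fun i => η (Sum.inl i)) (fun i => η (Sum.inl i)) hv hv φ₁ hw₁
    rw [p₁] at h1
    exact h1

omit hη in
theorem card_sub [DecidableEq ι] (i₀ : Option ι) :
    Nat.card {i // i ≠ i₀} = Fintype.card ι := by
  rw [Nat.card_eq_fintype_card, Fintype.card_subtype_compl, Fintype.card_option,
    Fintype.card_subtype_eq]
  omega

theorem basis₂ [CharZero N] {φ₁ φ₂ : Ω →ₐ[K] N}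
    (p₁ : d.Pt η φ₁) (p₂ : d.Pt η φ₂)
    (F : IntermediateField k₀ N)
    (hF : F = cl k₀ (Set.range ![φ₁ (xx K Ω), φ₂ (xx K Ω)]))
    (e : Option ι → F) (i₀ : Option ι) (he1 : e i₀ = 1)
    (hee : d.BB φ₁ φ₂ (fun i => (e i : N)) (fun i => (e i : N)) = 0)
    (hev : d.BB φ₁ φ₂ (fun i => (e i : N)) (fun i => η (Sum.inl i)) ≠ 0) :
    IsTranscendenceBasis F (fun i : {i // i ≠ i₀} =>
      η (Sum.inl i.1) - η (Sum.inl i₀) * (e i.1 : N)) ∧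
    IsTranscendenceBasis k₀ (Sum.elim ![φ₁ (xx K Ω), φ₂ (xx K Ω)] (fun i : {i // i ≠ i₀} =>
      η (Sum.inl i.1) - η (Sum.inl i₀) * (e i.1 : N))) := by
  classical
  have hw₁ : φ₁ (xx K Ω) ∈ F := by
    rw [hF]
    exact sub_cl _ ⟨0, rfl⟩
  have hw₂ : φ₂ (xx K Ω) ∈ F := by
    rw [hF]
    exact sub_cl _ ⟨1, rfl⟩
  constructor
  · refine basis_of_cl _ (fun x => ?_) ?_
    · set S := Set.range fun i : {i // i ≠ i₀} =>
        η (Sum.inl i.1) - η (Sum.inl i₀) * (e i.1 : N) with hS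
      have hmem : ∀ y ∈ F, y ∈ cl F S := fun y hy => (cl F S).algebraMap_mem (⟨y, hy⟩ : F)
      have hk : ∀ z : k₀, algebraMap k₀ N z ∈ (cl F S).toSubfield := fun z =>
        hmem _ (F.algebraMap_mem z)
      have hc : ∀ y, IsAlgebraic ((cl F S).toSubfield.toIntermediateField hk) y →
          y ∈ (cl F S).toSubfield.toIntermediateField hk := fun y hy => cl_closed (k := F) hy
      exact d.mem_all η hη p₁ p₂ (fun i => (e i : N)) i₀ (by rw [he1]; rfl) hee hev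
        ((cl F S).toSubfield.toIntermediateField hk) hc (hmem _ hw₁) (hmem _ hw₂)
        (fun i => hmem _ (e i).2) (fun i hi => sub_cl (k := F) S ⟨⟨i, hi⟩, rfl⟩) x
    · rw [card_sub]
      subst hF
      refine le_trdeg_cl η hη ![φ₁ (xx K Ω), φ₂ (xx K Ω)] _ ?_
      rw [card_Iy]
      simp
  · refine basis_of_cl _ (fun x => ?_) ?_
    · have hsub : ∀ y ∈ F, y ∈ cl k₀ (Set.range (Sum.elim ![φ₁ (xx K Ω), φ₂ (xx K Ω)]
          (fun i : {i // i ≠ i₀} => η (Sum.inl i.1) - η (Sum.inl i₀) * (e i.1 : N)))) := by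
        intro y hy
        rw [hF] at hy
        refine cl_le ?_ (fun x hx => cl_closed hx) hy
        rintro _ ⟨j, rfl⟩
        exact sub_cl _ ⟨Sum.inl j, rfl⟩
      refine d.mem_all η hη p₁ p₂ (fun i => (e i : N)) i₀ (by rw [he1]; rfl) hee hev _
        (fun y hy => cl_closed hy) (hsub _ hw₁) (hsub _ hw₂) (fun i => hsub _ (e i).2)
        (fun i hi => sub_cl _ ⟨Sum.inr ⟨i, hi⟩, rfl⟩) x
    · have hc2 : Nat.card (Fin 2 ⊕ {i // i ≠ i₀}) = Nat.card (Iy ι) := by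
        rw [card_Iy, Nat.card_sum, card_sub, Nat.card_fin]
        omega
      rw [hc2, ← hη.cardinalMk_eq_trdeg, Nat.cast_card]

end sd

section mv

variable {K Ω ι : Type} [Field K] [CharZero K] [Field Ω] [Algebra (RatFunc K) Ω] [Algebra K Ω]
  [IsScalarTower K (RatFunc K) Ω] [FiniteDimensional (RatFunc K) Ω] [IsGalois (RatFunc K) Ω]
  [Fintype ι] (d : Dat K Ω ι)
variable {k₀ N : Type} [Field k₀] [Field N] [Algebra K k₀] [Algebra K N] [Algebra k₀ N]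
  [IsScalarTower K k₀ N] [IsAlgClosed N]

/-- Inequivalent points. -/
def Ne' (φ₁ φ₂ : Ω →ₐ[K] N) : Prop := ∀ γ ∈ d.P, ¬ ∀ z, φ₂ z = φ₁ (γ z)

theorem Ne'.x_ne (hgen : Y793.St_gen) (hiso : Y793.St_iso) (η : Iy ι → N)
    (hη : IsTranscendenceBasis k₀ η) {φ₁ φ₂ : Ω →ₐ[K] N}
    (p₁ : d.Pt η φ₁) (p₂ : d.Pt η φ₂) (hne : d.Ne' φ₁ φ₂) :
    φ₂ (xx K Ω) ∉ cl k₀ (Set.range fun _ : Unit => φ₁ (xx K Ω)) := by
  intro h1
  obtain ⟨γ, h2, h3⟩ := d.sep η hη hgen hiso φ₁ φ₂ p₁ p₂ h1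
  exact hne γ h2 h3

theorem Ne'.symm {φ₁ φ₂ : Ω →ₐ[K] N} (hne : d.Ne' φ₁ φ₂) : d.Ne' φ₂ φ₁ := by
  intro γ hγ h
  refine hne γ⁻¹ (inv_mem hγ) fun z => ?_
  rw [h]
  congr 1
  exact (γ.apply_symm_apply z).symm

/-- The data of two distinct points. -/
theorem two_pts (hgen : Y793.St_gen) (hiso : Y793.St_iso) (η : Iy ι → N)
    (hη : IsTranscendenceBasis k₀ η) {φ₁ φ₂ : Ω →ₐ[K] N}
    (p₁ : d.Pt η φ₁) (p₂ : d.Pt η φ₂) (hne : d.Ne' φ₁ φ₂) :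
    ∃ (e : Option ι → cl k₀ (Set.range ![φ₁ (xx K Ω), φ₂ (xx K Ω)])) (i₀ : Option ι),
      e i₀ = 1 ∧
      d.BB φ₁ φ₂ (fun i => (e i : N)) (fun i => (e i : N)) = 0 ∧
      ∀ (η' : Iy ι → N), IsTranscendenceBasis k₀ η' → d.Pt η' φ₁ → d.Pt η' φ₂ →
      d.BB φ₁ φ₂ (fun i => (e i : N)) (fun i => η' (Sum.inl i)) ≠ 0 := by
  have hcN : CharZero N := charZero_of_injective_algebraMap (algebraMap K N).injective
  set F := cl k₀ (Set.range ![φ₁ (xx K Ω), φ₂ (xx K Ω)]) with hF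
  have hFc : IsAlgClosed F := cl_isAlgClosed _
  have hcl : ∀ x, IsAlgebraic F x → x ∈ F := fun x hx => cl_closed hx
  have hw₁ : φ₁ (xx K Ω) ∈ F := sub_cl _ ⟨0, rfl⟩
  have hw₂ : φ₂ (xx K Ω) ∈ F := sub_cl _ ⟨1, rfl⟩
  have m₁ := emb_mem' φ₁ F hcl hw₁
  have m₂ := emb_mem' φ₂ F hcl hw₂
  have hx : φ₁ (xx K Ω) ≠ φ₂ (xx K Ω) := by
    intro h1
    apply Ne'.x_ne d hgen hiso η hη p₁ p₂ hne
    rw [← h1]
    exact sub_cl _ ⟨(), rfl⟩
  obtain ⟨e, i₀, he1, hee, b, hb⟩ := d.exists_e hiso (cod F φ₁ m₁) (cod F φ₂ m₂)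
    (fun h => hx (congrArg Subtype.val h))
  refine ⟨e, i₀, he1, ?_, ?_⟩
  · have h1 := d.BB_map (cod F φ₁ m₁) (cod F φ₂ m₂) (IsScalarTower.toAlgHom K F N) e e
    rw [hee, map_zero, val_eq, val_eq] at h1
    exact h1.symm
  · intro η' hη' p₁' p₂'
    exact d.BB_ne η' hη' hgen hiso φ₁ φ₂ p₁' p₂' F hF m₁ m₂ hx e b hb

/-- Two systems of parameters with two common points are conjugate. -/
theorem move (hgen : Y793.St_gen) (hiso : Y793.St_iso) (η η' : Iy ι → N)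
    (hη : IsTranscendenceBasis k₀ η) (hη' : IsTranscendenceBasis k₀ η')
    {φ₁ φ₂ : Ω →ₐ[K] N} (p₁ : d.Pt η φ₁) (p₂ : d.Pt η φ₂)
    (p₁' : d.Pt η' φ₁) (p₂' : d.Pt η' φ₂) (hne : d.Ne' φ₁ φ₂) :
    ∃ τ : N ≃ₐ[cl k₀ (Set.range ![φ₁ (xx K Ω), φ₂ (xx K Ω)])] N, ∀ i, τ (η i) = η' i := by
  have hcN : CharZero N := charZero_of_injective_algebraMap (algebraMap K N).injective
  obtain ⟨e, i₀, he1, hee, hev⟩ := d.two_pts hgen hiso η hη p₁ p₂ hne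
  have hb := d.basis₂ η hη p₁ p₂ _ rfl e i₀ he1 hee (hev η hη p₁ p₂)
  have hb' := d.basis₂ η' hη' p₁' p₂' _ rfl e i₀ he1 hee (hev η' hη' p₁' p₂')
  obtain ⟨τ, hτ⟩ := exists_equiv_basis _ _ hb.1 hb'.1
  have hfix : ∀ x ∈ cl k₀ (Set.range ![φ₁ (xx K Ω), φ₂ (xx K Ω)]), τ x = x := fun x hx =>
    τ.commutes (⟨x, hx⟩ : cl k₀ (Set.range ![φ₁ (xx K Ω), φ₂ (xx K Ω)]))
  have hcl : ∀ x, IsAlgebraic (cl k₀ (Set.range ![φ₁ (xx K Ω), φ₂ (xx K Ω)])) x →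
    x ∈ cl k₀ (Set.range ![φ₁ (xx K Ω), φ₂ (xx K Ω)]) := fun x hx => cl_closed hx
  have hw₁ : φ₁ (xx K Ω) ∈ cl k₀ (Set.range ![φ₁ (xx K Ω), φ₂ (xx K Ω)]) := sub_cl _ ⟨0, rfl⟩
  have hw₂ : φ₂ (xx K Ω) ∈ cl k₀ (Set.range ![φ₁ (xx K Ω), φ₂ (xx K Ω)]) := sub_cl _ ⟨1, rfl⟩
  have m₁ := emb_mem' φ₁ _ hcl hw₁
  have m₂ := emb_mem' φ₂ _ hcl hw₂
  set e' : Option ι → N := fun i => (e i : N) with he'
  have he0 : e' i₀ = 1 := by
    rw [he']
    simp only [he1]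
    rfl
  have hct : ∀ i, τ (((fun i => η (Sum.inl i)) + (-(η (Sum.inl i₀))) • e') i) =
      ((fun i => η' (Sum.inl i)) + (-(η' (Sum.inl i₀))) • e') i := by
    intro i
    change τ (η (Sum.inl i) + -(η (Sum.inl i₀)) * e' i) =
      η' (Sum.inl i) + -(η' (Sum.inl i₀)) * e' i
    by_cases hi : i = i₀
    · rw [hi, he0, mul_one, mul_one, add_neg_cancel, add_neg_cancel, map_zero]
    · have h1 : ∀ a b : N, a + -b * e' i = a - b * e' i := fun a b => by ring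
      rw [h1, h1]
      exact hτ ⟨i, hi⟩
  let τK : N →ₐ[K] N :=
    (τ : N →ₐ[cl k₀ (Set.range ![φ₁ (xx K Ω), φ₂ (xx K Ω)])] N).restrictScalars K
  have hc₁ : τK.comp φ₁ = φ₁ := AlgHom.ext fun z => hfix _ (m₁ z)
  have hc₂ : τK.comp φ₂ = φ₂ := AlgHom.ext fun z => hfix _ (m₂ z)
  have hBB : ∀ a b : Option ι → N, τ (d.BB φ₁ φ₂ a b) =
      d.BB φ₁ φ₂ (fun i => τ (a i)) (fun i => τ (b i)) := by
    intro a b
    have h1 := d.BB_map φ₁ φ₂ τK a b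
    rw [hc₁, hc₂] at h1
    exact h1
  have hfe : (fun i => τ (e' i)) = e' := funext fun i => hfix _ (e i).2
  have h0 : τ (η (Sum.inl i₀)) = η' (Sum.inl i₀) := by
    have c1 := d.coord p₁ p₂ (fun i => η (Sum.inl i)) rfl e' i₀ hee (hev η hη p₁ p₂)
    have c2 := d.coord p₁' p₂' (fun i => η' (Sum.inl i)) rfl e' i₀ hee (hev η' hη' p₁' p₂')
    change η (Sum.inl i₀) = _ at c1
    change η' (Sum.inl i₀) = _ at c2
    rw [c1, c2, map_div₀, map_mul, map_neg, map_ofNat, hBB, hBB, hfe]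
    simp only [hct]
  have hv : ∀ i, τ (η (Sum.inl i)) = η' (Sum.inl i) := by
    intro i
    have h1 := hct i
    change τ (η (Sum.inl i) + -(η (Sum.inl i₀)) * e' i) =
      η' (Sum.inl i) + -(η' (Sum.inl i₀)) * e' i at h1
    rw [map_add, map_mul, map_neg, h0, congrFun hfe i] at h1
    exact add_right_cancel h1
  refine ⟨τ, fun j => ?_⟩
  rcases j with i | ⟨⟩
  · exact hv i
  · have h1 := d.BF_map τK (fun i => η (Sum.inl i)) (fun i => η (Sum.inl i)) φ₁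
    rw [hc₁] at h1
    change τ _ = d.BF (fun i => τ (η (Sum.inl i))) (fun i => τ (η (Sum.inl i))) φ₁ at h1
    rw [p₁, funext hv, p₁'] at h1
    exact h1

end mv

end Dat

end Pool.Agent.K3h17.T
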