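import Mathlib
import Pool.Agent.K3h17.T.Fh
import Pool.Agent.K3h17.Stm4

set_option autoImplicit false
set_option linter.unusedSectionVars false
set_option linter.unusedSimpArgs false

namespace Pool.Agent.K3h17.T

open Polynomial Pool.Agent.H391R2 Pool.Agent.Y793

namespace Dat

section ev

variable {K Ω ι : Type} [Field K] [CharZero K] [Field Ω] [Algebra (RatFunc K) Ω] [Algebra K Ω]
  [IsScalarTower K (RatFunc K) Ω] [FiniteDimensional (RatFunc K) Ω] [IsGalois (RatFunc K) Ω]
  [Fintype ι] (d : Dat K Ω ι)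
variable {k₀ N : Type} [Field k₀] [Field N] [Algebra K k₀] [Algebra K N] [Algebra k₀ N]
  [IsScalarTower K k₀ N]

theorem SS_eval_mem (F : IntermediateField k₀ N) (v : Option ι → N) (hv : ∀ i, v i ∈ F) {x : N}
    (hx : x ∈ F) : (d.SS v).eval x ∈ F := by
  have h1 := d.SS_map (IsScalarTower.toAlgHom K F N) (fun i => (⟨v i, hv i⟩ : F))
  change _ = d.SS v at h1
  rw [← h1]
  have h2 := map_ev' (IsScalarTower.toAlgHom K F N) (d.SS fun i => (⟨v i, hv i⟩ : F)) ⟨x, hx⟩
  change _ = eval x _ at h2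
  rw [← h2]
  exact Subtype.property _

theorem root_hp (F : IntermediateField k₀ N) (v : Option ι → N) (hv : ∀ i, v i ∈ F)
    (h0 : v (some d.i₁) ≠ 0) {x : N} (hx : (d.hp' v).eval x = 0) : IsAlgebraic F x := by
  have h1 := d.hp_map (IsScalarTower.toAlgHom K F N) (fun i => (⟨v i, hv i⟩ : F))
  change _ = d.hp' v at h1
  refine ⟨d.hp' (fun i => (⟨v i, hv i⟩ : F)), ?_, ?_⟩
  · intro h2
    rw [h2, Polynomial.map_zero] at h1
    have h3 := d.hp_coeff v
    rw [← h1, coeff_zero] at h3
    refine mul_ne_zero h0 ?_ h3.symm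
    rw [Ne, FaithfulSMul.algebraMap_eq_zero_iff]
    exact leadingCoeff_ne_zero.2 (d.hli.ne_zero _)
  · rw [aeval_def, ← eval_map, ← hx, ← h1]
    rfl

variable (η : Iy ι → N) (hη : IsTranscendenceBasis k₀ η)

include hη

theorem T_not_mem : η (Sum.inr ()) ∉ cl k₀ (Set.range fun i => η (Sum.inl i)) := by
  intro hw
  have hcl : ∀ x, IsAlgebraic (cl k₀ (Set.range fun i => η (Sum.inl i))) x →
      x ∈ cl k₀ (Set.range fun i => η (Sum.inl i)) := fun x hx => cl_closed hx
  have hv : ∀ i, η (Sum.inl i) ∈ cl k₀ (Set.range fun i => η (Sum.inl i)) :=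
    fun i => sub_cl _ ⟨i, rfl⟩
  have h1 := le_trdeg_cl η hη (fun i => η (Sum.inl i)) 1 (by
    rw [card_Iy]
    simp [Nat.card_eq_fintype_card]
    omega)
  have h2 : Algebra.IsAlgebraic (cl k₀ (Set.range fun i => η (Sum.inl i))) N := by
    refine ⟨fun x => ?_⟩
    have h3 : x ∈ cl k₀ (Set.range fun i => η (Sum.inl i)) := by
      refine basis_top η hη _ (fun z => IntermediateField.algebraMap_mem _ z) (fun j => ?_) hcl x
      rcases j with j | j
      · exact hv j
      · exact hw
    exact isAlgebraic_algebraMap (⟨x, h3⟩ : cl k₀ (Set.range fun i => η (Sum.inl i)))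
  have h4 : Algebra.trdeg (cl k₀ (Set.range fun i => η (Sum.inl i))) N = 0 :=
    _root_.trdeg_eq_zero
  rw [h4] at h1
  simp at h1

theorem S_root_not_mem {x : N} (hx : (d.SS (fun i => η (Sum.inl i))).eval x = η (Sum.inr ())) :
    x ∉ cl k₀ (Set.range fun i => η (Sum.inl i)) := by
  intro h1
  apply T_not_mem η hη
  rw [← hx]
  exact d.SS_eval_mem _ _ (fun i => sub_cl (Set.range fun i : Option ι => η (Sum.inl i))
    ⟨i, rfl⟩) h1

/-- The roots of `S - T`. -/
theorem exists_s [IsAlgClosed N] : ∃ s : Fin (2 * d.k + 1) → N, Function.Injective s ∧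
    ∀ j, (d.SS (fun i => η (Sum.inl i))).eval (s j) = η (Sum.inr ()) := by
  have h1 := d.SS_deg (fun i => η (Sum.inl i)) (η_ne η hη _)
  have h2 : (d.SS (fun i => η (Sum.inl i)) - C (η (Sum.inr ()))).natDegree = 2 * d.k + 1 := by
    rw [natDegree_sub_C, h1]
  have h3 : d.SS (fun i => η (Sum.inl i)) - C (η (Sum.inr ())) ≠ 0 := by
    intro h0
    rw [h0, natDegree_zero] at h2
    omega
  obtain ⟨a, ha, hp⟩ := fac_simple _ h3 _ h2 (fun x hx => by
    rw [eval_sub, eval_C, sub_eq_zero] at hx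
    rw [derivative_sub, derivative_C, sub_zero, derivative_SS, eval_mul]
    intro h4
    have h5 := mul_self_eq_zero.1 h4
    exact d.S_root_not_mem η hη hx (cl_closed (d.root_hp _ _ (fun i =>
      sub_cl (Set.range fun i : Option ι => η (Sum.inl i)) ⟨i, rfl⟩) (η_ne η hη _) h5)))
  refine ⟨a, ha, fun j => ?_⟩
  have h4 : (d.SS (fun i => η (Sum.inl i)) - C (η (Sum.inr ()))).eval (a j) = 0 := by
    rw [hp, eval_mul, eval_prod]
    apply mul_eq_zero_of_right
    exact Finset.prod_eq_zero (Finset.mem_univ j) (by simp)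
  rwa [eval_sub, eval_C, sub_eq_zero] at h4

omit hη in
theorem y_ne_zero : d.y ≠ 0 := by
  intro h0
  have h1 : d.P = ⊤ := by
    rw [Subgroup.eq_top_iff']
    intro γ
    rw [← d.hy, h0, map_zero]
  have h2 := d.hPm
  rw [h1, Subgroup.index_top] at h2
  have h3 := d.hm
  rw [← h2] at h3
  exact absurd h3 (by decide)

/-- The linear form at a point as a linear map. -/
noncomputable def kcL {E : Type} [CommRing E] [Algebra K E] (φ : Ω →ₐ[K] E) :
    (Option ι → E) →ₗ[E] E where
  toFun v := d.kc v φ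
  map_add' a b := by
    unfold kc
    rw [hp_add, eval_add, Pi.add_apply]
    ring
  map_smul' t a := by
    unfold kc
    rw [hp_smul, eval_mul, eval_C, Pi.smul_apply, smul_eq_mul, RingHom.id_apply, smul_eq_mul]
    ring

/-- The generic point. -/
theorem gen_pt {F : IntermediateField k₀ N} {x : N}
    (hF : F = cl k₀ (Set.range fun _ : Unit => x)) :
    (Module.finrank F (⊤ : Submodule F (Option ι → F)) : Cardinal) ≤ Algebra.trdeg F N := by
  subst hF
  rw [finrank_top, Module.finrank_fintype_fun_eq_card, Fintype.card_option]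
  refine le_trdeg_cl η hη (fun _ : Unit => x) _ ?_
  rw [card_Iy]
  simp

theorem kc_ne (hgen : Y793.St_gen) (φ : Ω →ₐ[K] N) (hp : d.Pt η φ) :
    d.kc (fun i => η (Sum.inl i)) φ ≠ 0 := by
  classical
  intro h0
  set F := cl k₀ (Set.range fun _ : Unit => φ (xx K Ω)) with hF
  have hcl : ∀ x, IsAlgebraic F x → x ∈ F := fun x hx => cl_closed hx
  have hw : φ (xx K Ω) ∈ F := sub_cl _ ⟨(), rfl⟩
  have m := emb_mem' φ F hcl hw
  have hall := lin_all hgen (fun i => η (Sum.inl i)) (d.alg_over η hη F φ m hp) ⊤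
    (mem_span_top _) (gen_pt η hη hF) (d.kcL (cod F φ m)) (d.kcL φ)
    (fun c => by
      have h1 := d.kc_map (IsScalarTower.toAlgHom K F N) c (cod F φ m)
      rw [val_eq] at h1
      exact h1.symm) h0
  have h1 := hall (fun o => o.elim 0 (Pi.single d.i₁ 1)) trivial
  change d.kc _ _ = 0 at h1
  unfold kc hp' lk at h1
  have h2 : ∑ i, C ((fun o : Option ι => (o.elim 0 (Pi.single d.i₁ 1) : F)) (some i)) *
      (d.κ i).map (algebraMap K F) = (d.κ d.i₁).map (algebraMap K F) := by
    rw [Finset.sum_eq_single d.i₁]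
    · simp
    · intro j _ hj
      simp [hj]
    · intro h
      exact absurd (Finset.mem_univ _) h
  rw [h2] at h1
  simp only [Option.elim_none, zero_mul, C_0, sub_zero, add_zero] at h1
  rw [eval_map_algebraMap] at h1
  exact d.hli.ne_zero d.i₁ (transcendental_iff.1 (xx_trans (cod F φ m)) _ h1)

theorem S_ne (hgen : Y793.St_gen) (φ : Ω →ₐ[K] N) (hp : d.Pt η φ) :
    (d.SS (fun i => η (Sum.inl i))).eval (φ (xx K Ω)) ≠ η (Sum.inr ()) := by
  classical
  intro h0
  set F := cl k₀ (Set.range fun _ : Unit => φ (xx K Ω)) with hF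
  have hcl : ∀ x, IsAlgebraic F x → x ∈ F := fun x hx => cl_closed hx
  have hw : φ (xx K Ω) ∈ F := sub_cl _ ⟨(), rfl⟩
  have m := emb_mem' φ F hcl hw
  have hη0 : η (Sum.inl none) ≠ 0 := η_ne η hη _
  have hcN : CharZero N := charZero_of_injective_algebraMap (algebraMap K N).injective
  have h1 : ∑ i, 2 * η (Sum.inl (some i)) * φ (d.W i) + η (Sum.inl none) * φ d.H = 0 := by
    have h2 : η (Sum.inl none) * (∑ i, 2 * η (Sum.inl (some i)) * φ (d.W i) +
        η (Sum.inl none) * φ d.H) = 0 := by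
      have h3 : d.BF (fun i => η (Sum.inl i)) (fun i => η (Sum.inl i)) φ = η (Sum.inr ()) := hp
      unfold BF at h3
      unfold SS at h0
      rw [h0, add_assoc, add_eq_left] at h3
      rw [← h3, mul_add, Finset.mul_sum]
      refine congrArg₂ (· + ·) (Finset.sum_congr rfl fun i _ => ?_) ?_ <;> ring
    exact (mul_eq_zero.1 h2).resolve_left hη0
  let L : (Option ι → F) →ₗ[F] F :=
    { toFun := fun v => ∑ i, 2 * v (some i) * cod F φ m (d.W i) + v none * cod F φ m d.H
      map_add' := fun a b => by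
        simp only [Pi.add_apply, mul_add, add_mul, Finset.sum_add_distrib]
        ring
      map_smul' := fun t a => by
        simp only [Pi.smul_apply, smul_eq_mul, RingHom.id_apply, mul_add, Finset.mul_sum]
        refine congrArg₂ (· + ·) (Finset.sum_congr rfl fun i _ => ?_) ?_ <;> ring }
  let LN : (Option ι → N) →ₗ[N] N :=
    { toFun := fun v => ∑ i, 2 * v (some i) * φ (d.W i) + v none * φ d.H
      map_add' := fun a b => by
        simp only [Pi.add_apply, mul_add, add_mul, Finset.sum_add_distrib]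
        ring
      map_smul' := fun t a => by
        simp only [Pi.smul_apply, smul_eq_mul, RingHom.id_apply, mul_add, Finset.mul_sum]
        refine congrArg₂ (· + ·) (Finset.sum_congr rfl fun i _ => ?_) ?_ <;> ring }
  have hall := lin_all hgen (fun i => η (Sum.inl i)) (d.alg_over η hη F φ m hp) ⊤
    (mem_span_top _) (gen_pt η hη hF) L LN
    (fun c => by
      change ∑ i, 2 * algebraMap F N (c (some i)) * φ (d.W i) + algebraMap F N (c none) * φ d.H =
        algebraMap F N (∑ i, 2 * c (some i) * cod F φ m (d.W i) + c none * cod F φ m d.H)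
      rw [map_add, map_sum, map_mul]
      refine congrArg₂ (· + ·) (Finset.sum_congr rfl fun i _ => ?_) rfl
      rw [map_mul, map_mul, map_ofNat]
      rfl) h1
  have h2 := hall (fun o => o.elim 0 (Pi.single d.i₁ 1)) trivial
  change ∑ i, 2 * (Pi.single d.i₁ 1 : ι → F) i * cod F φ m (d.W i) + 0 * cod F φ m d.H = 0 at h2
  rw [zero_mul, add_zero, Finset.sum_eq_single d.i₁] at h2
  · have hcF : CharZero F := charZero_of_injective_algebraMap (algebraMap K F).injective
    rw [Pi.single_eq_same, mul_one] at h2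
    have h3 := (mul_eq_zero.1 h2).resolve_left (by norm_num)
    have h4 : d.W d.i₁ = 0 := by
      apply (cod F φ m).injective
      rw [map_zero]
      exact h3
    have h5 := d.hW d.i₁
    rw [h4, map_zero] at h5
    exact mul_ne_zero (aev_ne (d.hli.ne_zero _)) d.y_ne_zero h5.symm
  · intro j _ hj
    rw [Pi.single_eq_of_ne hj, mul_zero, zero_mul]
  · intro h
    exact absurd (Finset.mem_univ _) h

end ev

section even

variable {K Ω ι : Type} [Field K] [CharZero K] [Field Ω] [Algebra (RatFunc K) Ω] [Algebra K Ω]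
  [IsScalarTower K (RatFunc K) Ω] [FiniteDimensional (RatFunc K) Ω] [IsGalois (RatFunc K) Ω]
  [Fintype ι] (d : Dat K Ω ι)
variable {k₀ N : Type} [Field k₀] [Field N] [IsAlgClosed N] [Algebra K k₀] [Algebra K N]
  [Algebra k₀ N] [IsScalarTower K k₀ N] (η : Iy ι → N) (hη : IsTranscendenceBasis k₀ η)

include hη

/-- The sign of the permutation of an automorphism. -/
theorem even_x (hevn : K3h17.St_evn2) (hgen : Y793.St_gen) (hiso : Y793.St_iso)
    {φ : Fin (d.m * (2 * d.k + 1)) → (Ω →ₐ[K] N)} (S : d.Sy η _ φ) (σ : N ≃ₐ[K] N)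
    (hσ : ∀ i, σ (η i) = η i) (g : N[X]) (ε : ℤˣ)
    (hg : g ^ 2 = ∏ r, (d.D r).map (algebraMap K N))
    (hgσ : g.map (σ : N →+* N) = C (((ε : ℤˣ) : ℤ) : N) * g)
    (x : Wr d.P (d.m * (2 * d.k + 1))) (hx : Rx φ σ x) :
    Equiv.Perm.sign x.right = ε ^ (2 * d.k + 1) := by
  have hcN : CharZero N := charZero_of_injective_algebraMap (algebraMap K N).injective
  obtain ⟨s, hs, hs2⟩ := d.exists_s η hη
  have hmap : ∀ q : K[X], (q.map (algebraMap K N)).map (σ : N →+* N) = q.map (algebraMap K N) := by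
    intro q
    rw [Polynomial.map_map]
    congr 1
    exact (σ : N →ₐ[K] N).comp_algebraMap
  have hση : (fun i => (σ : N →ₐ[K] N) (η (Sum.inl i))) = fun i : Option ι => η (Sum.inl i) :=
    funext fun i => hσ _
  have hD0 : ∀ (r : Fin d.m) (z : N), Transcendental K z →
      ((d.D r).map (algebraMap K N)).eval z ≠ 0 := by
    intro r z hz h0
    rw [eval_map_algebraMap] at h0
    exact d.hD r (transcendental_iff.1 hz _ h0)
  refine hevn N d.m (2 * d.k + 1) d.hm (Nat.succ_pos _) σ.toRingEquiv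
    (d.SS (fun i => η (Sum.inl i))) (η (Sum.inr ())) g
    (fun r => (d.D r).map (algebraMap K N)) (fun r s => d.AA (fun i => η (Sum.inl i)) r s) ε
    (d.SS_deg _ (η_ne η hη _)) hg (fun r =>
      (Polynomial.map_ne_zero_iff (algebraMap K N).injective).2 (d.hD r))
    (fun r s => d.AA_symm _ r s) (fun r s => d.AA_deg _ r s) s hs hs2 ?_
    (fun i => φ i (xx K Ω)) (d.x_inj η hη hgen hiso φ S.pt S.ne)
    (fun i => d.S_ne η hη hgen (φ i) (S.pt i)) (fun i r => hD0 r _ (xx_trans _))
    (fun i r => φ i (d.e r)) (fun i => d.kc (fun i => η (Sum.inl i)) (φ i))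
    (fun i => d.kc_ne η hη hgen (φ i) (S.pt i)) ?_ ?_ ?_ (hσ _) hgσ (fun r => hmap _) ?_
    x.right ?_ ?_ ?_
  · intro j r
    refine hD0 r _ fun h1 => ?_
    exact d.S_root_not_mem η hη (hs2 j) (cl_closed ((h1.tower_top k₀).tower_top _))
  · intro i r
    have h1 := d.eig (fun i => η (Sum.inl i)) (φ i) r
    have h2 : d.BF (fun i => η (Sum.inl i)) (fun i => η (Sum.inl i)) (φ i) = η (Sum.inr ()) :=
      S.pt i
    rw [h2] at h1
    exact h1
  · intro i
    exact d.derf (fun i => η (Sum.inl i)) (φ i)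
  · have h1 := d.SS_map (σ : N →ₐ[K] N) (fun i => η (Sum.inl i))
    rw [hση] at h1
    exact h1
  · intro r s
    have h1 := d.AA_map (σ : N →ₐ[K] N) (fun i => η (Sum.inl i)) r s
    rw [hση] at h1
    exact h1
  · intro i
    have h1 := hx i (xx K Ω)
    have h2 : (x.left (x.right i) : Ω ≃ₐ[RatFunc K] Ω) (xx K Ω) = xx K Ω := AlgEquiv.commutes _ _
    rw [h2] at h1
    exact h1
  · intro i r
    have h1 := hx i (d.e r)
    rw [d.he r _ (x.left (x.right i)).2] at h1
    exact h1
  · intro i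
    have h1 := d.kc_map (σ : N →ₐ[K] N) (fun i => η (Sum.inl i)) (φ i)
    rw [hση] at h1
    refine h1.trans ?_
    have h2 : (σ : N →ₐ[K] N).comp (φ i) = (φ (x.right i)).comp
      (((x.left (x.right i) : Ω ≃ₐ[RatFunc K] Ω) : Ω →ₐ[RatFunc K] Ω).restrictScalars K) :=
      AlgHom.ext fun z => hx i z
    rw [h2]
    unfold kc
    have h3 : (x.left (x.right i) : Ω ≃ₐ[RatFunc K] Ω) (xx K Ω) = xx K Ω := AlgEquiv.commutes _ _
    have h4 : (x.left (x.right i) : Ω ≃ₐ[RatFunc K] Ω) d.y = d.y :=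
      (d.hy _).2 (x.left (x.right i)).2
    change (d.hp' _).eval (φ (x.right i) ((x.left (x.right i) : Ω ≃ₐ[RatFunc K] Ω) (xx K Ω))) +
      _ * φ (x.right i) ((x.left (x.right i) : Ω ≃ₐ[RatFunc K] Ω) d.y) = _
    rw [h3, h4]

end even

end Dat

end Pool.Agent.K3h17.T
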