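import Mathlib
import Pool.Agent.K3h17.T.Fi

set_option autoImplicit false
set_option linter.unusedSectionVars false
set_option linter.unusedSimpArgs false

namespace Pool.Agent.K3h17.T

open Polynomial Pool.Agent.H391R2 Pool.Agent.Y793

theorem not_mem_cl {k N : Type} [Field k] [Field N] [Algebra k N] {J : Type} {c : J → N}
    (hc : AlgebraicIndependent k c) {s : Set J} {i : J} (hi : i ∉ s) : c i ∉ cl k (c '' s) := by
  rw [mem_cl]
  intro h
  exact (IntermediateField.transcendental_adjoin_iff.2 (hc.transcendental_adjoin hi)) h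

namespace Dat

section bil

variable {K Ω ι : Type} [Field K] [CharZero K] [Field Ω] [Algebra (RatFunc K) Ω] [Algebra K Ω]
  [IsScalarTower K (RatFunc K) Ω] [FiniteDimensional (RatFunc K) Ω] [IsGalois (RatFunc K) Ω]
  [Fintype ι] [DecidableEq ι] (d : Dat K Ω ι)
  {E : Type} [CommRing E] [Algebra K E]

/-- The coefficients of the bilinear form. -/
noncomputable def Bb (o o' : Option ι) : Ω :=
  d.BF (Pi.single o 1) (Pi.single o' 1) (AlgHom.id K Ω)

theorem BF_sum_right (v : Option ι → E) (φ : Ω →ₐ[K] E) (v' : Option ι → E) :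
    d.BF v v' φ = ∑ o, v' o * d.BF v (Pi.single o 1) φ := by
  let L : (Option ι → E) →ₗ[E] E :=
    { toFun := fun v' => d.BF v v' φ
      map_add' := fun a b => d.BF_add v a b φ
      map_smul' := fun t a => d.BF_smul t v a φ }
  have h1 : v' = ∑ o, v' o • (Pi.single o 1 : Option ι → E) := by
    funext j
    simp [Finset.sum_apply, Pi.single_apply]
  have h2 : L v' = ∑ o, v' o * L (Pi.single o 1) := by
    conv_lhs => rw [h1]
    rw [map_sum]
    exact Finset.sum_congr rfl fun o _ => by rw [map_smul, smul_eq_mul]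
  exact h2

theorem BF_expand (v : Option ι → E) (φ : Ω →ₐ[K] E) :
    d.BF v v φ = ∑ q : Option ι × Option ι, v q.1 * v q.2 * φ (d.Bb q.1 q.2) := by
  have h0 : ∀ o o' : Option ι, d.BF (Pi.single o 1) (Pi.single o' 1) φ = φ (d.Bb o o') := by
    intro o o'
    have h1 := d.BF_map φ (Pi.single o 1) (Pi.single o' 1) (AlgHom.id K Ω)
    have h2 : ∀ o : Option ι, (fun i => φ ((Pi.single o 1 : Option ι → Ω) i)) = Pi.single o 1 := by
      intro o
      funext i
      by_cases h : i = o
      · subst h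
        simp
      · simp [Pi.single_eq_of_ne h]
    rw [h2, h2, AlgHom.comp_id] at h1
    exact h1.symm
  rw [Fintype.sum_prod_type, BF_sum_right, Finset.sum_comm]
  refine Finset.sum_congr rfl fun o' _ => ?_
  rw [BF_comm, BF_sum_right, Finset.mul_sum]
  refine Finset.sum_congr rfl fun o _ => ?_
  rw [BF_comm, h0]
  ring

theorem kc_expand (v : Option ι → E) (φ : Ω →ₐ[K] E) :
    d.kc v φ = ∑ o, v o * φ (d.kc (Pi.single o 1) (AlgHom.id K Ω)) := by
  have h0 : ∀ o : Option ι, d.kc (Pi.single o 1) φ = φ (d.kc (Pi.single o 1) (AlgHom.id K Ω)) := by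
    intro o
    have h1 := d.kc_map φ (Pi.single o 1) (AlgHom.id K Ω)
    have h2 : ∀ o : Option ι, (fun i => φ ((Pi.single o 1 : Option ι → Ω) i)) = Pi.single o 1 := by
      intro o
      funext i
      by_cases h : i = o
      · subst h
        simp
      · simp [Pi.single_eq_of_ne h]
    rw [h2, AlgHom.comp_id] at h1
    exact h1.symm
  have h1 : v = ∑ o, v o • (Pi.single o 1 : Option ι → E) := by
    funext j
    simp [Finset.sum_apply, Pi.single_apply]
  have h2 : d.kcL φ v = ∑ o, v o * d.kcL φ (Pi.single o 1) := by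
    conv_lhs => rw [h1]
    rw [map_sum]
    exact Finset.sum_congr rfl fun o _ => by rw [map_smul, smul_eq_mul]
  refine h2.trans (Finset.sum_congr rfl fun o _ => ?_)
  rw [← h0]
  rfl

/-- The derivative of the bilinear form. -/
theorem δ_BF (a b : Option ι → K) :
    d.δ (d.BF (fun i => algebraMap K Ω (a i)) (fun i => algebraMap K Ω (b i)) (AlgHom.id K Ω)) =
      d.kc (fun i => algebraMap K Ω (a i)) (AlgHom.id K Ω) *
      d.kc (fun i => algebraMap K Ω (b i)) (AlgHom.id K Ω) := by
  have h0 : ∀ a : Option ι → K, d.hp' (fun i => algebraMap K Ω (a i)) =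
      (d.hp' a).map (algebraMap K Ω) := fun a => (d.hp_map (Algebra.ofId K Ω) a).symm
  have h1 : ∀ a : Option ι → K, (d.hp' (fun i => algebraMap K Ω (a i))).eval (xx K Ω) =
      ∑ i, algebraMap K Ω (a (some i)) * aeval (xx K Ω) (d.κ i) -
      algebraMap K Ω (a none * (1 / 2)) * aeval (xx K Ω) d.p := by
    intro a
    unfold hp' lk
    rw [eval_sub, eval_finsetSum, eval_mul, eval_C, eval_map_algebraMap, map_mul]
    refine congrArg₂ _ (Finset.sum_congr rfl fun i _ => ?_) rfl
    rw [eval_mul, eval_C, eval_map_algebraMap]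
  have h2 : d.δ ((adr K (d.hp' (fun i => algebraMap K Ω (a i)) *
      d.hp' (fun i => algebraMap K Ω (b i)))).eval (xx K Ω)) =
      (d.hp' (fun i => algebraMap K Ω (a i))).eval (xx K Ω) *
      (d.hp' (fun i => algebraMap K Ω (b i))).eval (xx K Ω) := by
    rw [h0, h0, ← Polynomial.map_mul]
    have h3 := adr_map (Algebra.ofId K Ω) (d.hp' a * d.hp' b)
    change (adr K (d.hp' a * d.hp' b)).map (algebraMap K Ω) = adr K ((d.hp' a * d.hp' b).map
      (algebraMap K Ω)) at h3
    rw [← h3, eval_map_algebraMap, δ_aev, derivative_adr, map_mul, eval_map_algebraMap,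
      eval_map_algebraMap]
  have h3 : ∀ (t : K) (z : Ω), d.δ (algebraMap K Ω t * z) = algebraMap K Ω t * d.δ z := by
    intro t z
    rw [← Algebra.smul_def, ← Algebra.smul_def, Derivation.map_smul]
  unfold BF
  rw [map_add, map_add, map_sum]
  have h4 : ∀ i, d.δ ((algebraMap K Ω (a none) * algebraMap K Ω (b (some i)) +
      algebraMap K Ω (b none) * algebraMap K Ω (a (some i))) * (AlgHom.id K Ω) (d.W i)) =
      (algebraMap K Ω (a none) * algebraMap K Ω (b (some i)) +
      algebraMap K Ω (b none) * algebraMap K Ω (a (some i))) *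
        (aeval (xx K Ω) (d.κ i) * d.y) := by
    intro i
    rw [← map_mul, ← map_mul, ← map_add, h3, AlgHom.id_apply, d.hW]
  simp only [h4]
  rw [← map_mul (algebraMap K Ω) (a none) (b none), h3, AlgHom.id_apply, AlgHom.id_apply, h2, d.hH]
  unfold kc
  rw [AlgHom.id_apply, AlgHom.id_apply, h1, h1]
  have h5 : ∑ i, (algebraMap K Ω (a none) * algebraMap K Ω (b (some i)) +
      algebraMap K Ω (b none) * algebraMap K Ω (a (some i))) *
        (aeval (xx K Ω) (d.κ i) * d.y) =
      algebraMap K Ω (a none) * (∑ i, algebraMap K Ω (b (some i)) * aeval (xx K Ω) (d.κ i)) * d.y +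
      algebraMap K Ω (b none) * (∑ i, algebraMap K Ω (a (some i)) * aeval (xx K Ω) (d.κ i)) *
        d.y := by
    rw [Finset.mul_sum, Finset.mul_sum, Finset.sum_mul, Finset.sum_mul, ← Finset.sum_add_distrib]
    exact Finset.sum_congr rfl fun i _ => by ring
  rw [h5]
  have h7 : (2 : Ω) * algebraMap K Ω (1 / 2) = 1 := by
    rw [← map_ofNat (algebraMap K Ω) 2, ← map_mul]
    norm_num
  simp only [map_mul]
  linear_combination (algebraMap K Ω (a none) * algebraMap K Ω (b none) *
    aeval (xx K Ω) d.p * d.y) * h7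

theorem δ_Bb (o o' : Option ι) : d.δ (d.Bb o o') =
    d.kc (Pi.single o 1) (AlgHom.id K Ω) * d.kc (Pi.single o' 1) (AlgHom.id K Ω) := by
  have h2 : ∀ o : Option ι, (fun i => algebraMap K Ω ((Pi.single o 1 : Option ι → K) i)) =
      Pi.single o 1 := by
    intro o
    funext i
    by_cases h : i = o
    · subst h
      simp
    · simp [Pi.single_eq_of_ne h]
  have h1 := d.δ_BF (Pi.single o 1) (Pi.single o' 1)
  rw [h2, h2] at h1
  exact h1

end bil

section lift

variable {K Ω ι : Type} [Field K] [CharZero K] [Field Ω] [Algebra (RatFunc K) Ω] [Algebra K Ω]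
  [IsScalarTower K (RatFunc K) Ω] [FiniteDimensional (RatFunc K) Ω] [IsGalois (RatFunc K) Ω]
  [Fintype ι] (d : Dat K Ω ι)
  {k : Type} [Field k] [CharZero k] [Algebra K k]

/-- The coefficients of the degenerate family. -/
def cS (c : ι ⊕ Unit → k) : Option ι → k := fun o => o.elim 0 (fun i => c (Sum.inl i))

/-- The coefficients of the deformation. -/
noncomputable def cX (c : ι ⊕ Unit → k) : Option ι → PowerSeries k :=
  fun o => o.elim PowerSeries.X (fun i => PowerSeries.C (c (Sum.inl i)))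

theorem cc_cX (c : ι ⊕ Unit → k) (o : Option ι) :
    PowerSeries.constantCoeff (cX c o) = cS c o := by
  rcases o with _ | i
  · exact PowerSeries.constantCoeff_X
  · exact PowerSeries.constantCoeff_C _

theorem kc_cS (c : ι ⊕ Unit → k) (Φ : Ω →ₐ[K] k) :
    d.kc (cS c) Φ = (d.hp' (cS c)).eval (Φ (xx K Ω)) := by
  unfold kc
  have h1 : (cS c) none = (0 : k) := rfl
  rw [h1, zero_mul, add_zero]

theorem BF_cS (c : ι ⊕ Unit → k) (Φ : Ω →ₐ[K] k) :
    d.BF (cS c) (cS c) Φ = (d.SS (cS c)).eval (Φ (xx K Ω)) := by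
  unfold BF SS
  have h1 : (cS c) none = (0 : k) := rfl
  rw [h1]
  simp

/-- Lifting of a point of the degenerate family. -/
theorem lift_pt (hl : K3h17.St_lift) (c : ι ⊕ Unit → k) (Φ : Ω →ₐ[K] k)
    (hΦ : (d.SS (cS c)).eval (Φ (xx K Ω)) = c (Sum.inr ()))
    (hne : (d.hp' (cS c)).eval (Φ (xx K Ω)) ≠ 0) :
    ∃ Ψ : Ω →ₐ[K] PowerSeries k, (∀ z, PowerSeries.constantCoeff (Ψ z) = Φ z) ∧
      d.BF (cX c) (cX c) Ψ = PowerSeries.C (c (Sum.inr ())) := by
  classical
  have hδ : ∀ z, d.δ.restrictScalars ℤ z = d.δ z := fun z => rfl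
  obtain ⟨Ψ, h1, h2, h3⟩ := hl Ω k (Option ι × Option ι) (d.δ.restrictScalars ℤ)
    (Φ : Ω →+* k) (fun q => cX c q.1 * cX c q.2) (fun q => d.Bb q.1 q.2) (c (Sum.inr ())) (by
      rw [← hΦ, ← BF_cS, BF_expand]
      refine Finset.sum_congr rfl fun q _ => ?_
      rw [map_mul, cc_cX, cc_cX]
      rfl) (by
      have h4 : ∑ q : Option ι × Option ι, PowerSeries.constantCoeff (cX c q.1 * cX c q.2) *
          (Φ : Ω →+* k) (d.δ.restrictScalars ℤ (d.Bb q.1 q.2)) =
          d.kc (cS c) Φ * d.kc (cS c) Φ := by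
        rw [kc_expand, Finset.sum_mul_sum, Fintype.sum_prod_type]
        refine Finset.sum_congr rfl fun o _ => Finset.sum_congr rfl fun o' _ => ?_
        change _ * Φ (d.δ (d.Bb o o')) = _
        rw [δ_Bb, map_mul, map_mul, cc_cX, cc_cX]
        ring
      rw [h4, kc_cS]
      exact mul_ne_zero hne hne)
  have h5 : ∀ a : K, Ψ (algebraMap K Ω a) = algebraMap K (PowerSeries k) a := by
    intro a
    rw [h2 _ (Derivation.map_algebraMap d.δ a)]
    change PowerSeries.C (Φ (algebraMap K Ω a)) = _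
    rw [Φ.commutes, PowerSeries.algebraMap_apply]
  let Ψ' : Ω →ₐ[K] PowerSeries k := { Ψ with commutes' := h5 }
  refine ⟨Ψ', h1, ?_⟩
  rw [BF_expand]
  exact h3

end lift

end Dat

end Pool.Agent.K3h17.T
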