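import Mathlib
import Pool.Agent.K3h17.T.Fj

set_option autoImplicit false
set_option linter.unusedSectionVars false
set_option linter.unusedSimpArgs false

namespace Pool.Agent.K3h17.T

open Polynomial Pool.Agent.H391R2 Pool.Agent.Y793

/-- An algebraically closed field containing the power series ring to which the coefficientwise
automorphisms extend. -/
structure Big (K₀ k E : Type) [Field K₀] [Field k] [Algebra K₀ k] [Field E] [Algebra K₀ E]
    (j : PowerSeries k →ₐ[K₀] E) : Prop where
  inj : Function.Injective j
  ext : ∀ σ₀ : k ≃+* k, ∃ σ : E ≃+* E, ∀ f, σ (j f) = j (PowerSeries.map (σ₀ : k →+* k) f)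
  alg : ∀ z : E, ∃ p : Polynomial (PowerSeries k), p ≠ 0 ∧ (p.map (j : _ →+* E)).eval z = 0

theorem exists_big (K₀ k : Type) [Field K₀] [Field k] [Algebra K₀ k] :
    ∃ (E : Type) (_ : Field E) (_ : IsAlgClosed E) (_ : Algebra K₀ E)
      (j : PowerSeries k →ₐ[K₀] E), Big K₀ k E j := by
  let R := PowerSeries k
  let Q := FractionRing R
  let E := AlgebraicClosure Q
  let i1 : Algebra K₀ E := (((algebraMap Q E).comp (algebraMap R Q)).comp
    (algebraMap K₀ R)).toAlgebra
  let j : R →ₐ[K₀] E := { ((algebraMap Q E).comp (algebraMap R Q)) with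
    commutes' := fun _ => rfl }
  refine ⟨E, inferInstance, inferInstance, i1, j, ?_, ?_, ?_⟩
  · exact (algebraMap Q E).injective.comp (IsFractionRing.injective R Q)
  · intro σ₀
    let e₁ : R ≃+* R :=
      { PowerSeries.map (σ₀ : k →+* k) with
        invFun := PowerSeries.map (σ₀.symm : k →+* k)
        left_inv := fun f => by
          ext n
          change PowerSeries.coeff n (PowerSeries.map (σ₀.symm : k →+* k)
            (PowerSeries.map (σ₀ : k →+* k) f)) = _
          rw [PowerSeries.coeff_map, PowerSeries.coeff_map]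
          exact σ₀.symm_apply_apply _
        right_inv := fun f => by
          ext n
          change PowerSeries.coeff n (PowerSeries.map (σ₀ : k →+* k)
            (PowerSeries.map (σ₀.symm : k →+* k) f)) = _
          rw [PowerSeries.coeff_map, PowerSeries.coeff_map]
          exact σ₀.apply_symm_apply _ }
    let e₂ : Q ≃+* Q := IsFractionRing.ringEquivOfRingEquiv e₁
    refine ⟨IsAlgClosure.equivOfEquiv E E e₂, fun f => ?_⟩
    change IsAlgClosure.equivOfEquiv E E e₂ (algebraMap Q E (algebraMap R Q f)) =
      algebraMap Q E (algebraMap R Q (e₁ f))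
    rw [IsAlgClosure.equivOfEquiv_algebraMap]
    congr 1
    exact IsFractionRing.ringEquivOfRingEquiv_algebraMap e₁ f
  · intro z
    have h1 : IsAlgebraic Q z := Algebra.IsAlgebraic.isAlgebraic z
    have h2 : IsAlgebraic R z := (IsFractionRing.isAlgebraic_iff R Q E).2 h1
    obtain ⟨p, hp, hp0⟩ := h2
    refine ⟨p, hp, ?_⟩
    rw [eval_map]
    exact hp0

section indep

variable {K₀ k E : Type} [Field K₀] [Field k] [Algebra K₀ k] [Field E] [Algebra K₀ E]
  {j : PowerSeries k →ₐ[K₀] E}

/-- The parameters in the big field. -/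
noncomputable def ηE {ι : Type} (j : PowerSeries k →ₐ[K₀] E) (c : ι ⊕ Unit → k) :
    Option ι ⊕ Unit → E :=
  Sum.elim (fun o => o.elim (j PowerSeries.X) (fun i => j (PowerSeries.C (c (Sum.inl i)))))
    (fun _ => j (PowerSeries.C (c (Sum.inr ()))))

theorem X_trans (h : Big K₀ k E j) {p : k[X]}
    (hp : (p.map ((j : PowerSeries k →+* E).comp PowerSeries.C)).eval (j PowerSeries.X) = 0) :
    p = 0 := by
  rw [eval_map] at hp
  have h1 := Polynomial.hom_eval₂ p (PowerSeries.C : k →+* PowerSeries k)
    (j : PowerSeries k →+* E) PowerSeries.X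
  rw [Polynomial.eval₂_C_X_eq_coe] at h1
  have h2 : (j : PowerSeries k →+* E) (p : PowerSeries k) = 0 := h1.trans hp
  have h3 : (p : PowerSeries k) = 0 := h.inj (h2.trans (map_zero j).symm)
  exact Polynomial.coe_eq_zero_iff.1 h3

theorem ηE_indep {ι : Type} (h : Big K₀ k E j) (c : ι ⊕ Unit → k)
    (hc : AlgebraicIndependent K₀ c) : AlgebraicIndependent K₀ (ηE j c) := by
  let i1 : Algebra k E := ((j : PowerSeries k →+* E).comp PowerSeries.C).toAlgebra
  have i2 : IsScalarTower K₀ k E := .of_algebraMap_eq fun x => by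
    change algebraMap K₀ E x = j (PowerSeries.C (algebraMap K₀ k x))
    rw [← j.commutes x, PowerSeries.algebraMap_apply]
  have h1 : AlgebraicIndependent k (fun _ : Unit => j PowerSeries.X) := by
    rw [algebraicIndependent_unique_type_iff, transcendental_iff]
    intro p hp
    refine X_trans h ?_
    rw [eval_map]
    exact hp
  have h2 := AlgebraicIndependent.sumElim_comp hc h1
  let e : Option ι ⊕ Unit → Unit ⊕ (ι ⊕ Unit) :=
    Sum.elim (fun o => o.elim (Sum.inl ()) (fun i => Sum.inr (Sum.inl i)))
      (fun _ => Sum.inr (Sum.inr ()))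
  have he : Function.Injective e := by
    rintro ((_ | a) | a) ((_ | b) | b) hab
    · rfl
    · exact absurd hab (by simp [e])
    · exact absurd hab (by simp [e])
    · exact absurd hab (by simp [e])
    · have h3 : a = b := by simpa [e] using hab
      rw [h3]
    · exact absurd hab (by simp [e])
    · exact absurd hab (by simp [e])
    · exact absurd hab (by simp [e])
    · rfl
  have h3 := h2.comp e he
  have h4 : Sum.elim (fun _ : Unit => j PowerSeries.X) (algebraMap k E ∘ c) ∘ e = ηE j c := by
    funext i
    rcases i with (_ | a) | a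
    · rfl
    · rfl
    · rfl
  rw [h4] at h3
  exact h3

end indep

end Pool.Agent.K3h17.T
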