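import Mathlib
import Pool.Agent.K3h17.T.Fl

set_option autoImplicit false
set_option linter.unusedSectionVars false
set_option linter.unusedSimpArgs false

namespace Pool.Agent.K3h17.T

open Polynomial Pool.Agent.H391R2 Pool.Agent.Y793

namespace Dat

section L

variable {K Ω ι : Type} [Field K] [CharZero K] [Field Ω] [Algebra (RatFunc K) Ω] [Algebra K Ω]
  [IsScalarTower K (RatFunc K) Ω] [FiniteDimensional (RatFunc K) Ω] [IsGalois (RatFunc K) Ω]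
  [Fintype ι] (d : Dat K Ω ι)
variable {K₀ N : Type} [Field K₀] [Algebra K K₀] [Field N] [IsAlgClosed N] [Algebra K₀ N]
  [Algebra K N] [IsScalarTower K K₀ N] (η : Iy ι → N) (hη : IsTranscendenceBasis K₀ η)
variable {k : Type} [Field k] [IsAlgClosed k] [CharZero k] [Algebra K₀ k]
  [Algebra K k] [IsScalarTower K K₀ k] (c : ι ⊕ Unit → k) (hc : AlgebraicIndependent K₀ c)
variable {E : Type} [Field E] [IsAlgClosed E] [Algebra K₀ E] [Algebra K E]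
  [IsScalarTower K K₀ E] {j₂ : PowerSeries k →ₐ[K₀] E} (hB : Big K₀ k E j₂)
  (j : N →ₐ[K₀] E) (hj : ∀ i, j (η i) = ηE j₂ c i)

/-- The inclusion as a morphism over `K`. -/
noncomputable def jK (j₂ : PowerSeries k →ₐ[K₀] E) : PowerSeries k →ₐ[K] E :=
  { (j₂ : PowerSeries k →+* E) with
    commutes' := fun a => by
      have h1 := j₂.commutes (algebraMap K K₀ a)
      rw [PowerSeries.algebraMap_apply, ← IsScalarTower.algebraMap_apply,
        ← IsScalarTower.algebraMap_apply] at h1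
      change j₂ (algebraMap K (PowerSeries k) a) = _
      rw [PowerSeries.algebraMap_apply]
      exact h1 }

theorem jK_apply (f : PowerSeries k) : (jK j₂ : PowerSeries k →ₐ[K] E) f = j₂ f := rfl

theorem ηE_inl (o : Option ι) : ηE j₂ c (Sum.inl o) = j₂ (cX c o) := by
  rcases o with _ | i
  · rfl
  · rfl

include hη hj

theorem desc_lift (Ψ : Ω →ₐ[K] PowerSeries k)
    (h : d.BF (cX c) (cX c) Ψ = PowerSeries.C (c (Sum.inr ()))) :
    ∃ φ : Ω →ₐ[K] N, (∀ z, j (φ z) = j₂ (Ψ z)) ∧ d.Pt η φ := by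
  obtain ⟨φ, h1, h2⟩ := d.descend η hη j ((jK j₂ : PowerSeries k →ₐ[K] E).comp Ψ) (by
    have h3 := d.BF_map (jK j₂ : PowerSeries k →ₐ[K] E) (cX c) (cX c) Ψ
    rw [h] at h3
    have h4 : (fun i => j (η (Sum.inl i))) =
        fun i => (jK j₂ : PowerSeries k →ₐ[K] E) (cX c i) := by
      funext o
      rw [hj, ηE_inl]
      rfl
    rw [h4, ← h3, hj]
    rfl)
  exact ⟨φ, h1, h2⟩

include hc hB

/-- The lifts of the points of the degenerate family. -/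
theorem exists_lifts (hl : K3h17.St_lift) (Φ : Ω →ₐ[K] k) (hΦ : d.SPt c Φ) :
    ∃ (Ψ : Ω →ₐ[K] PowerSeries k) (φ : Ω →ₐ[K] N),
      (∀ z, PowerSeries.constantCoeff (Ψ z) = Φ z) ∧ (∀ z, j (φ z) = j₂ (Ψ z)) ∧ d.Pt η φ := by
  obtain ⟨Ψ, h1, h2⟩ := d.lift_pt hl c Φ hΦ (d.hp_ne c hc hΦ)
  obtain ⟨φ, h3, h4⟩ := d.desc_lift η hη c j hj Ψ h2
  exact ⟨Ψ, φ, h1, h3, h4⟩

/-- The complete family of lifts. -/
theorem exists_fam (hgen : Y793.St_gen) (hiso : Y793.St_iso) (hl : K3h17.St_lift) :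
    ∃ (φ : Fin (d.m * (2 * d.k + 1)) → (Ω →ₐ[K] N))
      (Ψ : Fin (d.m * (2 * d.k + 1)) → (Ω →ₐ[K] PowerSeries k))
      (Φ : Fin (d.m * (2 * d.k + 1)) → (Ω →ₐ[K] k)),
      d.Sy η _ φ ∧ (∀ i z, j (φ i z) = j₂ (Ψ i z)) ∧
      (∀ i z, PowerSeries.constantCoeff (Ψ i z) = Φ i z) ∧ (∀ i, d.SPt c (Φ i)) ∧
      ∀ i i', ∀ γ ∈ d.P, (∀ z, Φ i z = Φ i' (γ z)) → i = i' := by
  obtain ⟨Φ, h1, h2⟩ := d.exists_SPt c hc
  have hex := fun i => d.exists_lifts η hη c hc hB j hj hl (Φ i) (h1 i)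
  choose Ψ φ h3 h4 h5 using hex
  refine ⟨φ, Ψ, Φ, d.sy_of η hη hgen hiso φ h5 fun i i' γ hγ h => ?_, h4, h3, h1, h2⟩
  refine h2 i i' γ hγ fun z => ?_
  rw [← h3, ← h3]
  congr 1
  apply hB.inj
  rw [← h4, ← h4, h]

/-- LEMMA L: the degenerate family and the given complete family. -/
theorem lemL (hgen : Y793.St_gen) (hiso : Y793.St_iso) (hl : K3h17.St_lift)
    (φ : Fin (d.m * (2 * d.k + 1)) → (Ω →ₐ[K] N)) (S : d.Sy η _ φ) :
    ∃ (Φ : Fin (d.m * (2 * d.k + 1)) → (Ω →ₐ[K] k)), (∀ i, d.SPt c (Φ i)) ∧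
      (∀ i i', ∀ γ ∈ d.P, (∀ z, Φ i z = Φ i' (γ z)) → i = i') ∧
      (∀ Φ', d.SPt c Φ' → ∃ i, ∃ γ ∈ d.P, ∀ z, Φ' z = Φ i (γ z)) ∧
      ∀ (σ₀ : k ≃+* k), (∀ a : K₀, σ₀ (algebraMap K₀ k a) = algebraMap K₀ k a) →
        (∀ i, σ₀ (c i) = c i) → ∀ (π : Equiv.Perm (Fin (d.m * (2 * d.k + 1))))
        (γ : Fin (d.m * (2 * d.k + 1)) → d.P),
        (∀ i z, σ₀ (Φ i z) = Φ (π i) ((γ i : Ω ≃ₐ[RatFunc K] Ω) z)) →
        ∃ σ : N ≃ₐ[K₀] N, (∀ i, σ (η i) = η i) ∧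
          ∀ i z, σ (φ i z) = φ (π i) ((γ i : Ω ≃ₐ[RatFunc K] Ω) z) := by
  obtain ⟨φ', Ψ', Φ', S', h1, h2, h3, h4⟩ := d.exists_fam η hη c hc hB j hj hgen hiso hl
  have hex := fun i => S'.ex (φ i) (S.pt i)
  choose a γ₀ hγ₀ ha using hex
  let Ψ : Fin (d.m * (2 * d.k + 1)) → (Ω →ₐ[K] PowerSeries k) := fun i =>
    (Ψ' (a i)).comp ((γ₀ i : Ω →ₐ[RatFunc K] Ω).restrictScalars K)
  let Φ : Fin (d.m * (2 * d.k + 1)) → (Ω →ₐ[K] k) := fun i =>
    (Φ' (a i)).comp ((γ₀ i : Ω →ₐ[RatFunc K] Ω).restrictScalars K)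
  have e1 : ∀ i z, j (φ i z) = j₂ (Ψ i z) := by
    intro i z
    rw [ha, h1]
    rfl
  have e2 : ∀ i z, PowerSeries.constantCoeff (Ψ i z) = Φ i z := fun i z => h2 (a i) (γ₀ i z)
  have e3 : ∀ i, d.SPt c (Φ i) := by
    intro i
    have h5 := h3 (a i)
    unfold SPt at h5 ⊢
    have h6 : Φ i (xx K Ω) = Φ' (a i) (xx K Ω) := by
      change Φ' (a i) (γ₀ i (xx K Ω)) = _
      rw [xx, AlgEquiv.commutes]
    rw [h6]
    exact h5
  have e4 : ∀ i i', ∀ γ ∈ d.P, (∀ z, Φ i z = Φ i' (γ z)) → i = i' := by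
    intro i i' γ hγ h
    have h5 : a i = a i' := by
      refine h4 (a i) (a i') (γ₀ i' * γ * (γ₀ i)⁻¹)
        (mul_mem (mul_mem (hγ₀ i') hγ) (inv_mem (hγ₀ i))) fun z => ?_
      have h6 := h ((γ₀ i)⁻¹ z)
      change Φ' (a i) (γ₀ i ((γ₀ i)⁻¹ z)) = Φ' (a i') (γ₀ i' (γ ((γ₀ i)⁻¹ z))) at h6
      have h7 : γ₀ i ((γ₀ i)⁻¹ z) = z := (γ₀ i).apply_symm_apply z
      rw [h7] at h6
      exact h6
    refine S.ne i i' ((γ₀ i')⁻¹ * γ₀ i) (mul_mem (inv_mem (hγ₀ i')) (hγ₀ i)) fun z => ?_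
    rw [ha, ha, h5]
    congr 1
    exact ((γ₀ i').apply_symm_apply (γ₀ i z)).symm
  have e5 : ∀ Ψ'' : Ω →ₐ[K] PowerSeries k,
      d.BF (cX c) (cX c) Ψ'' = PowerSeries.C (c (Sum.inr ())) →
      ∃ i, ∃ γ ∈ d.P, ∀ z, Ψ'' z = Ψ i (γ z) := by
    intro Ψ'' hΨ''
    obtain ⟨φ'', h5, h6⟩ := d.desc_lift η hη c j hj Ψ'' hΨ''
    obtain ⟨i, γ, hγ, h7⟩ := S.ex φ'' h6
    refine ⟨i, γ, hγ, fun z => ?_⟩
    apply hB.inj
    rw [← h5, h7, e1]
  refine ⟨Φ, e3, e4, ?_, ?_⟩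
  · intro Φ'' hΦ''
    obtain ⟨Ψ'', h5, h6⟩ := d.lift_pt hl c Φ'' hΦ'' (d.hp_ne c hc hΦ'')
    obtain ⟨i, γ, hγ, h7⟩ := e5 Ψ'' h6
    refine ⟨i, γ, hγ, fun z => ?_⟩
    rw [← h5, h7, e2]
  · intro σ₀ hσK hσc π γ hσ
    obtain ⟨σ, hσ2⟩ := hB.ext σ₀
    have hσK' : ∀ a : K₀, σ (algebraMap K₀ E a) = algebraMap K₀ E a := by
      intro a
      rw [← j₂.commutes, hσ2, PowerSeries.algebraMap_apply, PowerSeries.map_C]
      congr 2
      exact hσK a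
    let σE : E ≃ₐ[K₀] E := AlgEquiv.ofRingEquiv (f := σ) hσK'
    have hσX : ∀ o, PowerSeries.map (σ₀ : k →+* k) (cX c o) = cX c o := by
      intro o
      rcases o with _ | i
      · exact PowerSeries.map_X _
      · change PowerSeries.map (σ₀ : k →+* k) (PowerSeries.C _) = PowerSeries.C _
        rw [PowerSeries.map_C]
        congr 1
        exact hσc _
    have hσT : PowerSeries.map (σ₀ : k →+* k) (PowerSeries.C (c (Sum.inr ()))) =
        PowerSeries.C (c (Sum.inr ())) := by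
      rw [PowerSeries.map_C]
      congr 1
      exact hσc _
    have hση : ∀ i, σE (j (η i)) = j (η i) := by
      intro i
      rw [hj]
      rcases i with o | u
      · rw [ηE_inl]
        change σ _ = _
        rw [hσ2, hσX]
      · change σ (j₂ (PowerSeries.C (c (Sum.inr ())))) = j₂ (PowerSeries.C (c (Sum.inr ())))
        rw [hσ2, hσT]
    obtain ⟨τ, hτ, hτη⟩ := restrict_aut j η hη σE hση
    refine ⟨τ, hτη, fun i z => ?_⟩
    -- the lifts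
    let m : PowerSeries k →ₐ[K] PowerSeries k :=
      { PowerSeries.map (σ₀ : k →+* k) with
        commutes' := fun b => by
          change PowerSeries.map (σ₀ : k →+* k) (algebraMap K (PowerSeries k) b) = _
          rw [PowerSeries.algebraMap_apply, PowerSeries.map_C]
          congr 1
          rw [IsScalarTower.algebraMap_apply K K₀ k]
          exact hσK _ }
    have hm : ∀ f, m f = PowerSeries.map (σ₀ : k →+* k) f := fun f => rfl
    have hpt : d.BF (cX c) (cX c) (m.comp (Ψ i)) = PowerSeries.C (c (Sum.inr ())) := by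
      have h5 : d.BF (cX c) (cX c) (Ψ i) = PowerSeries.C (c (Sum.inr ())) := by
        apply hB.inj
        have h6 := d.BF_map (jK j₂ : PowerSeries k →ₐ[K] E) (cX c) (cX c) (Ψ i)
        change j₂ _ = _ at h6
        rw [h6]
        have h7 := d.BF_map (j.restrictScalars K) (fun i => η (Sum.inl i))
          (fun i => η (Sum.inl i)) (φ i)
        have h8 : d.BF (fun i => η (Sum.inl i)) (fun i => η (Sum.inl i)) (φ i) =
          η (Sum.inr ()) := S.pt i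
        rw [h8] at h7
        have h9 : (j.restrictScalars K).comp (φ i) = (jK j₂ : PowerSeries k →ₐ[K] E).comp (Ψ i) :=
          AlgHom.ext (e1 i)
        rw [h9] at h7
        have h10 : (fun i => (j.restrictScalars K) (η (Sum.inl i))) =
            fun i => (jK j₂ : PowerSeries k →ₐ[K] E) (cX c i) := by
          funext o
          change j (η (Sum.inl o)) = _
          rw [hj, ηE_inl]
          rfl
        rw [h10] at h7
        rw [← h7]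
        change j (η (Sum.inr ())) = _
        rw [hj]
        rfl
      have h6 := d.BF_map m (cX c) (cX c) (Ψ i)
      rw [h5] at h6
      have h7 : (fun o => m (cX c o)) = cX c := funext fun o => hσX o
      rw [h7] at h6
      rw [← h6]
      exact hσT
    obtain ⟨i', γ', hγ', h5⟩ := e5 _ hpt
    have h6 : ∀ z, Φ (π i) ((γ i : Ω ≃ₐ[RatFunc K] Ω) z) = Φ i' (γ' z) := by
      intro z
      rw [← hσ, ← e2, ← e2, ← h5]
      change _ = PowerSeries.constantCoeff (PowerSeries.map (σ₀ : k →+* k) (Ψ i z))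
      rw [← PowerSeries.coeff_zero_eq_constantCoeff_apply,
        ← PowerSeries.coeff_zero_eq_constantCoeff_apply, PowerSeries.coeff_map]
      rfl
    have h7 : π i = i' := by
      refine e4 (π i) i' (γ' * (γ i : Ω ≃ₐ[RatFunc K] Ω)⁻¹)
        (mul_mem hγ' (inv_mem (γ i).2)) fun z => ?_
      have h8 := h6 ((γ i : Ω ≃ₐ[RatFunc K] Ω)⁻¹ z)
      have h9 : (γ i : Ω ≃ₐ[RatFunc K] Ω) ((γ i : Ω ≃ₐ[RatFunc K] Ω)⁻¹ z) = z :=
        (γ i : Ω ≃ₐ[RatFunc K] Ω).apply_symm_apply z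
      rw [h9] at h8
      exact h8
    have h8 : ∀ z, (γ i : Ω ≃ₐ[RatFunc K] Ω) z = γ' z := by
      intro z
      apply (Φ i').injective
      have h9 := h6 z
      rw [h7] at h9
      exact h9
    apply j.injective
    change j (τ (φ i z)) = j (φ (π i) ((γ i : Ω ≃ₐ[RatFunc K] Ω) z))
    rw [hτ, e1 (π i)]
    change σ (j (φ i z)) = _
    rw [e1, hσ2, h8, h7, ← h5]
    rfl

end L

section ex

variable {K Ω ι : Type} [Field K] [CharZero K] [Field Ω] [Algebra (RatFunc K) Ω] [Algebra K Ω]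
  [IsScalarTower K (RatFunc K) Ω] [FiniteDimensional (RatFunc K) Ω] [IsGalois (RatFunc K) Ω]
  [Fintype ι] (d : Dat K Ω ι)
variable {K₀ N : Type} [Field K₀] [Algebra K K₀] [Field N] [IsAlgClosed N] [Algebra K₀ N]
  [Algebra K N] [IsScalarTower K K₀ N] (η : Iy ι → N) (hη : IsTranscendenceBasis K₀ η)
variable {k : Type} [Field k] [IsAlgClosed k] [CharZero k] [Algebra K₀ k]
  [Algebra K k] [IsScalarTower K K₀ k] (c : ι ⊕ Unit → k) (hc : AlgebraicIndependent K₀ c)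

include hη hc

/-- The setup for the big field. -/
theorem exists_setup : ∃ (E : Type) (_ : Field E) (_ : IsAlgClosed E) (_ : Algebra K₀ E)
    (_ : Algebra K E) (_ : IsScalarTower K K₀ E) (j₂ : PowerSeries k →ₐ[K₀] E)
    (j : N →ₐ[K₀] E), Big K₀ k E j₂ ∧ ∀ i, j (η i) = ηE j₂ c i := by
  obtain ⟨E, i1, i2, i3, j₂, hB⟩ := exists_big K₀ k
  obtain ⟨j, hj⟩ := Pool.Agent.H391R2.T4.lift_family η hη (ηE j₂ c) (ηE_indep hB c hc)
  let i4 : Algebra K E := ((algebraMap K₀ E).comp (algebraMap K K₀)).toAlgebra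
  exact ⟨E, i1, i2, i3, i4, .of_algebraMap_eq fun _ => rfl, j₂, j, hB, hj⟩

/-- Existence of a complete family of points. -/
theorem exists_sy (hgen : Y793.St_gen) (hiso : Y793.St_iso) (hl : K3h17.St_lift) :
    ∃ φ : Fin (d.m * (2 * d.k + 1)) → (Ω →ₐ[K] N), d.Sy η _ φ := by
  obtain ⟨E, i1, i2, i3, i4, i5, j₂, j, hB, hj⟩ := exists_setup (K := K) η hη c hc
  obtain ⟨φ, Ψ, Φ, h, -⟩ := d.exists_fam η hη c hc hB j hj hgen hiso hl
  exact ⟨φ, h⟩

/-- LEMMA L in the final form. -/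
theorem lemL' (hgen : Y793.St_gen) (hiso : Y793.St_iso) (hl : K3h17.St_lift)
    (φ : Fin (d.m * (2 * d.k + 1)) → (Ω →ₐ[K] N)) (S : d.Sy η _ φ) :
    ∃ (Φ : Fin (d.m * (2 * d.k + 1)) → (Ω →ₐ[K] k)), (∀ i, d.SPt c (Φ i)) ∧
      (∀ i i', ∀ γ ∈ d.P, (∀ z, Φ i z = Φ i' (γ z)) → i = i') ∧
      (∀ Φ', d.SPt c Φ' → ∃ i, ∃ γ ∈ d.P, ∀ z, Φ' z = Φ i (γ z)) ∧
      ∀ (σ₀ : k ≃+* k), (∀ a : K₀, σ₀ (algebraMap K₀ k a) = algebraMap K₀ k a) →
        (∀ i, σ₀ (c i) = c i) → ∀ (π : Equiv.Perm (Fin (d.m * (2 * d.k + 1))))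
        (γ : Fin (d.m * (2 * d.k + 1)) → d.P),
        (∀ i z, σ₀ (Φ i z) = Φ (π i) ((γ i : Ω ≃ₐ[RatFunc K] Ω) z)) →
        ∃ σ : N ≃ₐ[K₀] N, (∀ i, σ (η i) = η i) ∧
          ∀ i z, σ (φ i z) = φ (π i) ((γ i : Ω ≃ₐ[RatFunc K] Ω) z) := by
  obtain ⟨E, i1, i2, i3, i4, i5, j₂, j, hB, hj⟩ := exists_setup (K := K) η hη c hc
  exact d.lemL η hη c hc hB j hj hgen hiso hl φ S

end ex

end Dat

end Pool.Agent.K3h17.T
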