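import Mathlib
import Pool.Agent.K3h17.T.Fm
import Pool.Agent.Y793.Tc

set_option autoImplicit false
set_option linter.unusedSectionVars false
set_option linter.unusedSimpArgs false

namespace Pool.Agent.K3h17.T

open Polynomial Pool.Agent.H391R2 Pool.Agent.Y793

namespace Dat

section fix

variable {K Ω ι : Type} [Field K] [Field Ω] [Algebra (RatFunc K) Ω] [Algebra K Ω]
  [IsScalarTower K (RatFunc K) Ω] [Fintype ι] (d : Dat K Ω ι) {N : Type} [Field N] [Algebra K N]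

theorem fix_aev (γ : Ω ≃ₐ[RatFunc K] Ω) (q : K[X]) :
    γ (aeval (xx K Ω) q) = aeval (xx K Ω) q := by
  have h3 : ∀ q : K[X], aeval (xx K Ω) q = algebraMap (RatFunc K) Ω (algebraMap K[X] _ q) :=
    fun q => (xpoly (AlgHom.id K Ω) q).symm
  rw [h3, γ.commutes]

theorem fix_of (γ : Ω ≃ₐ[RatFunc K] Ω) (hγ : γ ∈ d.P) (z : Ω) (a : Fin d.m → Fin d.m → K[X])
    (h : ∀ r, z * d.e r = aeval (xx K Ω) (d.D r) * ∑ s, aeval (xx K Ω) (a r s) * d.e s) :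
    γ z = z := by
  obtain ⟨r, hr⟩ := d.exists_e_ne
  have h1 : γ (z * d.e r) = z * d.e r := by
    rw [h, map_mul, map_sum, fix_aev]
    congr 1
    refine Finset.sum_congr rfl fun s _ => ?_
    rw [map_mul, fix_aev, d.he s γ hγ]
  rw [map_mul, d.he r γ hγ] at h1
  exact mul_right_cancel₀ hr h1

theorem fixW (γ : Ω ≃ₐ[RatFunc K] Ω) (hγ : γ ∈ d.P) (i : ι) : γ (d.W i) = d.W i :=
  d.fix_of γ hγ _ _ (d.haW i)

theorem fixH (γ : Ω ≃ₐ[RatFunc K] Ω) (hγ : γ ∈ d.P) : γ d.H = d.H :=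
  d.fix_of γ hγ _ _ d.haH

/-- The embedding `φ ∘ γ`. -/
noncomputable def cg (φ : Ω →ₐ[K] N) (γ : Ω ≃ₐ[RatFunc K] Ω) : Ω →ₐ[K] N :=
  φ.comp ((γ : Ω →ₐ[RatFunc K] Ω).restrictScalars K)

theorem BF_cg (v v' : Option ι → N) (φ : Ω →ₐ[K] N) (γ : Ω ≃ₐ[RatFunc K] Ω) (hγ : γ ∈ d.P) :
    d.BF v v' (cg φ γ) = d.BF v v' φ := by
  unfold BF
  have h1 : cg φ γ (xx K Ω) = φ (xx K Ω) := by
    change φ (γ (xx K Ω)) = _
    rw [xx, γ.commutes]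
  have h2 : ∀ i, cg φ γ (d.W i) = φ (d.W i) := fun i => congrArg φ (d.fixW γ hγ i)
  have h3 : cg φ γ d.H = φ d.H := congrArg φ (d.fixH γ hγ)
  simp only [h1, h2, h3]

end fix

section HH

variable {K Ω ι : Type} [Field K] [CharZero K] [Field Ω] [Algebra (RatFunc K) Ω] [Algebra K Ω]
  [IsScalarTower K (RatFunc K) Ω] [FiniteDimensional (RatFunc K) Ω] [IsGalois (RatFunc K) Ω]
  [Fintype ι] (d : Dat K Ω ι)
variable {K₀ N : Type} [Field K₀] [Algebra K K₀] [Field N] [IsAlgClosed N] [Algebra K₀ N]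
  [Algebra K N] [IsScalarTower K K₀ N] (η : Iy ι → N) (hη : IsTranscendenceBasis K₀ η)

/-- The group of the automorphisms over `K₀`. -/
def HH (η : Iy ι → N) (P : Subgroup (Ω ≃ₐ[RatFunc K] Ω)) {n : ℕ}
    (φ : Fin n → (Ω →ₐ[K] N)) (K₀ : Type) [Field K₀] [Algebra K₀ N] : Subgroup (Wr P n) where
  carrier := {x | ∃ σ : N ≃ₐ[K₀] N, (∀ i, σ (η i) = η i) ∧ Rx φ σ x}
  one_mem' := ⟨1, fun _ => rfl, Rx.one⟩
  mul_mem' := by
    rintro x y ⟨σ, h1, h2⟩ ⟨τ, h3, h4⟩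
    refine ⟨σ * τ, fun i => ?_, h2.mul h4⟩
    change σ (τ (η i)) = η i
    rw [h3, h1]
  inv_mem' := by
    rintro x ⟨σ, h1, h2⟩
    refine ⟨σ⁻¹, fun i => ?_, h2.inv (fun a => σ.symm_apply_apply a)⟩
    change σ.symm (η i) = η i
    rw [AlgEquiv.symm_apply_eq, h1]

include hη

theorem HH_pair (hgen : Y793.St_gen) (hiso : Y793.St_iso) (hext : Y793.St_ext)
    (hstar : Y793.St_star)
    (hreg : ∀ y : Ω, IsAlgebraic K y → y ∈ Set.range (algebraMap K Ω)) {n : ℕ}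
    {φ : Fin n → (Ω →ₐ[K] N)} (S : d.Sy η n φ) (a b a' b' : Fin n) (hab : a ≠ b)
    (hab' : a' ≠ b') (g h : d.P) : ∃ x ∈ HH η d.P φ K₀,
      x.right a = a' ∧ x.right b = b' ∧ x.left a' = g ∧ x.left b' = h := by
  have hpt : ∀ (i : Fin n) (γ : d.P), d.Pt η (cg (φ i) γ) := by
    intro i γ
    unfold Pt
    rw [d.BF_cg _ _ _ _ γ.2]
    exact S.pt i
  have hne1 : d.Ne' (φ a) (φ b) := fun γ hγ h1 => hab (S.ne b a γ hγ h1).symm
  have hne2 : d.Ne' (cg (φ a') g) (cg (φ b') h) := by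
    intro γ hγ h1
    refine hab' (S.ne b' a' (g * γ * (h : Ω ≃ₐ[RatFunc K] Ω)⁻¹)
      (mul_mem (mul_mem g.2 hγ) (inv_mem h.2)) fun z => ?_).symm
    have h2 := h1 ((h : Ω ≃ₐ[RatFunc K] Ω)⁻¹ z)
    change φ b' ((h : Ω ≃ₐ[RatFunc K] Ω) ((h : Ω ≃ₐ[RatFunc K] Ω)⁻¹ z)) = _ at h2
    have h3 : (h : Ω ≃ₐ[RatFunc K] Ω) ((h : Ω ≃ₐ[RatFunc K] Ω)⁻¹ z) = z :=
      (h : Ω ≃ₐ[RatFunc K] Ω).apply_symm_apply z
    rw [h3] at h2
    exact h2
  obtain ⟨σ, h1, h5, h6⟩ := d.pair_trans hgen hiso hext hstar hreg η hη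
    (S.pt a) (S.pt b) (hpt a' g) (hpt b' h) hne1 hne2
  obtain ⟨x, hx⟩ := d.exists_x0 η S (σ.restrictScalars K) h1
  have key : ∀ (a a' : Fin n) (g : d.P), (∀ z, σ (φ a z) = cg (φ a') g z) →
      x.right a = a' ∧ x.left a' = g := by
    intro a a' g h2
    have h3 : ∀ z, φ a' ((g : Ω ≃ₐ[RatFunc K] Ω) z) =
        φ (x.right a) ((x.left (x.right a) : Ω ≃ₐ[RatFunc K] Ω) z) := by
      intro z
      rw [← hx a z]
      exact (h2 z).symm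
    have h4 : x.right a = a' := by
      refine S.ne (x.right a) a' (g * (x.left (x.right a) : Ω ≃ₐ[RatFunc K] Ω)⁻¹)
        (mul_mem g.2 (inv_mem (x.left (x.right a)).2)) fun z => ?_
      have h5 := h3 ((x.left (x.right a) : Ω ≃ₐ[RatFunc K] Ω)⁻¹ z)
      have h6 : (x.left (x.right a) : Ω ≃ₐ[RatFunc K] Ω)
          ((x.left (x.right a) : Ω ≃ₐ[RatFunc K] Ω)⁻¹ z) = z :=
        (x.left (x.right a) : Ω ≃ₐ[RatFunc K] Ω).apply_symm_apply z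
      rw [h6] at h5
      exact h5.symm
    refine ⟨h4, ?_⟩
    apply Subtype.ext
    apply AlgEquiv.ext
    intro z
    have h5 := h3 z
    rw [h4] at h5
    exact ((φ a').injective h5).symm
  obtain ⟨e1, e2⟩ := key a a' g h5
  obtain ⟨e3, e4⟩ := key b b' h h6
  exact ⟨x, ⟨σ, h1, hx⟩, e1, e3, e2, e4⟩

end HH

end Dat

end Pool.Agent.K3h17.T
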