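import Mathlib
import Pool.Agent.K3h17.T.Fn

set_option autoImplicit false
set_option linter.unusedSectionVars false
set_option linter.unusedSimpArgs false

namespace Pool.Agent.K3h17.T

open Polynomial Pool.Agent.H391R2 Pool.Agent.Y793

namespace Dat

section app

variable {K Ω ι : Type} [Field K] [CharZero K] [Field Ω] [Algebra (RatFunc K) Ω] [Algebra K Ω]
  [IsScalarTower K (RatFunc K) Ω] [FiniteDimensional (RatFunc K) Ω] [IsGalois (RatFunc K) Ω]
  [Fintype ι] (d : Dat K Ω ι)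
variable {K₀ N : Type} [Field K₀] [Algebra K K₀] [Field N] [IsAlgClosed N] [Algebra K₀ N]
  [Algebra K N] [IsScalarTower K K₀ N] (η : Iy ι → N) (hη : IsTranscendenceBasis K₀ η)

theorem hp_cS {k : Type} [Field k] [Algebra K k] (c : ι ⊕ Unit → k) :
    d.hp' (cS c) = ∑ i, C (c (Sum.inl i)) * (d.κ i).map (algebraMap K k) := by
  unfold hp' lk
  have h1 : (cS c) none = (0 : k) := rfl
  rw [h1, zero_mul, C_0, zero_mul, sub_zero]
  rfl

include hη

/-- The existence of the complete family of points. -/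
theorem ex_sy (hgen : Y793.St_gen) (hiso : Y793.St_iso) (hl : K3h17.St_lift) :
    ∃ φ : Fin (d.m * (2 * d.k + 1)) → (Ω →ₐ[K] N), d.Sy η _ φ := by
  obtain ⟨k, i1, i2, i3, b, hb⟩ := exists_trb K₀ (ι ⊕ Unit)
  let i4 : Algebra K k := ((algebraMap K₀ k).comp (algebraMap K K₀)).toAlgebra
  have i5 : IsScalarTower K K₀ k := .of_algebraMap_eq fun _ => rfl
  have i6 : CharZero k := charZero_of_injective_algebraMap (algebraMap K k).injective
  exact d.exists_sy η hη b hb.1 hgen hiso hl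

/-- The Kummer part. -/
theorem HH_kum (hgen : Y793.St_gen) (hiso : Y793.St_iso) (hl : K3h17.St_lift)
    (hkum : K3h17.St_kum) [IsAlgClosed K₀]
    (hreg : ∀ y : Ω, IsAlgebraic K y → y ∈ Set.range (algebraMap K Ω))
    (A : Type) [CommGroup A] [Finite A] (ψ : d.P →* A)
    [Fintype ((Ω ≃ₐ[RatFunc K] Ω) ⧸ d.P)]
    (hψ : ∀ a : A, ∃ (γ₀ : Ω ≃ₐ[RatFunc K] Ω) (h : ∀ g : Ω ≃ₐ[RatFunc K] Ω, g⁻¹ * γ₀ * g ∈ d.P),
      ∏ q : (Ω ≃ₐ[RatFunc K] Ω) ⧸ d.P, ψ ⟨q.out⁻¹ * γ₀ * q.out, h _⟩ = a)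
    {φ : Fin (d.m * (2 * d.k + 1)) → (Ω →ₐ[K] N)} (S : d.Sy η _ φ) (a : A) :
    ∃ x ∈ HH η d.P φ K₀, ∏ i, ψ (x.left i) = a := by
  classical
  obtain ⟨k, i1, i2, i3, b, hb⟩ := exists_trb K₀ (ι ⊕ Unit)
  let i4 : Algebra K k := ((algebraMap K₀ k).comp (algebraMap K K₀)).toAlgebra
  have i5 : IsScalarTower K K₀ k := .of_algebraMap_eq fun _ => rfl
  have i6 : CharZero k := charZero_of_injective_algebraMap (algebraMap K k).injective
  obtain ⟨Φ, h1, h2, h3, h4⟩ := d.lemL' η hη b hb.1 hgen hiso hl φ S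
  set F := cl K₀ (b '' (Set.range Sum.inl)) with hF
  have hFc : IsAlgClosed F := cl_isAlgClosed _
  have hcS := cS_mem b hb.1
  let cF : Option ι → F := fun o => ⟨cS b o, hcS o⟩
  have hSF : (d.SS cF).map (algebraMap F k) = d.SS (cS b) :=
    d.SS_map (IsScalarTower.toAlgHom K F k) cF
  have haev : ∀ z : k, aeval z (d.SS cF) = (d.SS (cS b)).eval z := by
    intro z
    rw [← hSF, eval_map_algebraMap]
  have hdeg : (d.SS cF).natDegree = 2 * d.k + 1 := by
    rw [← d.SS_deg (cS b) (d.c_ne b hb.1), ← hSF,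
      natDegree_map_eq_of_injective (algebraMap F k).injective]
  have hT : Transcendental F (b (Sum.inr ())) := by
    intro h5
    exact not_mem_cl hb.1 (s := Set.range Sum.inl) (i := Sum.inr ()) (by simp) (cl_closed h5)
  have hsep : ∀ ξ ξ' : K₀, (d.SS cF).eval (algebraMap K₀ F ξ) =
      (d.SS cF).eval (algebraMap K₀ F ξ') → ξ = ξ' := by
    intro ξ ξ' h5
    by_contra hne
    -- the form vanishes identically
    have hall : ∀ a : ι → K₀, (adr K ((∑ i, C (a i) * (d.κ i).map (algebraMap K K₀)) ^ 2)).eval ξ =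
        (adr K ((∑ i, C (a i) * (d.κ i).map (algebraMap K K₀)) ^ 2)).eval ξ' := by
      intro a
      let q : K₀ → MvPolynomial (ι ⊕ Unit) K₀ := fun ξ =>
        (adr K ((∑ i, C (MvPolynomial.X (Sum.inl i)) *
          (d.κ i).map (algebraMap K (MvPolynomial (ι ⊕ Unit) K₀))) ^ 2)).eval (MvPolynomial.C ξ)
      have hq : ∀ {R : Type} [CommRing R] [Algebra K₀ R] [Algebra K R] [IsScalarTower K K₀ R]
          (v : ι ⊕ Unit → R) (ξ : K₀), MvPolynomial.aeval v (q ξ) =
          (adr K ((∑ i, C (v (Sum.inl i)) * (d.κ i).map (algebraMap K R)) ^ 2)).eval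
            (algebraMap K₀ R ξ) := by
        intro R _ _ _ _ v ξ
        let m : MvPolynomial (ι ⊕ Unit) K₀ →ₐ[K] R :=
          (MvPolynomial.aeval v : MvPolynomial (ι ⊕ Unit) K₀ →ₐ[K₀] R).restrictScalars K
        have e1 : m (q ξ) = _ := map_ev' m _ _
        change MvPolynomial.aeval v (q ξ) = _ at e1
        rw [e1, adr_map, Polynomial.map_pow, Polynomial.map_sum]
        have e2 : m (MvPolynomial.C ξ) = algebraMap K₀ R ξ := MvPolynomial.aeval_C v ξ
        rw [e2]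
        congr 3
        refine Finset.sum_congr rfl fun i _ => ?_
        rw [Polynomial.map_mul, map_C, Polynomial.map_map]
        have e3 : (m : MvPolynomial (ι ⊕ Unit) K₀ →+* R) (MvPolynomial.X (Sum.inl i)) =
          v (Sum.inl i) := MvPolynomial.aeval_X v _
        have e4 : (m : MvPolynomial (ι ⊕ Unit) K₀ →+* R).comp (algebraMap K _) =
          algebraMap K R := m.comp_algebraMap
        rw [e3, e4]
      have h6 : ∀ ξ : K₀, algebraMap F k ((d.SS cF).eval (algebraMap K₀ F ξ)) =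
          MvPolynomial.aeval b (q ξ) := by
        intro ξ
        rw [hq]
        have e1 := map_ev' (IsScalarTower.toAlgHom K F k) (d.SS cF) (algebraMap K₀ F ξ)
        change algebraMap F k _ = ((d.SS cF).map (algebraMap F k)).eval
          (algebraMap F k (algebraMap K₀ F ξ)) at e1
        rw [e1, hSF, ← IsScalarTower.algebraMap_apply]
        unfold SS
        rw [hp_cS, ← sq]
      have h7 : q ξ = q ξ' := by
        apply hb.1
        rw [← h6, ← h6, h5]
      have h8 := congrArg (MvPolynomial.aeval (Sum.elim a (fun _ => 0) : ι ⊕ Unit → K₀)) h7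
      rw [hq, hq] at h8
      exact h8
    have h6 := hiso K K₀ ι d.κ d.k d.hli d.hκ ξ ξ' hne ⊤ (fun a _ => hall a)
    rw [finrank_top, Module.finrank_fintype_fun_eq_card] at h6
    have h7 := d.hcard
    omega
  obtain ⟨σ, π, γ, e1, e2, e3⟩ := hkum K K₀ F k Ω hreg d.P A ψ hψ (d.SS cF)
    (by rw [hdeg]; exact Nat.succ_pos _) hsep (b (Sum.inr ())) hT _ Φ
    (fun i => by rw [haev]; exact h1 i) h2 (fun Φ' h5 => h3 Φ' (by rw [haev] at h5; exact h5)) a
  obtain ⟨τ, hτ, hτ2⟩ := h4 σ.toRingEquiv (fun a => by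
      change σ (algebraMap K₀ k a) = _
      rw [IsScalarTower.algebraMap_apply K₀ F k]
      exact σ.commutes _) (fun i => by
      rcases i with i | ⟨⟩
      · exact σ.commutes (⟨b (Sum.inl i), sub_cl _ ⟨Sum.inl i, ⟨i, rfl⟩, rfl⟩⟩ : F)
      · exact e1) π γ e2
  refine ⟨mkW π γ, ⟨τ, hτ, Rx.mk π γ hτ2⟩, ?_⟩
  change ∏ i, ψ (γ (π.symm i)) = a
  rw [Equiv.prod_comp π.symm (fun i => ψ (γ i)), e3]

end app

end Dat

end Pool.Agent.K3h17.T
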