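import Mathlib
import Pool.Agent.K3h17.T.Gb
import Pool.Agent.K3h17.Stm3
import Pool.Agent.K3h53.Fam.Base

set_option autoImplicit false
set_option linter.unusedSectionVars false
set_option linter.unusedSimpArgs false

/-!
The product formula.
-/

namespace Pool.Agent.K3h17.T

open Polynomial Pool.Agent.H391R2 Pool.Agent.Y793

section raw

variable {K Ω : Type} [Field K] [Field Ω] [Algebra (RatFunc K) Ω] [Algebra K Ω]
  [IsScalarTower K (RatFunc K) Ω] [FiniteDimensional (RatFunc K) Ω] [IsGalois (RatFunc K) Ω]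
  (P : Subgroup (Ω ≃ₐ[RatFunc K] Ω)) {m : ℕ} (e : Fin m → Ω) (D : Fin m → K[X])

/-- The orthogonality relations. -/
structure Orth : Prop where
  he : ∀ r, ∀ γ ∈ P, γ (e r) = e r
  hsum : ∑ r, e r ^ 2 / aeval (xx K Ω) (D r) = 1
  horth : ∀ γ : Ω ≃ₐ[RatFunc K] Ω, γ ∉ P → ∑ r, e r * γ (e r) / aeval (xx K Ω) (D r) = 0

variable {P e D} (O : Orth P e D)

include O

open Classical in
theorem sum_orth (γ γ' : Ω ≃ₐ[RatFunc K] Ω) :
    ∑ r, γ (e r) * γ' (e r) / aeval (xx K Ω) (D r) =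
      (if γ⁻¹ * γ' ∈ P then 1 else 0 : Ω) := by
  classical
  have h1 : ∑ r, γ (e r) * γ' (e r) / aeval (xx K Ω) (D r) =
      γ (∑ r, e r * (γ⁻¹ * γ') (e r) / aeval (xx K Ω) (D r)) := by
    rw [map_sum]
    refine Finset.sum_congr rfl fun r _ => ?_
    rw [map_div₀, map_mul, K3h53.Fam.gal_aeval]
    congr 2
    change γ' (e r) = γ (γ⁻¹ (γ' (e r)))
    exact (γ.apply_symm_apply _).symm
  rw [h1]
  split_ifs with h
  · have h2 : ∑ r, e r * (γ⁻¹ * γ') (e r) / aeval (xx K Ω) (D r) = 1 := by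
      rw [← O.hsum]
      refine Finset.sum_congr rfl fun r _ => ?_
      rw [O.he r _ h, sq]
    rw [h2, map_one]
  · rw [O.horth _ h, map_zero]

theorem span_fix (u : Ω) (hu : ∀ γ ∈ P, γ u = u) :
    ∃ c : Fin m → RatFunc K, u = ∑ r, algebraMap (RatFunc K) Ω (c r) * e r := by
  classical
  let _ : Fintype ((Ω ≃ₐ[RatFunc K] Ω) ⧸ P) := Fintype.ofFinite _
  have hout : ∀ (γ : Ω ≃ₐ[RatFunc K] Ω) (v : Ω), (∀ g ∈ P, g v = v) →
      ((QuotientGroup.mk γ : (Ω ≃ₐ[RatFunc K] Ω) ⧸ P)).out v = γ v := by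
    intro γ v hv
    have h1 : (QuotientGroup.mk (QuotientGroup.mk γ : (Ω ≃ₐ[RatFunc K] Ω) ⧸ P).out :
        (Ω ≃ₐ[RatFunc K] Ω) ⧸ P) = QuotientGroup.mk γ := QuotientGroup.out_eq' _
    rw [QuotientGroup.eq] at h1
    have h2 := hv _ h1
    have h3 := congrArg (QuotientGroup.mk γ : (Ω ≃ₐ[RatFunc K] Ω) ⧸ P).out h2
    change (QuotientGroup.mk γ : (Ω ≃ₐ[RatFunc K] Ω) ⧸ P).out
      ((QuotientGroup.mk γ : (Ω ≃ₐ[RatFunc K] Ω) ⧸ P).out⁻¹ (γ v)) = _ at h3
    rw [show (QuotientGroup.mk γ : (Ω ≃ₐ[RatFunc K] Ω) ⧸ P).out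
      ((QuotientGroup.mk γ : (Ω ≃ₐ[RatFunc K] Ω) ⧸ P).out⁻¹ (γ v)) = γ v from
        AlgEquiv.apply_symm_apply _ _] at h3
    exact h3.symm
  have htr : ∀ v : Ω, (∀ g ∈ P, g v = v) → ∃ t : RatFunc K,
      algebraMap (RatFunc K) Ω t = ∑ q : (Ω ≃ₐ[RatFunc K] Ω) ⧸ P, q.out v := by
    intro v hv
    have h1 : (∑ q : (Ω ≃ₐ[RatFunc K] Ω) ⧸ P, q.out v) ∈
        Set.range (algebraMap (RatFunc K) Ω) := by
      rw [IsGalois.mem_range_algebraMap_iff_fixed]
      intro γ
      rw [map_sum]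
      refine Fintype.sum_equiv (MulAction.toPerm γ) _ _ fun q => ?_
      obtain ⟨g, rfl⟩ := QuotientGroup.mk_surjective q
      change γ ((QuotientGroup.mk g : (Ω ≃ₐ[RatFunc K] Ω) ⧸ P).out v) =
        (QuotientGroup.mk (γ * g) : (Ω ≃ₐ[RatFunc K] Ω) ⧸ P).out v
      rw [hout g v hv, hout _ v hv]
      rfl
    exact h1
  have hue : ∀ r, ∀ g ∈ P, g (u * e r) = u * e r := by
    intro r g hg
    rw [map_mul, hu g hg, O.he r g hg]
  choose t ht using fun r => htr (u * e r) (hue r)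
  refine ⟨fun r => t r / algebraMap K[X] (RatFunc K) (D r), ?_⟩
  have h5 : ∀ r, algebraMap (RatFunc K) Ω (t r / algebraMap K[X] (RatFunc K) (D r)) * e r =
      ∑ q : (Ω ≃ₐ[RatFunc K] Ω) ⧸ P, q.out u * (q.out (e r) * (1 : Ω ≃ₐ[RatFunc K] Ω) (e r) /
        aeval (xx K Ω) (D r)) := by
    intro r
    rw [map_div₀, ht, ← K3h53.Fam.aeval_xx, Finset.sum_div, Finset.sum_mul]
    refine Finset.sum_congr rfl fun q _ => ?_
    rw [map_mul]
    change _ = q.out u * (q.out (e r) * e r / aeval (xx K Ω) (D r))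
    ring
  rw [Finset.sum_congr rfl fun r _ => h5 r, Finset.sum_comm]
  simp_rw [← Finset.mul_sum, sum_orth O]
  rw [Finset.sum_eq_single (QuotientGroup.mk 1 : (Ω ≃ₐ[RatFunc K] Ω) ⧸ P)]
  · have h6 : (QuotientGroup.mk 1 : (Ω ≃ₐ[RatFunc K] Ω) ⧸ P).out⁻¹ * 1 ∈ P := by
      have h1 : (QuotientGroup.mk (QuotientGroup.mk 1 : (Ω ≃ₐ[RatFunc K] Ω) ⧸ P).out :
        (Ω ≃ₐ[RatFunc K] Ω) ⧸ P) = QuotientGroup.mk 1 := QuotientGroup.out_eq' _
      rwa [QuotientGroup.eq] at h1
    rw [if_pos h6, mul_one, hout 1 u hu]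
    rfl
  · intro q _ hq
    rw [if_neg, mul_zero]
    intro h7
    apply hq
    rw [← QuotientGroup.out_eq' q, QuotientGroup.eq]
    exact h7
  · intro h
    exact absurd (Finset.mem_univ _) h

/-- Polynomial matrices of multiples. -/
theorem pol_mat (u : Ω) (hu : ∀ γ ∈ P, γ u = u) :
    ∃ (q : K[X]) (M : Matrix (Fin m) (Fin m) K[X]), q ≠ 0 ∧
      ∀ r, aeval (xx K Ω) q * u * e r = ∑ s, aeval (xx K Ω) (M r s) * e s := by
  choose c hc using fun r => span_fix O (u * e r) (fun γ hγ => by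
    rw [map_mul, hu γ hγ, O.he r γ hγ])
  obtain ⟨b, v, hb, hv⟩ := K3h53.Fam.exists_den (K := K) (Ω := Ω)
    (fun p : Fin m × Fin m => c p.1 p.2)
  refine ⟨b, fun r s => v (r, s), hb, fun r => ?_⟩
  rw [mul_assoc, hc r, Finset.mul_sum]
  refine Finset.sum_congr rfl fun s _ => ?_
  rw [← hv (r, s)]
  ring

theorem norm_det {I : Type} [Fintype I] [DecidableEq I] (c : I → (Ω ≃ₐ[RatFunc K] Ω))
    (hc : ∀ i j, i ≠ j → (c i)⁻¹ * c j ∉ P) (hI : Fintype.card I = m) (w : Ω)
    (V : Matrix (Fin m) (Fin m) K[X])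
    (hV : ∀ r, w * e r = ∑ s, aeval (xx K Ω) (V r s) * e s) :
    (V.map (aeval (xx K Ω))).det = ∏ i, c i w := by
  classical
  let f : Fin m ≃ I := (Fintype.equivFinOfCardEq hI).symm
  let E : Matrix (Fin m) (Fin m) Ω := fun a r => c (f a) (e r)
  let W : Matrix (Fin m) (Fin m) Ω := Matrix.diagonal fun r => (aeval (xx K Ω) (D r))⁻¹
  have h1 : E * W * E.transpose = 1 := by
    ext a b
    rw [Matrix.mul_apply]
    have h2 : ∀ r, (E * W) a r = c (f a) (e r) * (aeval (xx K Ω) (D r))⁻¹ := fun r =>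
      Matrix.mul_diagonal _ _ _ _
    have h3 : ∑ r, (E * W) a r * E.transpose r b =
        ∑ r, c (f a) (e r) * c (f b) (e r) / aeval (xx K Ω) (D r) := by
      refine Finset.sum_congr rfl fun r _ => ?_
      rw [h2, Matrix.transpose_apply]
      change _ * c (f b) (e r) = _
      ring
    rw [h3, sum_orth O, Matrix.one_apply]
    by_cases hab : a = b
    · subst hab
      rw [if_pos rfl, if_pos]
      rw [inv_mul_cancel]
      exact P.one_mem
    · rw [if_neg hab, if_neg]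
      exact hc _ _ fun h => hab (f.injective h)
  have h4 : E.det ≠ 0 := by
    intro h0
    have h5 := congrArg Matrix.det h1
    rw [Matrix.det_mul, Matrix.det_mul, h0, zero_mul, zero_mul, Matrix.det_one] at h5
    exact zero_ne_one h5
  have h6 : Matrix.diagonal (fun a => c (f a) w) * E =
      E * (V.map (aeval (xx K Ω))).transpose := by
    ext a r
    rw [Matrix.diagonal_mul, Matrix.mul_apply]
    change c (f a) w * c (f a) (e r) = ∑ s, c (f a) (e s) * aeval (xx K Ω) (V r s)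
    rw [← map_mul, hV r, map_sum]
    refine Finset.sum_congr rfl fun s _ => ?_
    rw [map_mul, K3h53.Fam.gal_aeval, mul_comm]
  have h7 := congrArg Matrix.det h6
  rw [Matrix.det_mul, Matrix.det_mul, Matrix.det_diagonal, Matrix.det_transpose, mul_comm] at h7
  have h8 := mul_left_cancel₀ h4 h7
  rw [← h8]
  exact Equiv.prod_comp f (fun i => c i w)

end raw

section pf

variable {K Ω ι : Type} [Field K] [CharZero K] [Field Ω] [Algebra (RatFunc K) Ω] [Algebra K Ω]
  [IsScalarTower K (RatFunc K) Ω] [FiniteDimensional (RatFunc K) Ω] [IsGalois (RatFunc K) Ω]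
  [Fintype ι] (d : Dat K Ω ι)

/-- The element `w` acts on the basis through `V`. -/
def Mt {m : ℕ} (e : Fin m → Ω) (w : Ω) (V : Matrix (Fin m) (Fin m) K[X]) : Prop :=
  ∀ r, w * e r = ∑ s, aeval (xx K Ω) (V r s) * e s

/-- The data are adapted to `w`. -/
structure Adp (w : Ω) (V : Matrix (Fin d.m) (Fin d.m) K[X]) : Prop where
  hV : Mt d.e w V
  hU : ∃ (b b' : ℕ) (U : ι → Matrix (Fin d.m) (Fin d.m) K[X])
    (U' : Matrix (Fin d.m) (Fin d.m) K[X]), (∀ i, Mt d.e (d.W i) (U i * V)) ∧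
      Mt d.e d.H (U' * V) ∧ (∀ r s, (V r s).natDegree ≤ b) ∧
      (∀ i r s, (U i r s).natDegree ≤ b') ∧ (∀ r s, (U' r s).natDegree ≤ b') ∧
      2 * b + b' ≤ 2 * d.k + 1 ∧ b + b' < 2 * d.k + 1

theorem orth : Orth d.P d.e d.D := ⟨d.he, d.hsum, d.horth⟩

variable {K₀ N : Type} [Field K₀] [Algebra K K₀] [Field N] [IsAlgClosed N] [Algebra K₀ N]
  [Algebra K N] [IsScalarTower K K₀ N] (η : Iy ι → N) (hη : IsTranscendenceBasis K₀ η)

include hη

/-- The product formula. -/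
theorem prod_formula (hnrm : K3h17.St_nrm) {w : Ω} {V : Matrix (Fin d.m) (Fin d.m) K[X]}
    (hA : Adp d w V)
    {φ : Fin (d.m * (2 * d.k + 1)) → (Ω →ₐ[K] N)} (S : d.Sy η _ φ)
    (s : Fin (2 * d.k + 1) → N) (hs : Function.Injective s)
    (hs2 : ∀ j, (d.SS (fun i => η (Sum.inl i))).eval (s j) = η (Sum.inr ()))
    (Ψ : Fin (2 * d.k + 1) → (Ω →ₐ[K] N)) (hΨ : ∀ j, Ψ j (xx K Ω) = s j)
    {I : Type} [Fintype I] (c : I → (Ω ≃ₐ[RatFunc K] Ω))
    (hc : ∀ i j, i ≠ j → (c i)⁻¹ * c j ∉ d.P) (hI : Fintype.card I = d.m) :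
    ∏ i, φ i w = ∏ j, Ψ j (∏ i, c i w) := by
  classical
  obtain ⟨b, b', U, U', hU, hU', hb, hb', hb'', h1, h2⟩ := hA.hU
  let v : Option ι → N := fun i => η (Sum.inl i)
  let VN : Matrix (Fin d.m) (Fin d.m) N[X] := fun r s => (V r s).map (algebraMap K N)
  let UN : Matrix (Fin d.m) (Fin d.m) N[X] := fun r s =>
    ∑ i, C (2 * v none * v (some i)) * (U i r s).map (algebraMap K N) +
      C (v none ^ 2) * (U' r s).map (algebraMap K N)
  have hev : ∀ (i : Fin (d.m * (2 * d.k + 1))) (q : K[X]),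
      (q.map (algebraMap K N)).eval (φ i (xx K Ω)) = φ i (aeval (xx K Ω) q) := by
    intro i q
    rw [eval_map_algebraMap, aeval_algHom_apply]
  have hmt : ∀ (i : Fin (d.m * (2 * d.k + 1))) (u : Ω) (M : Matrix (Fin d.m) (Fin d.m) K[X]),
      Mt d.e u M → ∀ r, φ i u * φ i (d.e r) =
        ∑ s, ((M r s).map (algebraMap K N)).eval (φ i (xx K Ω)) * φ i (d.e s) := by
    intro i u M hM r
    rw [← map_mul, hM r, map_sum]
    refine Finset.sum_congr rfl fun s _ => ?_
    rw [map_mul, hev]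
  have key := hnrm N d.m (2 * d.k + 1) b b' (Nat.succ_pos _) h1 h2
    (d.SS v) (η (Sum.inr ())) VN UN (d.SS_deg _ (Dat.η_ne η hη _))
    (fun r s => (natDegree_map_le).trans (hb r s))
    (fun r s => by
      refine (natDegree_add_le _ _).trans (max_le ?_ ?_)
      · refine natDegree_sum_le_of_forall_le _ _ fun i _ => ?_
        exact (natDegree_C_mul_le _ _).trans ((natDegree_map_le).trans (hb' i r s))
      · exact (natDegree_C_mul_le _ _).trans ((natDegree_map_le).trans (hb'' r s)))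
    s hs hs2 (fun i => φ i (xx K Ω)) (d.x_inj η hη Y203.J.t_gen Y203.J.t_iso φ S.pt S.ne)
    (fun i r => φ i (d.e r)) ?_ ?_ (fun i => φ i w) ?_
  · rw [key]
    refine Finset.prod_congr rfl fun j _ => ?_
    rw [← norm_det (orth d) c hc hI w V hA.hV]
    have h3 : VN.map (eval (s j)) = (V.map (aeval (xx K Ω))).map (Ψ j) := by
      ext r t
      change ((V r t).map (algebraMap K N)).eval (s j) = Ψ j (aeval (xx K Ω) (V r t))
      rw [eval_map_algebraMap, ← hΨ j, aeval_algHom_apply]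
    rw [h3]
    exact (RingHom.map_det (Ψ j : Ω →+* N) _).symm
  · intro i h0
    obtain ⟨r, hr⟩ := d.exists_e_ne
    have h3 := congrFun h0 r
    exact hr ((map_eq_zero (φ i)).1 h3)
  · intro i r
    have h3 : d.BF v v (φ i) = η (Sum.inr ()) := S.pt i
    have h4 : d.BF v v (φ i) - (d.SS v).eval (φ i (xx K Ω)) =
        ∑ j, (2 * v none * v (some j)) * φ i (d.W j) + v none ^ 2 * φ i d.H := by
      unfold Dat.BF Dat.SS
      have h2 : ∑ j, (v none * v (some j) + v none * v (some j)) * φ i (d.W j) =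
          ∑ j, (2 * v none * v (some j)) * φ i (d.W j) :=
        Finset.sum_congr rfl fun j _ => by ring
      rw [h2]
      ring
    have h5 : ∀ s, ((UN * VN) r s).eval (φ i (xx K Ω)) =
        ∑ j, (2 * v none * v (some j)) *
          (((U j * V) r s).map (algebraMap K N)).eval (φ i (xx K Ω)) +
        v none ^ 2 * (((U' * V) r s).map (algebraMap K N)).eval (φ i (xx K Ω)) := by
      intro s
      rw [Matrix.mul_apply, eval_finsetSum]
      simp only [Matrix.mul_apply, Polynomial.map_sum, eval_finsetSum, Finset.mul_sum]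
      rw [Finset.sum_comm, ← Finset.sum_add_distrib]
      refine Finset.sum_congr rfl fun t _ => ?_
      change ((∑ i, C (2 * v none * v (some i)) * (U i r t).map (algebraMap K N) +
        C (v none ^ 2) * (U' r t).map (algebraMap K N)) * (V t s).map (algebraMap K N)).eval _ = _
      rw [eval_mul, eval_add, eval_finsetSum, add_mul, Finset.sum_mul]
      simp only [eval_mul, eval_C, Polynomial.map_mul]
      congr 1
      · refine Finset.sum_congr rfl fun j _ => ?_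
        ring
      · ring
    change (η (Sum.inr ()) - (d.SS v).eval (φ i (xx K Ω))) * φ i (d.e r) = _
    rw [← h3, h4]
    simp only [h5]
    rw [add_mul, Finset.sum_mul]
    simp only [add_mul, Finset.sum_mul, Finset.sum_add_distrib]
    congr 1
    · rw [Finset.sum_comm]
      refine Finset.sum_congr rfl fun j _ => ?_
      rw [mul_assoc, hmt i _ _ (hU j) r, Finset.mul_sum]
      refine Finset.sum_congr rfl fun s _ => ?_
      ring
    · rw [mul_assoc, hmt i _ _ hU' r, Finset.mul_sum]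
      refine Finset.sum_congr rfl fun s _ => ?_
      ring
  · intro i r
    exact hmt i w V hA.hV r

end pf

end Pool.Agent.K3h17.T
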