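import Mathlib
import Pool.Agent.K3h17.T.Gc
import Pool.Agent.K3h17.Stm2

set_option autoImplicit false
set_option linter.unusedSectionVars false
set_option linter.unusedSimpArgs false

/-!
Existence of adapted data.
-/

namespace Pool.Agent.K3h17.T

open Polynomial Pool.Agent.H391R2 Pool.Agent.H391R2.T4 Pool.Agent.Y793

section inv

variable {K Ω : Type} [Field K] [Field Ω] [Algebra (RatFunc K) Ω] [Algebra K Ω]
  [IsScalarTower K (RatFunc K) Ω] [FiniteDimensional (RatFunc K) Ω] [IsGalois (RatFunc K) Ω]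
  {P : Subgroup (Ω ≃ₐ[RatFunc K] Ω)} {m : ℕ} {e : Fin m → Ω} {D : Fin m → K[X]}

theorem inv_mat (O : Orth P e D)
    {Δ : K[X]} {E : Fin m → Matrix (Fin m) (Fin m) K[X]}
    (hE : ∀ s r, aeval (xx K Ω) Δ * e s * e r = ∑ t, aeval (xx K Ω) (E s r t) * e t)
    (u : Ω) (hu : ∀ γ ∈ P, γ u = u) :
    ∃ (Q : K[X]) (C₁ : ℕ), Q ≠ 0 ∧ ∀ Δ' : K[X], Q ∣ Δ' → ∀ (B : ℕ) (v : Fin m → K[X]),
      (∀ s, (v s).natDegree ≤ B) → ∃ U : Matrix (Fin m) (Fin m) K[X],
        (∀ r, (∑ s, aeval (xx K Ω) (Δ * Δ' * v s) * e s) * u⁻¹ * e r =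
          ∑ s, aeval (xx K Ω) (U r s) * e s) ∧
        ∀ r s, (U r s).natDegree ≤ B + C₁ + Δ'.natDegree := by
  classical
  obtain ⟨Q, M, hQ, hM⟩ := pol_mat O u⁻¹ (fun γ hγ => by rw [map_inv₀, hu γ hγ])
  let cM : ℕ := Finset.univ.sup fun p : Fin m × Fin m => (M p.1 p.2).natDegree
  let cE : ℕ := Finset.univ.sup fun p : Fin m × Fin m × Fin m => (E p.1 p.2.1 p.2.2).natDegree
  have hcM : ∀ r s, (M r s).natDegree ≤ cM := fun r s =>
    Finset.le_sup (f := fun p : Fin m × Fin m => (M p.1 p.2).natDegree)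
      (Finset.mem_univ (r, s))
  have hcE : ∀ r s t, (E r s t).natDegree ≤ cE := fun r s t =>
    Finset.le_sup (f := fun p : Fin m × Fin m × Fin m => (E p.1 p.2.1 p.2.2).natDegree)
      (Finset.mem_univ (r, s, t))
  refine ⟨Q, cM + cE, hQ, ?_⟩
  rintro _ ⟨c, rfl⟩ B v hv
  have hc : c.natDegree ≤ (Q * c).natDegree := by
    by_cases h0 : c = 0
    · rw [h0, natDegree_zero]
      exact Nat.zero_le _
    · rw [natDegree_mul hQ h0]
      exact Nat.le_add_left _ _
  refine ⟨fun r t' => ∑ s, ∑ t, v s * (c * M r t) * E s t t', fun r => ?_, fun r s => ?_⟩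
  · have h1 : ∀ s, aeval (xx K Ω) (Δ * (Q * c) * v s) * e s * u⁻¹ * e r =
        ∑ t', (∑ t, aeval (xx K Ω) (v s * (c * M r t) * E s t t')) * e t' := by
      intro s
      have h2 : aeval (xx K Ω) (Δ * (Q * c) * v s) * e s * u⁻¹ * e r =
          aeval (xx K Ω) (v s) * aeval (xx K Ω) c * (aeval (xx K Ω) Δ * e s) *
            (aeval (xx K Ω) Q * u⁻¹ * e r) := by
        simp only [map_mul]
        ring
      rw [h2, hM r, Finset.mul_sum]
      simp only [Finset.sum_mul]
      rw [Finset.sum_comm]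
      refine Finset.sum_congr rfl fun t _ => ?_
      have h3 : aeval (xx K Ω) (v s) * aeval (xx K Ω) c * (aeval (xx K Ω) Δ * e s) *
          (aeval (xx K Ω) (M r t) * e t) =
          aeval (xx K Ω) (v s) * aeval (xx K Ω) c * aeval (xx K Ω) (M r t) *
            (aeval (xx K Ω) Δ * e s * e t) := by ring
      rw [h3, hE s t, Finset.mul_sum]
      refine Finset.sum_congr rfl fun t' _ => ?_
      simp only [map_mul]
      ring
    simp only [Finset.sum_mul] at h1 ⊢
    rw [Finset.sum_congr rfl fun s _ => h1 s, Finset.sum_comm]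
    refine Finset.sum_congr rfl fun t' _ => ?_
    simp only [map_sum, Finset.sum_mul]
  · refine natDegree_sum_le_of_forall_le _ _ fun s' _ => ?_
    refine natDegree_sum_le_of_forall_le _ _ fun t _ => ?_
    refine natDegree_mul_le.trans ?_
    have h1 := natDegree_mul_le (p := v s') (q := c * M r t)
    have h2 := natDegree_mul_le (p := c) (q := M r t)
    have h3 := hv s'
    have h4 := hcM r t
    have h5 := hcE s' t s
    omega

theorem Mt_mul {u z : Ω} (hu0 : u ≠ 0) {U V : Matrix (Fin m) (Fin m) K[X]} (hV : Mt e u V)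
    (hU : ∀ r, z * u⁻¹ * e r = ∑ s, aeval (xx K Ω) (U r s) * e s) : Mt e z (U * V) := by
  intro r
  have h1 : z * e r = u * (z * u⁻¹ * e r) := by
    field_simp
  rw [h1, hU r, Finset.mul_sum]
  have h2 : ∀ s, u * (aeval (xx K Ω) (U r s) * e s) =
      ∑ t, aeval (xx K Ω) (U r s * V s t) * e t := by
    intro s
    have h3 : u * (aeval (xx K Ω) (U r s) * e s) = aeval (xx K Ω) (U r s) * (u * e s) := by ring
    rw [h3, hV s, Finset.mul_sum]
    refine Finset.sum_congr rfl fun t _ => ?_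
    rw [map_mul]
    ring
  rw [Finset.sum_congr rfl fun s _ => h2 s, Finset.sum_comm]
  refine Finset.sum_congr rfl fun t _ => ?_
  rw [Matrix.mul_apply, map_sum, Finset.sum_mul]

/-- Multiplication by a polynomial. -/
noncomputable def sc (m : ℕ) (q : K[X]) : Matrix (Fin m) (Fin m) K[X] := fun r s => if r = s then q else 0

theorem Mt_sc (q : K[X]) : Mt e (aeval (xx K Ω) q) (sc m q) := by
  intro r
  rw [Finset.sum_eq_single r]
  · rw [sc, if_pos rfl]
  · intro s _ hs
    rw [sc, if_neg (Ne.symm hs), map_zero, zero_mul]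
  · intro h
    exact absurd (Finset.mem_univ _) h

theorem sc_deg (q : K[X]) (r s : Fin m) : (sc m q r s).natDegree ≤ q.natDegree := by
  unfold sc
  split_ifs
  · exact le_rfl
  · rw [natDegree_zero]
    exact Nat.zero_le _

theorem Dv_of {Δ Δ' : K[X]} {B : ℕ} {z : Ω} (h : Dv e (Δ * Δ') B z) :
    Dv e Δ (B + Δ'.natDegree) z := by
  obtain ⟨w, h1, h2⟩ := h
  refine ⟨fun r => Δ' * w r, fun r => ?_, ?_⟩
  · change (Δ' * w r).natDegree ≤ _
    have h3 := natDegree_mul_le (p := Δ') (q := w r)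
    have h4 := h1 r
    omega
  · rw [h2]
    refine Finset.sum_congr rfl fun r _ => ?_
    rw [mul_assoc]

end inv

section mk

variable {K L Z : Type} [Field K] [CharZero K] [Field L] [Algebra K L] [FiniteDimensional K L]
  [Field Z]
  [Algebra (RatFunc K) Z] [Algebra L Z] [Algebra K Z] [IsScalarTower K (RatFunc K) Z]
  [IsScalarTower K L Z] [Algebra (RatFunc K) (RatFunc L)] [Algebra (RatFunc L) Z]
  [IsScalarTower (RatFunc K) (RatFunc L) Z] [IsScalarTower L (RatFunc L) Z]
  [FiniteDimensional (RatFunc K) Z] [IsGalois (RatFunc K) Z]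
  [CharZero L] [FiniteDimensional (RatFunc L) Z] [IsGalois (RatFunc L) Z]
  (hp : ∀ p : K[X], algebraMap (RatFunc K) (RatFunc L) (algebraMap K[X] (RatFunc K) p) =
        algebraMap L[X] (RatFunc L) (p.map (algebraMap K L)))
  (π : (Z ≃ₐ[RatFunc K] Z) →* (L ≃ₐ[K] L))
  (hπ : ∀ (σ : Z ≃ₐ[RatFunc K] Z) (x : L), σ (algebraMap L Z x) = algebraMap L Z (π σ x))

/-- Existence of adapted data. -/
theorem exists_dat3 (hder : K3h17.St_der) (hfam : K3h17.St_fam2) (hort : K3h17.St_ort2)
    (P : Subgroup (Z ≃ₐ[RatFunc K] Z)) (hm : Even P.index)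
    {J : Type} [Finite J] (w : J → Z) (hw0 : ∀ j, w j ≠ 0)
    (hwP : ∀ j, ∀ γ ∈ P, π γ = 1 → γ (w j) = w j) :
    ∃ k₁ : ℕ, ∀ k ≥ k₁, ∃ (ι : Type) (_ : Fintype ι) (d : Dat K Z ι), d.P = P ∧ d.k = k ∧
      (∃ g : Z, g ^ 2 = ∏ r, aeval (xx K Z) (d.D r) ∧
        ∀ (γ : Z ≃ₐ[RatFunc K] Z) (f : Equiv.Perm ((Z ≃ₐ[RatFunc K] Z) ⧸ P)),
          (∀ q, f q = γ • q) → ∀ (_ : Fintype ((Z ≃ₐ[RatFunc K] Z) ⧸ P))
          (_ : DecidableEq ((Z ≃ₐ[RatFunc K] Z) ⧸ P)),
          γ g = (((Equiv.Perm.sign f : ℤˣ) : ℤ) : Z) * g) ∧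
      ∀ (hP : d.P.map π = ⊤) (j : J), ∃ (h : Z) (V V' : Matrix (Fin d.m) (Fin d.m) L[X]), h ≠ 0 ∧
        Adp (d.bc hp π hπ hP) (h * w j) V ∧ Adp (d.bc hp π hπ hP) h V' := by
  classical
  let _ : Fintype J := Fintype.ofFinite J
  obtain ⟨δ, hδ1, hδ2, -⟩ := hder K Z
  obtain ⟨e, D, g, Δ, C, he, hspan, hD, hg, hgs, hΔ, hsum, horth, hmat⟩ := hort K Z P
  -- the orthogonality relations over `L`
  have O : Orth (K := L) (Ω := Z) (PL P) e (fun r => mpL K L (D r)) :=
    { he := fun r γ hγ => he r (γ.restrictScalars (RatFunc K)) hγ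
      hsum := by
        rw [← hsum]
        refine Finset.sum_congr rfl fun r _ => ?_
        rw [aev_bc hp]
      horth := fun γ hγ => by
        rw [← horth (γ.restrictScalars (RatFunc K)) hγ]
        refine Finset.sum_congr rfl fun r _ => ?_
        rw [aev_bc hp]
        rfl }
  -- the structure constants
  have hE0 : ∀ s, ∃ E : Matrix (Fin P.index) (Fin P.index) K[X], ∀ r,
      aeval (xx K Z) Δ * e s * e r = ∑ t, aeval (xx K Z) (E r t) * e t := by
    intro s
    obtain ⟨a, -, -, ha⟩ := hmat 0 (aeval (xx K Z) Δ * e s) ⟨Pi.single s 1, fun r => by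
        by_cases h : r = s
        · subst h
          rw [Pi.single_eq_same, natDegree_one]
        · rw [Pi.single_eq_of_ne h, natDegree_zero], by
        rw [Finset.sum_eq_single s]
        · rw [Pi.single_eq_same, mul_one]
        · intro r _ hr
          rw [Pi.single_eq_of_ne hr, mul_zero, map_zero, zero_mul]
        · intro h
          exact absurd (Finset.mem_univ _) h⟩
    refine ⟨fun r t => D r * a r t, fun r => ?_⟩
    rw [ha r, Finset.mul_sum]
    refine Finset.sum_congr rfl fun t _ => ?_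
    rw [map_mul]
    ring
  choose EK hEK using hE0
  have hE : ∀ s r, aeval (xx L Z) (mpL K L Δ) * e s * e r =
      ∑ t, aeval (xx L Z) ((fun s r t => mpL K L (EK s r t) :
        Fin P.index → Matrix (Fin P.index) (Fin P.index) L[X]) s r t) * e t := by
    intro s r
    rw [aev_bc hp, hEK s r]
    refine Finset.sum_congr rfl fun t _ => ?_
    rw [aev_bc hp]
  -- the elements
  have hfixP : ∀ j, ∀ γ ∈ PL (L := L) P, γ (w j) = w j := fun j γ hγ =>
    hwP j (γ.restrictScalars (RatFunc K)) hγ (ker_restrict π hπ γ)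
  choose q V hq hV using fun j => pol_mat O (w j) (hfixP j)
  have hqx : ∀ j, aeval (xx L Z) (q j) ≠ 0 := fun j => K3h53.Fam.aeval_xx_ne_zero (hq j)
  have hqf : ∀ j, ∀ γ ∈ PL (L := L) P, γ (aeval (xx L Z) (q j)) = aeval (xx L Z) (q j) :=
    fun j γ _ => K3h53.Fam.gal_aeval γ _
  choose Q C₁ hQ hQ2 using fun j => inv_mat O hE (aeval (xx L Z) (q j) * w j)
    (fun γ hγ => by rw [map_mul, hqf j γ hγ, hfixP j γ hγ])
  choose Q' C₁' hQ' hQ2' using fun j => inv_mat O hE (aeval (xx L Z) (q j)) (hqf j)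
  choose a ha0 ha using fun j => Polynomial.exists_dvd_map_of_isAlgebraic (R := K) (hQ j)
  choose a' ha0' ha' using fun j => Polynomial.exists_dvd_map_of_isAlgebraic (R := K) (hQ' j)
  let Δ' : K[X] := ∏ j, (a j * a' j)
  have hΔ' : Δ' ≠ 0 := Finset.prod_ne_zero_iff.2 fun j _ => mul_ne_zero (ha0 j) (ha0' j)
  have hdv : ∀ j, Q j ∣ mpL K L Δ' := fun j => (ha j).trans (by
    change mpL K L (a j) ∣ mpL K L Δ'
    exact Polynomial.map_dvd _ ((dvd_mul_right _ _).trans (Finset.dvd_prod_of_mem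
      (fun j => a j * a' j) (Finset.mem_univ j))))
  have hdv' : ∀ j, Q' j ∣ mpL K L Δ' := fun j => (ha' j).trans (by
    change mpL K L (a' j) ∣ mpL K L Δ'
    exact Polynomial.map_dvd _ ((dvd_mul_left _ _).trans (Finset.dvd_prod_of_mem
      (fun j => a j * a' j) (Finset.mem_univ j))))
  have hnd : (mpL K L Δ').natDegree = Δ'.natDegree := natDegree_map _
  obtain ⟨y, p, H, C', k₀, hy, hDvH, hH, hW⟩ := hfam K Z δ hδ1 hδ2 P P.index e he hspan
    (Δ * Δ') (mul_ne_zero hΔ hΔ')
  choose κ W hκ hDvW hδW using hW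
  -- the bounds
  let b : ℕ := (Finset.univ.sup fun p : J × Fin P.index × Fin P.index =>
      (V p.1 p.2.1 p.2.2).natDegree) + Finset.univ.sup fun j => (q j).natDegree
  have hb1 : ∀ j r s, (V j r s).natDegree ≤ b := fun j r s =>
    (Finset.le_sup (f := fun p : J × Fin P.index × Fin P.index =>
      (V p.1 p.2.1 p.2.2).natDegree) (Finset.mem_univ (j, r, s))).trans (Nat.le_add_right _ _)
  have hb2 : ∀ j, (q j).natDegree ≤ b := fun j =>
    (Finset.le_sup (f := fun j => (q j).natDegree) (Finset.mem_univ j)).trans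
      (Nat.le_add_left _ _)
  let c₁ : ℕ := (Finset.univ.sup C₁) + Finset.univ.sup C₁'
  have hc1 : ∀ j, C₁ j ≤ c₁ := fun j =>
    (Finset.le_sup (Finset.mem_univ j)).trans (Nat.le_add_right _ _)
  have hc1' : ∀ j, C₁' j ≤ c₁ := fun j =>
    (Finset.le_sup (Finset.mem_univ j)).trans (Nat.le_add_left _ _)
  have hUU : ∀ (B : ℕ) (z : Z), Dv e (Δ * Δ') B z → ∀ j,
      (∃ U : Matrix (Fin P.index) (Fin P.index) L[X],
        Mt (K := L) e z (U * V j) ∧ ∀ r s, (U r s).natDegree ≤ B + c₁ + Δ'.natDegree) ∧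
      (∃ U : Matrix (Fin P.index) (Fin P.index) L[X],
        Mt (K := L) e z (U * sc P.index (q j)) ∧
        ∀ r s, (U r s).natDegree ≤ B + c₁ + Δ'.natDegree) := by
    rintro B z ⟨v, hv, hz⟩ j
    have hz2 : z = ∑ s, aeval (xx L Z) (mpL K L Δ * mpL K L Δ' * mpL K L (v s)) * e s := by
      rw [hz]
      refine Finset.sum_congr rfl fun s _ => ?_
      rw [← aev_bc hp]
      congr 2
      rw [mpL, mpL, mpL, mpL, Polynomial.map_mul, Polynomial.map_mul]
    have hv2 : ∀ s, (mpL K L (v s)).natDegree ≤ B := fun s => by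
      rw [mpL, natDegree_map]
      exact hv s
    refine ⟨?_, ?_⟩
    · obtain ⟨U, hU1, hU2⟩ := hQ2 j _ (hdv j) B (fun s => mpL K L (v s)) hv2
      refine ⟨U, ?_, fun r s => ?_⟩
      · refine Mt_mul (mul_ne_zero (hqx j) (hw0 j)) (hV j) fun r => ?_
        rw [← hU1 r, ← hz2]
      · have h1 := hU2 r s
        have h2 := hc1 j
        rw [hnd] at h1
        omega
    · obtain ⟨U, hU1, hU2⟩ := hQ2' j _ (hdv' j) B (fun s => mpL K L (v s)) hv2
      refine ⟨U, ?_, fun r s => ?_⟩
      · refine Mt_mul (hqx j) (Mt_sc (q j)) fun r => ?_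
        rw [← hU1 r, ← hz2]
      · have h1 := hU2 r s
        have h2 := hc1' j
        rw [hnd] at h1
        omega
  have hi0 : 0 < P.index := Nat.pos_of_ne_zero Subgroup.index_ne_zero_of_finite
  refine ⟨2 * k₀ + 8 + C + C' + p.natDegree + Δ'.natDegree + 2 * b + c₁, fun k hk => ?_⟩
  obtain ⟨aH, haHs, haHd, haH⟩ := hmat _ H (Dv_of hDvH)
  have hW2 := fun (k' : ℕ) (h : k' ≥ k₀) => hmat _ (W k' h) (Dv_of (hDvW k' h))
  choose aW haWs haWd haW using hW2
  let ι := Option (Fin (k - 2 - k₀))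
  let dg : ι → ℕ := fun i => i.elim k (fun j => k₀ + 1 + j)
  have hdg1 : ∀ i, dg i ≥ k₀ + 1 := by
    rintro (_ | j)
    · change k ≥ k₀ + 1
      omega
    · change k₀ + 1 + (j : ℕ) ≥ k₀ + 1
      omega
  have hdg : ∀ i, dg i ≥ k₀ := fun i => (Nat.le_succ _).trans (hdg1 i)
  have hdgk2 : ∀ i, i ≠ none → dg i ≤ k - 2 := by
    rintro (_ | j) hj
    · exact absurd rfl hj
    · change k₀ + 1 + (j : ℕ) ≤ k - 2
      have := j.2
      omega
  have hdgk : ∀ i, dg i ≤ k := by
    rintro (_ | j)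
    · exact le_rfl
    · exact (hdgk2 (some j) (by simp)).trans (Nat.sub_le _ _)
  have hdginj : Function.Injective dg := by
    rintro (_ | i) (_ | j) hij
    · rfl
    · exfalso
      change k = k₀ + 1 + (j : ℕ) at hij
      have := j.2
      omega
    · exfalso
      change k₀ + 1 + (i : ℕ) = k at hij
      have := i.2
      omega
    · change k₀ + 1 + (i : ℕ) = k₀ + 1 + (j : ℕ) at hij
      have h1 : i = j := Fin.ext (by omega)
      rw [h1]
  let sq : Polynomial.Sequence K :=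
    { elems' := fun n => if h : n ≥ k₀ + 1 then κ n ((Nat.le_succ _).trans h) else X ^ n
      degree_eq' := fun n => by
        split_ifs with h
        · have h1 := hκ n ((Nat.le_succ _).trans h)
          have h2 : κ n ((Nat.le_succ _).trans h) ≠ 0 := by
            intro h0
            rw [h0, natDegree_zero] at h1
            omega
          rw [degree_eq_natDegree h2, h1]
        · rw [degree_X_pow] }
  have hsq : ∀ i, sq (dg i) = κ (dg i) (hdg i) := by
    intro i
    change (if h : dg i ≥ k₀ + 1 then κ (dg i) ((Nat.le_succ _).trans h) else X ^ (dg i)) = _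
    rw [dif_pos (hdg1 i)]
  have hli : LinearIndependent K (fun i => κ (dg i) (hdg i)) := by
    have h1 := sq.linearIndependent.comp dg hdginj
    have h2 : (fun n => (sq n : K[X])) ∘ dg = fun i => κ (dg i) (hdg i) := funext hsq
    rw [h2] at h1
    exact h1
  let d : Dat K Z ι :=
    { δ := δ
      P := P
      m := P.index
      k := k
      κ := fun i => κ (dg i) (hdg i)
      p := p
      y := y
      W := fun i => W (dg i) (hdg i)
      H := H
      e := e
      D := D
      aW := fun i => aW (dg i) (hdg i)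
      aH := aH
      i₁ := none
      hδx := hδ1
      hδg := hδ2
      hPm := rfl
      hm := hm
      hm0 := hi0
      hy := hy
      hH := hH
      hW := fun i => hδW (dg i) (hdg i)
      he := he
      hsum := hsum
      hD := hD
      horth := horth
      haWs := fun i => haWs (dg i) (hdg i)
      haHs := haHs
      haW := fun i => haW (dg i) (hdg i)
      haH := haH
      haWd := fun i r s => by
        refine lt_of_le_of_lt (haWd (dg i) (hdg i) r s) ?_
        have := hdgk i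
        omega
      haHd := fun r s => by
        refine lt_of_le_of_lt (haHd r s) ?_
        omega
      hli := hli
      hκ1 := hκ _ _
      hκ2 := fun i hi => by
        rw [hκ]
        exact hdgk2 i hi
      hκ3 := by
        refine ⟨some ⟨k - 3 - k₀, by omega⟩, by simp, ?_⟩
        rw [hκ]
        change k₀ + 1 + (k - 3 - k₀) = k - 2
        omega
      hk2 := by omega
      hp := by omega
      hcard := by
        change k + 5 < 2 * Fintype.card (Option (Fin (k - 2 - k₀)))
        rw [Fintype.card_option, Fintype.card_fin]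
        omega }
  refine ⟨ι, inferInstance, d, rfl, rfl, ⟨g, hg, hgs⟩, fun hP j => ?_⟩
  have hWj := fun i => hUU _ _ (hDvW (dg i) (hdg i)) j
  obtain ⟨⟨U₁, hU₁, hU₁d⟩, ⟨U₂, hU₂, hU₂d⟩⟩ := hUU _ _ hDvH j
  choose UW hUW hUWd using fun i => (hWj i).1
  choose UW' hUW' hUWd' using fun i => (hWj i).2
  refine ⟨aeval (xx L Z) (q j), V j, sc P.index (q j), hqx j, ⟨hV j, ?_⟩, ⟨Mt_sc (q j), ?_⟩⟩
  · refine ⟨b, k + C' + c₁ + Δ'.natDegree, UW, U₁, hUW, hU₁, hb1 j, fun i r s => ?_,
      fun r s => ?_, ?_, ?_⟩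
    · have h1 := hUWd i r s
      have h2 := hdgk i
      omega
    · have h1 := hU₁d r s
      omega
    · change 2 * b + (k + C' + c₁ + Δ'.natDegree) ≤ 2 * k + 1
      omega
    · change b + (k + C' + c₁ + Δ'.natDegree) < 2 * k + 1
      omega
  · refine ⟨b, k + C' + c₁ + Δ'.natDegree, UW', U₂, hUW', hU₂, fun r s => ?_, fun i r s => ?_,
      fun r s => ?_, ?_, ?_⟩
    · exact (sc_deg (q j) r s).trans (hb2 j)
    · have h1 := hUWd' i r s
      have h2 := hdgk i
      omega
    · have h1 := hU₂d r s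
      omega
    · change 2 * b + (k + C' + c₁ + Δ'.natDegree) ≤ 2 * k + 1
      omega
    · change b + (k + C' + c₁ + Δ'.natDegree) < 2 * k + 1
      omega

end mk

end Pool.Agent.K3h17.T
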