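import Mathlib
import Pool.Agent.K3h17.T.Gd

set_option autoImplicit false
set_option linter.unusedSectionVars false
set_option linter.unusedSimpArgs false

/-!
Kummer elements for a crossed homomorphism to a finite abelian group.
-/

namespace Pool.Agent.K3h17.T

open Polynomial Pool.Agent.H391R2 Pool.Agent.H391R2.T4 Pool.Agent.Y793

section tw

variable {K L : Type} [Field K] [Field L] [Algebra K L]
  {A : Type} [CommGroup A] (θ : (L ≃ₐ[K] L) →* MulAut A)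

/-- The twisted action on the characters. -/
def tw (ρ : L ≃ₐ[K] L) (χ : A →* Lˣ) : A →* Lˣ :=
  (Units.map ((ρ : L →ₐ[K] L) : L →* L)).comp (χ.comp ((θ ρ)⁻¹ : MulAut A).toMonoidHom)

theorem tw_apply (ρ : L ≃ₐ[K] L) (χ : A →* Lˣ) (a : A) :
    ((tw θ ρ χ a : Lˣ) : L) = ρ ((χ ((θ ρ)⁻¹ a) : Lˣ) : L) := rfl

theorem tw_apply' (ρ : L ≃ₐ[K] L) (χ : A →* Lˣ) (a : A) :
    ((tw θ ρ χ (θ ρ a) : Lˣ) : L) = ρ ((χ a : Lˣ) : L) := by
  rw [tw_apply, MulAut.inv_apply_self]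

theorem tw_one (χ : A →* Lˣ) : tw θ 1 χ = χ := by
  apply MonoidHom.ext
  intro a
  apply Units.ext
  rw [tw_apply, map_one, inv_one]
  rfl

theorem tw_mul (ρ : L ≃ₐ[K] L) (χ χ' : A →* Lˣ) : tw θ ρ (χ * χ') = tw θ ρ χ * tw θ ρ χ' := by
  apply MonoidHom.ext
  intro a
  apply Units.ext
  rw [MonoidHom.mul_apply, Units.val_mul, tw_apply, tw_apply, tw_apply, MonoidHom.mul_apply,
    Units.val_mul, map_mul]

theorem tw_surj (ρ : L ≃ₐ[K] L) (χ : A →* Lˣ) : ∃ χ', tw θ ρ χ' = χ := by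
  refine ⟨tw θ ρ⁻¹ χ, ?_⟩
  apply MonoidHom.ext
  intro a
  apply Units.ext
  rw [tw_apply, tw_apply]
  rw [map_inv, inv_inv, MulAut.apply_inv_self]
  exact ρ.apply_symm_apply _

end tw

section kum

variable {K L Z : Type} [Field K] [CharZero K] [Field L] [Algebra K L] [FiniteDimensional K L]
  [Field Z] [Algebra (RatFunc K) Z] [Algebra L Z] [Algebra K Z] [IsScalarTower K (RatFunc K) Z]
  [IsScalarTower K L Z] [FiniteDimensional (RatFunc K) Z] [IsGalois (RatFunc K) Z]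
  (π : (Z ≃ₐ[RatFunc K] Z) →* (L ≃ₐ[K] L))
  (hπ : ∀ (σ : Z ≃ₐ[RatFunc K] Z) (x : L), σ (algebraMap L Z x) = algebraMap L Z (π σ x))
  {A : Type} [CommGroup A] (θ : (L ≃ₐ[K] L) →* MulAut A)
  {P : Subgroup (Z ≃ₐ[RatFunc K] Z)} (c : P → A)
  (hc : ∀ γ γ' : P, c (γ * γ') = c γ * θ (π γ) (c γ'))

/-- The sums. -/
noncomputable def bb [Fintype P] (ζ : Z) (χ : A →* Lˣ) : Z :=
  ∑ γ : P, algebraMap L Z (((χ (c γ))⁻¹ : Lˣ) : L) * (γ : Z ≃ₐ[RatFunc K] Z) ζ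

include hπ hc in
theorem bb_act [Fintype P] (ζ : Z) (χ : A →* Lˣ) (γ₀ : P) :
    (γ₀ : Z ≃ₐ[RatFunc K] Z) (bb c ζ χ) =
      algebraMap L Z ((tw θ (π γ₀) χ (c γ₀) : Lˣ) : L) * bb c ζ (tw θ (π γ₀) χ) := by
  unfold bb
  rw [map_sum, Finset.mul_sum]
  refine Fintype.sum_equiv (Equiv.mulLeft γ₀) _ _ fun γ => ?_
  have h1 : ((tw θ (π γ₀) χ (c (γ₀ * γ)) : Lˣ) : L) =
      ((tw θ (π γ₀) χ (c γ₀) : Lˣ) : L) * π γ₀ ((χ (c γ) : Lˣ) : L) := by
    rw [hc, map_mul, Units.val_mul, tw_apply']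
  have h2 : ((tw θ (π γ₀) χ (c γ₀) : Lˣ) : L) * (((tw θ (π γ₀) χ (c (γ₀ * γ)))⁻¹ : Lˣ) : L) =
      π γ₀ (((χ (c γ))⁻¹ : Lˣ) : L) := by
    rw [Units.val_inv_eq_inv_val, Units.val_inv_eq_inv_val, map_inv₀, h1, mul_inv,
      mul_inv_cancel_left₀ (Units.ne_zero _)]
  change _ = algebraMap L Z ((tw θ (π γ₀) χ (c γ₀) : Lˣ) : L) *
    (algebraMap L Z (((tw θ (π γ₀) χ (c (γ₀ * γ)))⁻¹ : Lˣ) : L) *
      (γ₀ : Z ≃ₐ[RatFunc K] Z) ((γ : Z ≃ₐ[RatFunc K] Z) ζ))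
  rw [← mul_assoc, ← map_mul, h2, map_mul, hπ]

theorem bb_ne [Fintype P] (χ : A →* Lˣ) : ∃ ζ : Z, bb c ζ χ ≠ 0 := by
  by_contra hcon
  push Not at hcon
  have h1 := linearIndependent_toLinearMap (RatFunc K) Z Z
  have h2 : LinearIndependent Z (fun γ : P =>
      AlgHom.toLinearMap ((γ : Z ≃ₐ[RatFunc K] Z) : Z →ₐ[RatFunc K] Z)) :=
    h1.comp (fun γ : P => ((γ : Z ≃ₐ[RatFunc K] Z) : Z →ₐ[RatFunc K] Z)) (fun a b hab => by
      apply Subtype.ext
      apply AlgEquiv.ext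
      intro z
      exact congrArg (fun f : Z →ₐ[RatFunc K] Z => f z) hab)
  rw [Fintype.linearIndependent_iff] at h2
  have h3 := h2 (fun γ => algebraMap L Z (((χ (c γ))⁻¹ : Lˣ) : L)) (by
    apply LinearMap.ext
    intro ζ
    rw [LinearMap.sum_apply, LinearMap.zero_apply, ← hcon ζ]
    rfl) 1
  exact Units.ne_zero _ ((map_eq_zero (algebraMap L Z)).1 h3)

/-- The Kummer elements. -/
theorem exists_bb [Finite A] [HasEnoughRootsOfUnity L (Monoid.exponent A)] :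
    ∃ b : (A →* Lˣ) → Z, (∀ χ, b χ ≠ 0) ∧ ((∀ (σ : Z ≃ₐ[RatFunc K] Z) (x : L),
      σ (algebraMap L Z x) = algebraMap L Z (π σ x)) →
      (∀ γ γ' : P, c (γ * γ') = c γ * θ (π γ) (c γ')) → ∀ (χ : A →* Lˣ) (γ : P),
        (γ : Z ≃ₐ[RatFunc K] Z) (b χ) =
          algebraMap L Z ((tw θ (π γ) χ (c γ) : Lˣ) : L) * b (tw θ (π γ) χ)) := by
  classical
  let _ : Fintype P := Fintype.ofFinite _
  have hfin : Finite (A →* Lˣ) :=
    Finite.of_equiv _ (CommGroup.monoidHom_mulEquiv_of_hasEnoughRootsOfUnity A L).some.symm.toEquiv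
  let pp : (A →* Lˣ) → Subspace (RatFunc K) Z := fun χ =>
    { carrier := {ζ | bb c ζ χ = 0}
      add_mem' := by
        intro a b ha hb
        change bb c (a + b) χ = 0
        have ha' : bb c a χ = 0 := ha
        have hb' : bb c b χ = 0 := hb
        have h1 : bb c (a + b) χ = bb c a χ + bb c b χ := by
          unfold bb
          rw [← Finset.sum_add_distrib]
          refine Finset.sum_congr rfl fun γ _ => ?_
          rw [map_add, mul_add]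
        rw [h1, ha', hb', add_zero]
      zero_mem' := by
        change bb c 0 χ = 0
        unfold bb
        refine Finset.sum_eq_zero fun γ _ => ?_
        rw [map_zero, mul_zero]
      smul_mem' := by
        intro t a ha
        change bb c (t • a) χ = 0
        have ha' : bb c a χ = 0 := ha
        have h1 : bb c (t • a) χ = t • bb c a χ := by
          unfold bb
          rw [Finset.smul_sum]
          refine Finset.sum_congr rfl fun γ _ => ?_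
          rw [map_smul, mul_smul_comm]
        rw [h1, ha', smul_zero] }
  have hex : ∃ ζ : Z, ∀ χ : A →* Lˣ, bb c ζ χ ≠ 0 := by
    by_contra hcon
    push Not at hcon
    have h1 : ⋃ χ, (pp χ : Set Z) = Set.univ := by
      rw [Set.eq_univ_iff_forall]
      intro ζ
      obtain ⟨χ, hχ⟩ := hcon ζ
      exact Set.mem_iUnion.2 ⟨χ, hχ⟩
    obtain ⟨χ, hχ⟩ := Subspace.exists_eq_top_of_iUnion_eq_univ h1
    obtain ⟨ζ, hζ⟩ := bb_ne (K := K) (Z := Z) c χ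
    apply hζ
    have h2 : ζ ∈ pp χ := by
      rw [hχ]
      exact Submodule.mem_top
    exact h2
  obtain ⟨ζ, hζ⟩ := hex
  exact ⟨fun χ => bb c ζ χ, hζ, fun hπ hc χ γ => bb_act π hπ θ c hc ζ χ γ⟩

end kum

end Pool.Agent.K3h17.T
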