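import Mathlib
import Pool.Agent.K3h17.T.Ge
import Pool.Agent.K3h79.IGP.Emb

set_option autoImplicit false
set_option linter.unusedSectionVars false
set_option linter.unusedSimpArgs false

/-!
The class of the labels.
-/

namespace Pool.Agent.K3h17.T

open Polynomial Pool.Agent.H391R2 Pool.Agent.H391R2.T4 Pool.Agent.Y793

theorem alg_prod {L N A I : Type} [Field L] [Field N] [Algebra L N] [CommGroup A] [Fintype I]
    (χ : A →* Lˣ) (f : I → A) : algebraMap L N ((χ (∏ i, f i) : Lˣ) : L) =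
      ∏ i, algebraMap L N ((χ (f i) : Lˣ) : L) := by
  rw [map_prod, Units.coe_prod, map_prod]

section rel

variable {K L Z : Type} [Field K] [CharZero K] [Field L] [Algebra K L] [FiniteDimensional K L]
  [Field Z] [Algebra (RatFunc K) Z] [Algebra L Z] [Algebra K Z] [IsScalarTower K (RatFunc K) Z]
  [IsScalarTower K L Z] [FiniteDimensional (RatFunc K) Z] [IsGalois (RatFunc K) Z]
  (π : (Z ≃ₐ[RatFunc K] Z) →* (L ≃ₐ[K] L))
  (hπ : ∀ (σ : Z ≃ₐ[RatFunc K] Z) (x : L), σ (algebraMap L Z x) = algebraMap L Z (π σ x))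
  {A : Type} [CommGroup A] (θ : (L ≃ₐ[K] L) →* MulAut A)
  {P : Subgroup (Z ≃ₐ[RatFunc K] Z)} (c : P → A) (b : (A →* Lˣ) → Z)
  (hb : ∀ (χ : A →* Lˣ) (γ : P), (γ : Z ≃ₐ[RatFunc K] Z) (b χ) =
    algebraMap L Z ((tw θ (π γ) χ (c γ) : Lˣ) : L) * b (tw θ (π γ) χ))
  {I : Type} [Fintype I] (cr : I → (Z ≃ₐ[RatFunc K] Z)) (hcr1 : ∀ q, π (cr q) = 1)
  (pm : (Z ≃ₐ[RatFunc K] Z) → Equiv.Perm I)
  (hpm : ∀ x q, (cr (pm x q))⁻¹ * x * cr q ∈ P)
  (t : (L ≃ₐ[K] L) → A)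
  (hT : ∀ x, ∏ q, c ⟨(cr (pm x q))⁻¹ * x * cr q, hpm x q⟩ = t (π x))
  {N : Type} [Field N] [Algebra K N] [Algebra L N] [IsScalarTower K L N]

include hπ hb hcr1 hT in
theorem sig_base (χ : A →* Lˣ) (y : Z ≃ₐ[RatFunc K] Z) :
    y (∏ q, cr q (b χ)) = algebraMap L Z ((tw θ (π y) χ (t (π y)) : Lˣ) : L) *
      ∏ q, cr q (b (tw θ (π y) χ)) := by
  have h0 : ∀ q, π ((cr (pm y q))⁻¹ * y * cr q) = π y := by
    intro q
    rw [map_mul, map_mul, map_inv, hcr1, hcr1, inv_one, one_mul, mul_one]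
  have h1 : ∀ q, y (cr q (b χ)) =
      algebraMap L Z ((tw θ (π y) χ (c ⟨(cr (pm y q))⁻¹ * y * cr q, hpm y q⟩) : Lˣ) : L) *
        cr (pm y q) (b (tw θ (π y) χ)) := by
    intro q
    have h2 := hb χ ⟨(cr (pm y q))⁻¹ * y * cr q, hpm y q⟩
    change ((cr (pm y q))⁻¹ * y * cr q : Z ≃ₐ[RatFunc K] Z) (b χ) =
      algebraMap L Z ((tw θ (π ((cr (pm y q))⁻¹ * y * cr q)) χ
        (c ⟨(cr (pm y q))⁻¹ * y * cr q, hpm y q⟩) : Lˣ) : L) *
        b (tw θ (π ((cr (pm y q))⁻¹ * y * cr q)) χ) at h2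
    rw [h0] at h2
    have h3 : y (cr q (b χ)) = cr (pm y q) (((cr (pm y q))⁻¹ * y * cr q) (b χ)) := by
      change y (cr q (b χ)) = cr (pm y q) ((cr (pm y q))⁻¹ (y (cr q (b χ))))
      exact ((cr (pm y q)).apply_symm_apply _).symm
    rw [h3, h2, map_mul, hπ, hcr1]
    rfl
  rw [map_prod, Finset.prod_congr rfl fun q _ => h1 q, Finset.prod_mul_distrib,
    Equiv.prod_comp (pm y) (fun q => cr q (b (tw θ (π y) χ))), ← hT y, alg_prod]

variable {n k : ℕ} (φ : Fin n → (Z →ₐ[L] N)) (Ψ : Fin (2 * k + 1) → (Z →ₐ[L] N))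

/-- The norm quotient. -/
noncomputable def FQ (z : Z) : N := (∏ i, φ i z) / ∏ j, Ψ j (∏ q, cr q z)

theorem FQ_mul (z w : Z) : FQ cr φ Ψ (z * w) = FQ cr φ Ψ z * FQ cr φ Ψ w := by
  unfold FQ
  rw [div_mul_div_comm, ← Finset.prod_mul_distrib, ← Finset.prod_mul_distrib]
  congr 1
  · exact Finset.prod_congr rfl fun i _ => map_mul _ _ _
  · refine Finset.prod_congr rfl fun j _ => ?_
    rw [← map_mul, ← Finset.prod_mul_distrib]
    congr 1
    exact Finset.prod_congr rfl fun q _ => map_mul _ _ _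

theorem FQ_ne {z : Z} (hz : z ≠ 0) : FQ cr φ Ψ z ≠ 0 := by
  unfold FQ
  refine div_ne_zero (Finset.prod_ne_zero_iff.2 fun i _ => (_root_.map_ne_zero _).2 hz)
    (Finset.prod_ne_zero_iff.2 fun j _ => (_root_.map_ne_zero _).2
      (Finset.prod_ne_zero_iff.2 fun q _ => (_root_.map_ne_zero _).2 hz))

include hπ hb hcr1 hT in
theorem sig_FQ (σ : N ≃ₐ[K] N) (ρ : L ≃ₐ[K] L)
    (hρ : ∀ l, σ (algebraMap L N l) = algebraMap L N (ρ l)) (x : Wr P n)
    (hx : ∀ i z, σ (φ i z) = φ (x.right i) ((x.left (x.right i) : Z ≃ₐ[RatFunc K] Z) z))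
    (τ : Equiv.Perm (Fin (2 * k + 1))) (y : Fin (2 * k + 1) → (Z ≃ₐ[RatFunc K] Z))
    (hy : ∀ j z, σ (Ψ j z) = Ψ (τ j) (y j z)) (χ : A →* Lˣ) :
    σ (FQ cr φ Ψ (b χ)) * algebraMap L N ((tw θ ρ χ (t ρ ^ (2 * k + 1)) : Lˣ) : L) =
      algebraMap L N ((tw θ ρ χ (∏ i, c (x.left i)) : Lˣ) : L) *
        FQ cr φ Ψ (b (tw θ ρ χ)) := by
  have hx1 : ∀ i, π (x.left i : Z ≃ₐ[RatFunc K] Z) = ρ := by
    intro i
    obtain ⟨j, rfl⟩ := x.right.surjective i
    apply AlgEquiv.ext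
    intro l
    apply (algebraMap L N).injective
    have h1 := hx j (algebraMap L Z l)
    rw [AlgHom.commutes, hρ, hπ, AlgHom.commutes] at h1
    exact h1.symm
  have hy1 : ∀ j, π (y j) = ρ := by
    intro j
    apply AlgEquiv.ext
    intro l
    apply (algebraMap L N).injective
    have h1 := hy j (algebraMap L Z l)
    rw [AlgHom.commutes, hρ, hπ, AlgHom.commutes] at h1
    exact h1.symm
  have hnum : σ (∏ i, φ i (b χ)) = algebraMap L N ((tw θ ρ χ (∏ i, c (x.left i)) : Lˣ) : L) *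
      ∏ i, φ i (b (tw θ ρ χ)) := by
    rw [map_prod]
    have h1 : ∀ i, σ (φ i (b χ)) =
        algebraMap L N ((tw θ ρ χ (c (x.left (x.right i))) : Lˣ) : L) *
          φ (x.right i) (b (tw θ ρ χ)) := by
      intro i
      rw [hx i, hb χ (x.left (x.right i)), hx1, map_mul, AlgHom.commutes]
    rw [Finset.prod_congr rfl fun i _ => h1 i, Finset.prod_mul_distrib,
      Equiv.prod_comp x.right (fun i => φ i (b (tw θ ρ χ))),
      Equiv.prod_comp x.right (fun i => algebraMap L N ((tw θ ρ χ (c (x.left i)) : Lˣ) : L)),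
      ← alg_prod]
  have hden : σ (∏ j, Ψ j (∏ q, cr q (b χ))) =
      algebraMap L N ((tw θ ρ χ (t ρ ^ (2 * k + 1)) : Lˣ) : L) *
        ∏ j, Ψ j (∏ q, cr q (b (tw θ ρ χ))) := by
    rw [map_prod]
    have h1 : ∀ j, σ (Ψ j (∏ q, cr q (b χ))) =
        algebraMap L N ((tw θ ρ χ (t ρ) : Lˣ) : L) *
          Ψ (τ j) (∏ q, cr q (b (tw θ ρ χ))) := by
      intro j
      rw [hy j, sig_base π hπ θ c b hb cr hcr1 pm hpm t hT χ (y j), hy1, map_mul,
        AlgHom.commutes]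
    rw [Finset.prod_congr rfl fun j _ => h1 j, Finset.prod_mul_distrib,
      Equiv.prod_comp τ (fun j => Ψ j (∏ q, cr q (b (tw θ ρ χ)))), Finset.prod_const,
      Finset.card_univ, Fintype.card_fin, ← map_pow, map_pow (tw θ ρ χ), Units.val_pow_eq_pow_val]
  have h0 : algebraMap L N ((tw θ ρ χ (t ρ ^ (2 * k + 1)) : Lˣ) : L) ≠ 0 :=
    (_root_.map_ne_zero _).2 (Units.ne_zero _)
  unfold FQ
  rw [map_div₀, hnum, hden, div_mul_eq_mul_div, mul_div_assoc', mul_comm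
    (algebraMap L N ((tw θ ρ χ (t ρ ^ (2 * k + 1)) : Lˣ) : L)) (∏ j, _), mul_div_mul_right _ _ h0]

/-- The class of the labels, given the product formula. -/
theorem cls0 [Finite A] [HasEnoughRootsOfUnity L (Monoid.exponent A)]
    (hπ : ∀ (σ : Z ≃ₐ[RatFunc K] Z) (x : L), σ (algebraMap L Z x) = algebraMap L Z (π σ x))
    (hb : ∀ (χ : A →* Lˣ) (γ : P), (γ : Z ≃ₐ[RatFunc K] Z) (b χ) =
      algebraMap L Z ((tw θ (π γ) χ (c γ) : Lˣ) : L) * b (tw θ (π γ) χ))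
    (hcr1 : ∀ q, π (cr q) = 1)
    (hT : ∀ x, ∏ q, c ⟨(cr (pm x q))⁻¹ * x * cr q, hpm x q⟩ = t (π x))
    (hb0 : ∀ χ, b χ ≠ 0)
    (hF : ∀ χ χ', FQ cr φ Ψ (b (χ * χ')) = FQ cr φ Ψ (b χ) * FQ cr φ Ψ (b χ'))
    (CC : (N ≃ₐ[K] N) → Prop)
    (hy : ∀ (σ : N ≃ₐ[K] N), CC σ → ∃ (τ : Equiv.Perm (Fin (2 * k + 1)))
      (y : Fin (2 * k + 1) → (Z ≃ₐ[RatFunc K] Z)), ∀ j z, σ (Ψ j z) = Ψ (τ j) (y j z)) :
    ∃ a : A, ∀ (σ : N ≃ₐ[K] N), CC σ → ∀ (ρ : L ≃ₐ[K] L),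
      (∀ l, σ (algebraMap L N l) = algebraMap L N (ρ l)) → ∀ x : Wr P n,
      (∀ i z, σ (φ i z) = φ (x.right i) ((x.left (x.right i) : Z ≃ₐ[RatFunc K] Z) z)) →
      (∏ i, c (x.left i)) * a = t ρ ^ (2 * k + 1) * θ ρ a := by
  classical
  let R : (A →* Lˣ) →* Nˣ := MonoidHom.mk' (fun χ => Units.mk0 _ (FQ_ne cr φ Ψ (hb0 χ)))
    (fun χ χ' => Units.ext (hF χ χ'))
  obtain ⟨ζ, hζ⟩ := HasEnoughRootsOfUnity.exists_primitiveRoot L (Monoid.exponent A)
  have hζN : IsPrimitiveRoot (algebraMap L N ζ) (Monoid.exponent A) :=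
    hζ.map_of_injective (algebraMap L N).injective
  have he0 : Monoid.exponent A ≠ 0 := Monoid.exponent_ne_zero_of_finite
  have hne : NeZero (Monoid.exponent A) := ⟨he0⟩
  have hR : ∀ χ, ∃ l : Lˣ, algebraMap L N (l : L) = (R χ : N) := by
    intro χ
    have h1 : χ ^ Monoid.exponent A = 1 := by
      apply MonoidHom.ext
      intro a
      rw [MonoidHom.pow_apply, ← map_pow, Monoid.pow_exponent_eq_one, map_one]
      rfl
    have h2 : ((R χ : Nˣ) : N) ^ Monoid.exponent A = 1 := by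
      rw [← Units.val_pow_eq_pow_val, ← map_pow, h1, map_one, Units.val_one]
    obtain ⟨i, -, hi⟩ := hζN.eq_pow_of_pow_eq_one h2
    refine ⟨(hζ.isUnit he0).unit ^ i, ?_⟩
    rw [Units.val_pow_eq_pow_val, IsUnit.unit_spec, map_pow, hi]
  choose r hr using hR
  let r' : (A →* Lˣ) →* Lˣ := MonoidHom.mk' r (fun χ χ' => by
    apply Units.ext
    apply (algebraMap L N).injective
    rw [Units.val_mul, map_mul, hr, hr, hr, map_mul, Units.val_mul])
  refine ⟨CommGroup.monoidHomMonoidHomEquiv A L r', fun σ hσ ρ hρ x hx => ?_⟩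
  obtain ⟨τ, y, hy'⟩ := hy σ hσ
  have ha : ∀ χ : A →* Lˣ, χ (CommGroup.monoidHomMonoidHomEquiv A L r') = r χ := fun χ =>
    CommGroup.apply_monoidHomMonoidHomEquiv L χ r'
  rw [← CommGroup.forall_apply_eq_apply_iff A (M := L)]
  intro χ₁
  obtain ⟨χ, rfl⟩ := tw_surj θ ρ χ₁
  have h1 := sig_FQ π hπ θ c b hb cr hcr1 pm hpm t hT φ Ψ σ ρ hρ x hx τ y hy' χ
  have h2 : FQ cr φ Ψ (b χ) = algebraMap L N ((r χ : Lˣ) : L) := (hr χ).symm
  have h3 : FQ cr φ Ψ (b (tw θ ρ χ)) = algebraMap L N ((r (tw θ ρ χ) : Lˣ) : L) :=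
    (hr (tw θ ρ χ)).symm
  rw [h2, h3, hρ, ← ha, ← ha, ← tw_apply' θ, ← map_mul, ← map_mul, ← Units.val_mul,
    ← Units.val_mul, ← map_mul, ← map_mul] at h1
  have h4 := Units.ext ((algebraMap L N).injective h1)
  rw [← h4, mul_comm]

end rel

theorem root_of_card {N : Type} [Field N] (p : N[X]) (hp : p ≠ 0) {d : ℕ} (hd : p.natDegree = d)
    (s : Fin d → N) (hs : Function.Injective s) (h : ∀ j, p.eval (s j) = 0) (x : N)
    (hx : p.eval x = 0) : ∃ j, s j = x := by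
  classical
  by_contra hcon
  push Not at hcon
  have h1 : insert x (Finset.univ.image s) ⊆ p.roots.toFinset := by
    intro y hy
    rw [Multiset.mem_toFinset, mem_roots hp]
    rcases Finset.mem_insert.1 hy with rfl | hy
    · exact hx
    · obtain ⟨j, -, rfl⟩ := Finset.mem_image.1 hy
      exact h j
  have h2 := Finset.card_le_card h1
  rw [Finset.card_insert_of_notMem (fun h3 => by
    obtain ⟨j, -, hj⟩ := Finset.mem_image.1 h3
    exact hcon j hj), Finset.card_image_of_injective _ hs, Finset.card_univ,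
    Fintype.card_fin] at h2
  have h4 := Multiset.toFinset_card_le p.roots
  have h5 := card_roots' p
  omega

section cls

variable {K L Z ι : Type} [Field K] [CharZero K] [Field L] [Algebra K L] [FiniteDimensional K L]
  [Field Z]
  [Algebra (RatFunc K) Z] [Algebra L Z] [Algebra K Z] [IsScalarTower K (RatFunc K) Z]
  [IsScalarTower K L Z] [Algebra (RatFunc K) (RatFunc L)] [Algebra (RatFunc L) Z]
  [IsScalarTower (RatFunc K) (RatFunc L) Z] [IsScalarTower L (RatFunc L) Z]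
  [FiniteDimensional (RatFunc K) Z] [IsGalois (RatFunc K) Z]
  [CharZero L] [FiniteDimensional (RatFunc L) Z] [IsGalois (RatFunc L) Z] [Fintype ι]
  (hp : ∀ p : K[X], algebraMap (RatFunc K) (RatFunc L) (algebraMap K[X] (RatFunc K) p) =
        algebraMap L[X] (RatFunc L) (p.map (algebraMap K L)))
  (π : (Z ≃ₐ[RatFunc K] Z) →* (L ≃ₐ[K] L))
  (hπ : ∀ (σ : Z ≃ₐ[RatFunc K] Z) (x : L), σ (algebraMap L Z x) = algebraMap L Z (π σ x))
  (d : Dat K Z ι) (hP : d.P.map π = ⊤)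

theorem SS_bc {E : Type} [CommRing E] [Algebra K E] [Algebra L E] [IsScalarTower K L E]
    (v : Option ι → E) : (d.bc hp π hπ hP).SS v = d.SS v := by
  unfold Dat.SS
  rw [hp'_bc, adr_bc (K := K)]

variable {A : Type} [CommGroup A] [Finite A] [HasEnoughRootsOfUnity L (Monoid.exponent A)]
  (θ : (L ≃ₐ[K] L) →* MulAut A) (c : d.P → A) (b : (A →* Lˣ) → Z) (hb0 : ∀ χ, b χ ≠ 0)
  (hb : ∀ (χ : A →* Lˣ) (γ : d.P), (γ : Z ≃ₐ[RatFunc K] Z) (b χ) =
    algebraMap L Z ((tw θ (π γ) χ (c γ) : Lˣ) : L) * b (tw θ (π γ) χ))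
  {I : Type} [Fintype I] (hI : Fintype.card I = d.m)
  (cr : I → (Z ≃ₐ[RatFunc K] Z)) (hcr1 : ∀ q, π (cr q) = 1)
  (hcr2 : ∀ i j, i ≠ j → (cr i)⁻¹ * cr j ∉ d.P)
  (pm : (Z ≃ₐ[RatFunc K] Z) → Equiv.Perm I)
  (hpm : ∀ x q, (cr (pm x q))⁻¹ * x * cr q ∈ d.P)
  (t : (L ≃ₐ[K] L) → A)
  (hT : ∀ x, ∏ q, c ⟨(cr (pm x q))⁻¹ * x * cr q, hpm x q⟩ = t (π x))
  (hA : ∀ χ χ', ∃ (h : Z) (V V' : Matrix (Fin d.m) (Fin d.m) L[X]), h ≠ 0 ∧
    Adp (d.bc hp π hπ hP) (h * (b χ * b χ' / b (χ * χ'))) V ∧ Adp (d.bc hp π hπ hP) h V')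
  {K₀ N : Type} [Field K₀] [Algebra L K₀] [Field N] [IsAlgClosed N] [Algebra K₀ N]
  [Algebra L N] [IsScalarTower L K₀ N] [Algebra K N] [IsScalarTower K L N] (η : Iy ι → N)
  (hη : IsTranscendenceBasis K₀ η) (hnrm : K3h17.St_nrm)

include hb0 hb hI hcr1 hcr2 hT hA hη hnrm in
/-- The class of the labels. -/
theorem cls {φ : Fin (d.m * (2 * d.k + 1)) → (Z →ₐ[L] N)} (S : (d.bc hp π hπ hP).Sy η _ φ) :
    ∃ a : A, ∀ (σ : N ≃ₐ[K] N), (∀ i, σ (η i) = η i) → ∀ (ρ : L ≃ₐ[K] L),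
      (∀ l, σ (algebraMap L N l) = algebraMap L N (ρ l)) →
      ∀ x : Wr d.P (d.m * (2 * d.k + 1)),
      (∀ i z, σ (φ i z) = φ (x.right i) ((x.left (x.right i) : Z ≃ₐ[RatFunc K] Z) z)) →
      (∏ i, c (x.left i)) * a = t ρ ^ (2 * d.k + 1) * θ ρ a := by
  classical
  obtain ⟨s, hs, hs2⟩ : ∃ s : Fin (2 * d.k + 1) → N, Function.Injective s ∧
    ∀ j, ((d.bc hp π hπ hP).SS (fun i => η (Sum.inl i))).eval (s j) = η (Sum.inr ()) :=
    (d.bc hp π hπ hP).exists_s η hη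
  have hstr : ∀ j, Transcendental L (s j) := by
    intro j h1
    exact (d.bc hp π hπ hP).S_root_not_mem η hη (hs2 j) (cl_closed ((h1.tower_top K₀).tower_top _))
  choose Ψ hΨ using fun j => K3h79.IGP.emb (K := L) (Ω := Z) (s j) (hstr j)
  choose crL hcrL using fun q => lift_ker hp π hπ (cr q) (hcr1 q)
  have hcrL2 : ∀ i j, i ≠ j → (crL i)⁻¹ * crL j ∉ (d.bc hp π hπ hP).P := by
    intro i j hij h1
    apply hcr2 i j hij
    change ((crL i)⁻¹ * crL j).restrictScalars (RatFunc K) ∈ d.P at h1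
    have h2 : ((crL i)⁻¹ * crL j).restrictScalars (RatFunc K) = (cr i)⁻¹ * cr j := by
      have h3 : (crL i).restrictScalars (RatFunc K) = cr i := AlgEquiv.ext (hcrL i)
      have h4 : (crL j).restrictScalars (RatFunc K) = cr j := AlgEquiv.ext (hcrL j)
      rw [← h3, ← h4]
      rfl
    rwa [h2] at h1
  have hPF : ∀ (w : Z) (V : Matrix (Fin d.m) (Fin d.m) L[X]), w ≠ 0 →
      Adp (d.bc hp π hπ hP) w V → FQ cr φ Ψ w = 1 := by
    intro w V hw hV
    have h1 := prod_formula (d.bc hp π hπ hP) η hη hnrm hV S s hs hs2 Ψ hΨ crL hcrL2 hI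
    have h2 : ∀ q, crL q w = cr q w := fun q => hcrL q w
    simp only [h2] at h1
    exact (div_eq_one_iff_eq (Finset.prod_ne_zero_iff.2 fun j _ => (_root_.map_ne_zero _).2
      (Finset.prod_ne_zero_iff.2 fun q _ => (_root_.map_ne_zero _).2 hw))).2 h1
  refine cls0 π θ c b cr pm hpm t φ Ψ hπ hb hcr1 hT hb0 ?_ (fun σ => ∀ i, σ (η i) = η i) ?_
  · intro χ χ'
    obtain ⟨h, V, V', hh, h1, h2⟩ := hA χ χ'
    have hw0 : b χ * b χ' / b (χ * χ') ≠ 0 :=
      div_ne_zero (mul_ne_zero (hb0 _) (hb0 _)) (hb0 _)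
    have e1 := hPF _ V (mul_ne_zero hh hw0) h1
    have e2 := hPF _ V' hh h2
    rw [FQ_mul, e2, one_mul] at e1
    rw [← FQ_mul, ← one_mul (FQ cr φ Ψ (b (χ * χ'))), ← e1, ← FQ_mul, div_mul_cancel₀ _ (hb0 _)]
  · intro σ hσ
    have hση : (fun i => (σ : N →ₐ[K] N) (η (Sum.inl i))) = fun i : Option ι => η (Sum.inl i) :=
      funext fun i => hσ _
    have hSS : (d.SS (fun i => η (Sum.inl i))).map (σ : N →+* N) =
        d.SS (fun i => η (Sum.inl i)) := by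
      have h1 := d.SS_map (σ : N →ₐ[K] N) (fun i => η (Sum.inl i))
      rw [hση] at h1
      exact h1
    have hdeg := (d.bc hp π hπ hP).SS_deg (fun i => η (Sum.inl i)) (Dat.η_ne η hη _)
    change _ = 2 * d.k + 1 at hdeg
    rw [SS_bc] at hdeg
    have hs3 : ∀ j, (d.SS (fun i => η (Sum.inl i))).eval (s j) = η (Sum.inr ()) := by
      intro j
      rw [← hs2 j, SS_bc]
    have hroot : ∀ j, ∃ j', s j' = σ (s j) := by
      intro j
      refine root_of_card (d.SS (fun i => η (Sum.inl i)) - C (η (Sum.inr ()))) ?_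
        (natDegree_sub_C.trans hdeg) s hs (fun j => ?_) _ ?_
      · intro h0
        have h1 := congrArg natDegree h0
        rw [natDegree_sub_C, hdeg, natDegree_zero] at h1
        omega
      · rw [eval_sub, eval_C, hs3, sub_self]
      · rw [eval_sub, eval_C, sub_eq_zero]
        have h1 := congrArg σ (hs3 j)
        rw [hσ] at h1
        rw [← h1]
        nth_rewrite 1 [← hSS]
        have h2 := Polynomial.eval_map_apply (f := (σ : N →+* N))
          (p := d.SS (fun i => η (Sum.inl i))) (x := s j)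
        exact h2
    choose τ hτ using hroot
    have hτi : Function.Injective τ := by
      intro i j hij
      apply hs
      apply σ.injective
      rw [← hτ, ← hτ, hij]
    have hx : ∀ j, ((Ψ (τ j)).restrictScalars K) (xx K Z) =
        ((σ : N →ₐ[K] N).comp ((Ψ j).restrictScalars K)) (xx K Z) := by
      intro j
      change Ψ (τ j) (xx K Z) = σ (Ψ j (xx K Z))
      rw [← xx_bc (L := L) (Z := Z) hp, hΨ, hΨ, hτ]
    choose y hy using fun j => K3h79.IGP.conj _ _ (hx j)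
    exact ⟨Equiv.ofBijective τ (Finite.injective_iff_bijective.1 hτi), y, fun j z => hy j z⟩

end cls

end Pool.Agent.K3h17.T
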