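import Mathlib
import Pool.Agent.K3h17.T.Gf
import Pool.Agent.K3h17.Gc
import Pool.Agent.K3h66.Evn2
import Pool.Agent.K3h66.Ort2
import Pool.Agent.K3h73.Nrm
import Pool.Agent.K3h3.Fam2.Main
import Pool.Agent.R367.IG.ArS

set_option autoImplicit false
set_option linter.unusedSectionVars false
set_option linter.unusedSimpArgs false

/-!
The core for the subgroups defined by the class and the sign.
-/

namespace Pool.Agent.K3h17.T

open Polynomial Pool.Agent.H391R2 Pool.Agent.H391R2.T4 Pool.Agent.Y793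

section ab

variable {Γ G : Type} [Group Γ] [Group G]

/-- The action on the abelianization. -/
def abA (φ : Γ →* MulAut G) : Γ →* MulAut (Abelianization G) where
  toFun ρ := MulEquiv.abelianizationCongr (φ ρ : G ≃* G)
  map_one' := by
    apply MulEquiv.ext
    intro a
    obtain ⟨g, rfl⟩ := QuotientGroup.mk_surjective a
    rw [map_one]
    rfl
  map_mul' ρ ρ' := by
    apply MulEquiv.ext
    intro a
    obtain ⟨g, rfl⟩ := QuotientGroup.mk_surjective a
    rw [map_mul]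
    rfl

theorem abA_of (φ : Γ →* MulAut G) (ρ : Γ) (g : G) :
    abA φ ρ (Abelianization.of g) = Abelianization.of (φ ρ g) := rfl

end ab

section geo

variable {K Ω ι : Type} [Field K] [CharZero K] [Field Ω] [Algebra (RatFunc K) Ω] [Algebra K Ω]
  [IsScalarTower K (RatFunc K) Ω] [FiniteDimensional (RatFunc K) Ω] [IsGalois (RatFunc K) Ω]
  [Fintype ι] (d : Dat K Ω ι)
variable {K₀ N : Type} [Field K₀] [IsAlgClosed K₀] [Algebra K K₀] [Field N] [IsAlgClosed N]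
  [Algebra K₀ N] [Algebra K N] [IsScalarTower K K₀ N] (η : Iy ι → N)
  (hη : IsTranscendenceBasis K₀ η)

include hη

/-- The geometric group contains the commutator subgroup. -/
theorem geoT (hreg : ∀ y : Ω, IsAlgebraic K y → y ∈ Set.range (algebraMap K Ω))
    (G : Type) [Group G] [Finite G] (ψ : d.P →* G) (hψ : Function.Surjective ψ)
    (hn : (4 * d.m) ^ 4 + 4 < d.m * (2 * d.k + 1))
    {φ : Fin (d.m * (2 * d.k + 1)) → (Ω →ₐ[K] N)} (S : d.Sy η _ φ)
    (w : Wr G (d.m * (2 * d.k + 1))) (hw1 : ∏ i, Abelianization.of (w.left i) = 1)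
    (hw2 : Equiv.Perm.sign w.right = 1) :
    ∃ x ∈ Dat.HH η d.P φ K₀, wrMap ψ _ x = w := by
  classical
  have hn9 : 9 ≤ d.m * (2 * d.k + 1) := by
    have h1 := d.hm0
    have h2 : 1 ≤ 4 * d.m := by omega
    have h3 : (4 * d.m) ^ 4 ≥ 4 ^ 4 := Nat.pow_le_pow_left (by omega) 4
    omega
  obtain ⟨x, hx, hx1, hx2⟩ := d.HH_sml η hη Y203.J.t_gen Y203.J.t_iso K3h79.IGP.t_lift
    K3h79.IGP.t_sml S
  have key : ∀ w : Wr G (d.m * (2 * d.k + 1)), ∏ i, Abelianization.of (w.left i) = 1 →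
      Equiv.Perm.sign w.right = 1 → w ∈ (Dat.HH η d.P φ K₀).map (wrMap ψ _) := by
    refine K3h71.IG.t_grp G _ (4 * d.m) hn9 hn ((Dat.HH η d.P φ K₀).map (wrMap ψ _)) ?_
      (wrMap ψ _ x) ⟨x, hx, rfl⟩ hx1 ?_
    · intro a b a' b' hab hab' g h
      obtain ⟨g, rfl⟩ := hψ g
      obtain ⟨h, rfl⟩ := hψ h
      obtain ⟨w, hw, e1, e2, e3, e4⟩ := d.HH_pair η hη Y203.J.t_gen Y203.J.t_iso Y241.WR.t_ext
        Y241.WR.t_star hreg S a b a' b' hab hab' g h
      exact ⟨wrMap ψ _ w, ⟨w, hw, rfl⟩, e1, e2, congrArg ψ e3, congrArg ψ e4⟩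
    · refine le_trans (Set.ncard_le_ncard ?_ (Set.toFinite _)) hx2
      intro i hi
      rcases hi with hi | hi
      · exact Or.inl hi
      · refine Or.inr fun h0 => hi ?_
        change ψ (x.left i) = 1
        rw [h0, map_one]
  obtain ⟨y, hy, hy2⟩ := key w hw1 hw2
  exact ⟨y, hy, hy2⟩

end geo

section pol

variable {L Z : Type} [Field L] [CharZero L] [Field Z] [Algebra (RatFunc L) Z] [Algebra L Z]
  [IsScalarTower L (RatFunc L) Z] [FiniteDimensional (RatFunc L) Z] [IsGalois (RatFunc L) Z]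

/-- A square root of a polynomial which is fixed by the Galois group is a polynomial. -/
theorem sqrt_pol (g : Z) (q : L[X]) (hg : g ^ 2 = aeval (xx L Z) q)
    (hf : ∀ γ : Z ≃ₐ[RatFunc L] Z, γ g = g) : ∃ p : L[X], g = aeval (xx L Z) p ∧ p ^ 2 = q := by
  have h1 : g ∈ Set.range (algebraMap (RatFunc L) Z) := by
    rw [IsGalois.mem_range_algebraMap_iff_fixed]
    exact hf
  obtain ⟨g', rfl⟩ := h1
  have h2 : g' ^ 2 = algebraMap L[X] (RatFunc L) q := by
    apply (algebraMap (RatFunc L) Z).injective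
    rw [map_pow, hg, K3h53.Fam.aeval_xx]
  obtain ⟨p, hp⟩ := IsIntegrallyClosed.exists_algebraMap_eq_of_isIntegral_pow (R := L[X])
    (n := 2) (by norm_num) (x := g') (by
      rw [h2]
      exact isIntegral_algebraMap)
  refine ⟨p, ?_, ?_⟩
  · rw [← hp, K3h53.Fam.aeval_xx]
  · apply RatFunc.algebraMap_injective L
    rw [map_pow, hp, h2]

end pol

section coreT

variable {K L Z ι : Type} [Field K] [CharZero K] [Field L] [Algebra K L] [FiniteDimensional K L]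
  [IsGalois K L] [Field Z]
  [Algebra (RatFunc K) Z] [Algebra L Z] [Algebra K Z] [IsScalarTower K (RatFunc K) Z]
  [IsScalarTower K L Z] [Algebra (RatFunc K) (RatFunc L)] [Algebra (RatFunc L) Z]
  [IsScalarTower (RatFunc K) (RatFunc L) Z] [IsScalarTower L (RatFunc L) Z]
  [FiniteDimensional (RatFunc K) Z] [IsGalois (RatFunc K) Z]
  [CharZero L] [FiniteDimensional (RatFunc L) Z] [IsGalois (RatFunc L) Z] [Fintype ι]

/-- The core for given data. -/
theorem coreT0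
    (hp : ∀ p : K[X], algebraMap (RatFunc K) (RatFunc L) (algebraMap K[X] (RatFunc K) p) =
      algebraMap L[X] (RatFunc L) (p.map (algebraMap K L)))
    (π : (Z ≃ₐ[RatFunc K] Z) →* (L ≃ₐ[K] L))
    (hπ : ∀ (σ : Z ≃ₐ[RatFunc K] Z) (x : L), σ (algebraMap L Z x) = algebraMap L Z (π σ x))
    (hreg : ∀ y : Z, IsAlgebraic L y → y ∈ Set.range (algebraMap L Z))
    (d : Dat K Z ι) (hP : d.P.map π = ⊤)
    (G : Type) [Group G] [Finite G] (φ : (L ≃ₐ[K] L) →* MulAut G)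
    [HasEnoughRootsOfUnity L (Monoid.exponent (Abelianization G))]
    (ψ : d.P →* G ⋊[φ] (L ≃ₐ[K] L)) (hψ1 : ∀ γ, (ψ γ).right = π γ) (hψ : Function.Surjective ψ)
    (b : (Abelianization G →* Lˣ) → Z) (hb0 : ∀ χ, b χ ≠ 0)
    (hb : ∀ (χ : Abelianization G →* Lˣ) (γ : d.P), (γ : Z ≃ₐ[RatFunc K] Z) (b χ) =
      algebraMap L Z ((tw (abA φ) (π γ) χ (Abelianization.of (ψ γ).left) : Lˣ) : L) *
        b (tw (abA φ) (π γ) χ))
    {I : Type} [Fintype I] (hI : Fintype.card I = d.m)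
    (cr : I → (Z ≃ₐ[RatFunc K] Z)) (hcr1 : ∀ q, π (cr q) = 1)
    (hcr2 : ∀ i j, i ≠ j → (cr i)⁻¹ * cr j ∉ d.P)
    (pm : (Z ≃ₐ[RatFunc K] Z) → Equiv.Perm I)
    (hpm : ∀ x q, (cr (pm x q))⁻¹ * x * cr q ∈ d.P)
    (t : (L ≃ₐ[K] L) → Abelianization G)
    (hT : ∀ x, ∏ q, Abelianization.of (ψ ⟨(cr (pm x q))⁻¹ * x * cr q, hpm x q⟩).left = t (π x))
    (hA : ∀ χ χ', ∃ (h : Z) (V V' : Matrix (Fin d.m) (Fin d.m) L[X]), h ≠ 0 ∧
      Adp (d.bc hp π hπ hP) (h * (b χ * b χ' / b (χ * χ'))) V ∧ Adp (d.bc hp π hπ hP) h V')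
    (χ : (L ≃ₐ[K] L) → ℤˣ) (hχ1 : χ 1 = 1) (g : Z)
    (hg : g ^ 2 = ∏ r, aeval (xx K Z) (d.D r))
    (hgs : ∀ x : Z ≃ₐ[RatFunc K] Z, x g = (((χ (π x) : ℤˣ) : ℤ) : Z) * g)
    (hn : (4 * d.m) ^ 4 + 4 < d.m * (2 * d.k + 1))
    (T : Subgroup (EG φ (d.m * (2 * d.k + 1))))
    (hTT : ∀ z, z ∈ T ↔ ∏ i, Abelianization.of (z.left.left i) = t z.right ^ (2 * d.k + 1) ∧
        Equiv.Perm.sign z.left.right = χ z.right ^ (2 * d.k + 1)) :
    RegSol K L T ((SemidirectProduct.rightHom : EG φ _ →* (L ≃ₐ[K] L)).comp T.subtype) := by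
  classical
  have hcZ : CharZero Z := charZero_of_injective_algebraMap (algebraMap K Z).injective
  -- the data over `L`
  let dL : Dat L Z ι := d.bc hp π hπ hP
  let k₀ := AlgebraicClosure K
  let jL : L →ₐ[K] k₀ := IsAlgClosed.lift
  let iL : Algebra L k₀ := jL.toRingHom.toAlgebra
  have tKL : IsScalarTower K L k₀ := .of_algebraMap_eq fun x => (jL.commutes x).symm
  have halgL : Algebra.IsAlgebraic L k₀ := Algebra.IsAlgebraic.tower_top (K := K) L
  obtain ⟨N, i1, i2, i3, η, hη⟩ := exists_trb k₀ (Iy ι)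
  let i4 : Algebra K N := ((algebraMap k₀ N).comp (algebraMap K k₀)).toAlgebra
  let i4L : Algebra L N := ((algebraMap k₀ N).comp (algebraMap L k₀)).toAlgebra
  have i5 : IsScalarTower K k₀ N := .of_algebraMap_eq fun _ => rfl
  have i5L : IsScalarTower L k₀ N := .of_algebraMap_eq fun _ => rfl
  have i6 : IsScalarTower K L N := .of_algebraMap_eq fun x => by
    rw [IsScalarTower.algebraMap_apply K k₀ N, IsScalarTower.algebraMap_apply K L k₀,
      ← IsScalarTower.algebraMap_apply L k₀ N]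
  have hcN : CharZero N := charZero_of_injective_algebraMap (algebraMap K N).injective
  obtain ⟨ϕ, S⟩ : ∃ ϕ : Fin (d.m * (2 * d.k + 1)) → (Z →ₐ[L] N), dL.Sy η _ ϕ :=
    dL.ex_sy η hη Y203.J.t_gen Y203.J.t_iso K3h79.IGP.t_lift
  let φK : Fin (d.m * (2 * d.k + 1)) → (Z →ₐ[K] N) := fun i => (ϕ i).restrictScalars K
  have hφL : ∀ i (b : L), φK i (algebraMap L Z b) = algebraMap L N b := fun i b =>
    (ϕ i).commutes b
  have SK : d.Sy η _ φK := by
    refine d.sy_of η hη Y203.J.t_gen Y203.J.t_iso φK (fun i => ?_) (fun i j γ hγ h => ?_)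
    · have h1 := S.pt i
      unfold Dat.Pt at h1 ⊢
      rw [← h1]
      exact (BF_bc hp π hπ d hP _ _ (ϕ i)).symm
    · have h1 : π γ = 1 := by
        apply AlgEquiv.ext
        intro b
        apply (algebraMap L N).injective
        have h2 := h (algebraMap L Z b)
        rw [hπ, hφL, hφL] at h2
        exact h2.symm
      obtain ⟨γ', hγ'⟩ := lift_ker hp π hπ γ h1
      refine S.ne i j γ' ?_ fun z => ?_
      · change γ'.restrictScalars (RatFunc K) ∈ d.P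
        have h3 : γ'.restrictScalars (RatFunc K) = γ := AlgEquiv.ext hγ'
        rw [h3]
        exact hγ
      · rw [hγ']
        exact h z
  -- the class
  obtain ⟨a, ha⟩ := cls hp π hπ d hP (abA φ) (fun γ => Abelianization.of (ψ γ).left) b hb0 hb hI
    cr hcr1 hcr2 pm hpm t hT hA η hη K3h73.Nrm.t_nrm S
  obtain ⟨g₀, hg₀⟩ : ∃ g₀ : G, Abelianization.of g₀ = a := QuotientGroup.mk_surjective a
  have hn0 : 0 < d.m * (2 * d.k + 1) := Nat.mul_pos d.hm0 (Nat.succ_pos _)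
  let i₀ : Fin (d.m * (2 * d.k + 1)) := ⟨0, hn0⟩
  let cc : Fin (d.m * (2 * d.k + 1)) → G := fun i => if i = i₀ then g₀⁻¹ else 1
  have hcc : ∏ i, Abelianization.of (cc i) = a⁻¹ := by
    rw [Finset.prod_eq_single i₀]
    · simp only [cc, if_true, map_inv, hg₀]
    · intro i _ hi
      simp only [cc, if_neg hi, map_one]
    · intro h
      exact absurd (Finset.mem_univ _) h
  have hccπ : ∀ (τ : Equiv.Perm (Fin (d.m * (2 * d.k + 1)))),
      ∏ i, Abelianization.of (cc (τ i)) = a⁻¹ := fun τ =>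
    (Equiv.prod_comp τ (fun i => Abelianization.of (cc i))).trans hcc
  -- the sign
  obtain ⟨gL, hgL, hgL2⟩ := sqrt_pol (L := L) (Z := Z) g (∏ r, mpL K L (d.D r)) (by
    rw [hg, map_prod]
    refine Finset.prod_congr rfl fun r _ => ?_
    rw [aev_bc hp]) (fun γ => by
    have h1 := hgs (γ.restrictScalars (RatFunc K))
    rw [ker_restrict π hπ γ, hχ1, Units.val_one, Int.cast_one, one_mul] at h1
    exact h1)
  have hgLρ : ∀ ρ : L ≃ₐ[K] L, gL.map (ρ : L →+* L) = C (((χ ρ : ℤˣ) : ℤ) : L) * gL := by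
    intro ρ
    have h1 : ρ ∈ d.P.map π := by
      rw [hP]
      exact Subgroup.mem_top _
    obtain ⟨γ, -, rfl⟩ := Subgroup.mem_map.1 h1
    have h2 : aeval (xx L Z) (gL.map ((π γ : L ≃ₐ[K] L) : L →+* L)) = γ g := by
      rw [hgL]
      have h3 : ∀ p : L[X], aeval (xx L Z) (p.map ((π γ : L ≃ₐ[K] L) : L →+* L)) =
          γ (aeval (xx L Z) p) := by
        intro p
        induction p using Polynomial.induction_on' with
        | add p q hp hq => rw [Polynomial.map_add, map_add, map_add, map_add, hp, hq]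
        | monomial n a =>
          rw [map_monomial, aeval_monomial, aeval_monomial, map_mul, map_pow, hπ, xx_bc hp]
          congr 2
          exact (γ.commutes _).symm
      exact h3 gL
    have h3 : aeval (xx L Z) (C (((χ (π γ) : ℤˣ) : ℤ) : L) * gL) = γ g := by
      rw [map_mul, aeval_C, hgs γ, ← hgL, map_intCast]
    have h4 : aeval (xx L Z) (gL.map ((π γ : L ≃ₐ[K] L) : L →+* L) -
        C (((χ (π γ) : ℤˣ) : ℤ) : L) * gL) = 0 := by
      rw [map_sub, h2, h3, sub_self]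
    exact sub_eq_zero.1 (K3h53.Fam.aeval_xx_eq_zero h4)
  have hsign : ∀ (σ : N ≃ₐ[K] N) (ρ : L ≃ₐ[K] L), (∀ v, σ (η v) = η v) →
      (∀ a : L, σ (algebraMap L N a) = algebraMap L N (ρ a)) →
      ∀ x : Wr d.P (d.m * (2 * d.k + 1)), Rx φK σ x →
        Equiv.Perm.sign x.right = χ ρ ^ (2 * d.k + 1) := by
    intro σ ρ hσ1 hσ2 x hx
    refine d.even_x η hη K3h66.Evn2.t_evn2 Y203.J.t_gen Y203.J.t_iso SK σ hσ1
      (gL.map (algebraMap L N)) (χ ρ) ?_ ?_ x hx
    · rw [← Polynomial.map_pow, hgL2, Polynomial.map_prod]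
      refine Finset.prod_congr rfl fun r _ => ?_
      rw [mpL, Polynomial.map_map, ← IsScalarTower.algebraMap_eq]
    · rw [Polynomial.map_map]
      have h1 : (σ : N →+* N).comp (algebraMap L N) =
          (algebraMap L N).comp (ρ : L →+* L) := RingHom.ext hσ2
      rw [h1, ← Polynomial.map_map, hgLρ, Polynomial.map_mul, map_C, map_intCast]
  -- the labels over `L`
  let ψL : dL.P →* G :=
    { toFun := fun γ => (ψ ⟨γ.1.restrictScalars (RatFunc K), γ.2⟩).left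
      map_one' := by
        have h1 : (⟨(1 : dL.P).1.restrictScalars (RatFunc K), (1 : dL.P).2⟩ : d.P) = 1 := rfl
        rw [h1, map_one]
        rfl
      map_mul' := fun a b => by
        have h1 : (⟨(a * b).1.restrictScalars (RatFunc K), (a * b).2⟩ : d.P) =
            ⟨a.1.restrictScalars (RatFunc K), a.2⟩ * ⟨b.1.restrictScalars (RatFunc K), b.2⟩ := rfl
        have h2 : (ψ ⟨a.1.restrictScalars (RatFunc K), a.2⟩).right = 1 := by
          rw [hψ1]
          exact ker_restrict π hπ a.1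
        rw [h1, map_mul, SemidirectProduct.mul_left, h2, map_one]
        rfl }
  have hψL : Function.Surjective ψL := by
    intro g'
    obtain ⟨γ, hγ⟩ := hψ (SemidirectProduct.inl g')
    have h1 : π γ = 1 := by
      rw [← hψ1, hγ]
      rfl
    obtain ⟨γ', hγ'⟩ := lift_ker hp π hπ γ.1 h1
    have h3 : γ'.restrictScalars (RatFunc K) = γ := AlgEquiv.ext hγ'
    refine ⟨⟨γ', ?_⟩, ?_⟩
    · change γ'.restrictScalars (RatFunc K) ∈ d.P
      rw [h3]
      exact γ.2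
    · have h4 : ψ ⟨γ'.restrictScalars (RatFunc K), by rw [h3]; exact γ.2⟩ = ψ γ :=
        congrArg ψ (Subtype.ext h3)
      change (ψ ⟨γ'.restrictScalars (RatFunc K), _⟩).left = g'
      rw [h4, hγ]
      rfl
  have hgeo := fun w hw1 hw2 => geoT (K := L) (Ω := Z) dL η hη hreg G ψL hψL hn S w hw1 hw2
  -- the function `θ`
  obtain ⟨θ, hθ⟩ := exists_theta (((SemidirectProduct.inr :
    (L ≃ₐ[K] L) →* G ⋊[φ] (L ≃ₐ[K] L)).range.comap ψ).map d.P.subtype)
  have hθ' : ∀ γ : d.P, (γ : Z ≃ₐ[RatFunc K] Z) θ = θ ↔ (ψ γ).left = 1 := by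
    intro γ
    rw [hθ]
    constructor
    · rintro ⟨γ', ⟨ρ, h1⟩, h2⟩
      have h3 : γ' = γ := Subtype.ext h2
      rw [← h3, ← h1]
      rfl
    · intro h
      exact ⟨γ, ⟨(ψ γ).right, SemidirectProduct.ext h.symm rfl⟩, rfl⟩
  let s : G → d.P := fun g' => Function.surjInv hψ (SemidirectProduct.inl g')
  have hs : ∀ g', ψ (s g') = SemidirectProduct.inl g' := fun g' => Function.surjInv_eq hψ _
  have hval : ∀ (γ γ' : d.P), (ψ γ).left = (ψ γ').left ↔
      (γ : Z ≃ₐ[RatFunc K] Z) θ = (γ' : Z ≃ₐ[RatFunc K] Z) θ := by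
    intro γ γ'
    have h1 := hθ' (γ'⁻¹ * γ)
    have h0 : (ψ (γ'⁻¹ * γ)).left = φ ((ψ γ').right⁻¹) ((ψ γ').left⁻¹ * (ψ γ).left) := by
      rw [map_mul, map_inv, SemidirectProduct.mul_left, SemidirectProduct.inv_left,
        SemidirectProduct.inv_right, ← map_mul]
    rw [h0, map_eq_one_iff _ (MulEquiv.injective _), inv_mul_eq_one] at h1
    rw [show ((ψ γ).left = (ψ γ').left) = ((ψ γ').left = (ψ γ).left) from propext eq_comm, ← h1]
    change (γ' : Z ≃ₐ[RatFunc K] Z)⁻¹ ((γ : Z ≃ₐ[RatFunc K] Z) θ) = θ ↔ _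
    constructor
    · intro h
      have h2 := congrArg (γ' : Z ≃ₐ[RatFunc K] Z) h
      have h3 : (γ' : Z ≃ₐ[RatFunc K] Z) ((γ' : Z ≃ₐ[RatFunc K] Z)⁻¹
          ((γ : Z ≃ₐ[RatFunc K] Z) θ)) = (γ : Z ≃ₐ[RatFunc K] Z) θ :=
        (γ' : Z ≃ₐ[RatFunc K] Z).apply_symm_apply _
      rw [h3] at h2
      exact h2
    · intro h
      rw [h]
      exact (γ' : Z ≃ₐ[RatFunc K] Z).symm_apply_apply _
  have hact : ∀ (σ : N → N) (ρ : L ≃ₐ[K] L) (x : Wr d.P (d.m * (2 * d.k + 1))), Rx φK σ x →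
      (∀ j, π (x.left j : Z ≃ₐ[RatFunc K] Z) = ρ) → ∀ i,
      σ (φK i (xx K Z)) = φK (x.right i) (xx K Z) ∧
      ∀ g', σ (φK i ((s g' : Z ≃ₐ[RatFunc K] Z) θ)) =
        φK (x.right i) ((s ((ψ (x.left (x.right i))).left * φ ρ g') : Z ≃ₐ[RatFunc K] Z) θ) := by
    intro σ ρ x hx hρ i
    refine ⟨?_, fun g' => ?_⟩
    · rw [hx i]
      congr 1
      rw [xx, AlgEquiv.commutes]
    · rw [hx i]
      congr 1
      have h1 : (ψ (x.left (x.right i) * s g')).left =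
          (ψ (s ((ψ (x.left (x.right i))).left * φ ρ g'))).left := by
        rw [hs, map_mul, hs, SemidirectProduct.mul_left, hψ1, hρ]
        rfl
      exact (hval _ _).1 h1
  -- the assembly
  refine R367.IG.arith_sub K L k₀ N (Iy ι) η hη G φ _ T (fun i => φK i (xx K Z))
    (d.x_inj η hη Y203.J.t_gen Y203.J.t_iso φK SK.pt SK.ne)
    (fun i g' => φK i ((s (cc i * g') : Z ≃ₐ[RatFunc K] Z) θ)) ?_ ?_ ?_
  · intro i g₁ g₂ h
    have h1 : (s (cc i * g₁) : Z ≃ₐ[RatFunc K] Z) θ = (s (cc i * g₂) : Z ≃ₐ[RatFunc K] Z) θ :=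
      (φK i).injective h
    have h2 := (hval _ _).2 h1
    rw [hs, hs] at h2
    exact mul_left_cancel h2
  · intro σ ρ hσ1 hσ2
    obtain ⟨x, hx⟩ := d.exists_x0 η SK σ hσ1
    have hxρ : ∀ j, π (x.left j : Z ≃ₐ[RatFunc K] Z) = ρ := by
      intro j
      obtain ⟨i, rfl⟩ := x.right.surjective j
      apply AlgEquiv.ext
      intro b
      apply (algebraMap L N).injective
      have h5 := hx i (algebraMap L Z b)
      rw [hφL, hπ, hφL, hσ2] at h5
      exact h5.symm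
    have hcl := ha σ hσ1 ρ hσ2 x hx
    refine ⟨⟨fun j => (cc j)⁻¹ * (ψ (x.left j)).left * φ ρ (cc (x.right.symm j)), x.right⟩,
      (hTT _).2 ⟨?_, hsign σ ρ hσ1 hσ2 x hx⟩, fun i => ⟨(hact σ ρ x hx hxρ i).1, fun g' => ?_⟩⟩
    · change ∏ j, Abelianization.of ((cc j)⁻¹ * (ψ (x.left j)).left * φ ρ (cc (x.right.symm j))) =
        t ρ ^ (2 * d.k + 1)
      simp only [map_mul, map_inv, Finset.prod_mul_distrib, Finset.prod_inv_distrib, ← abA_of]
      have e1 : ∏ j, abA φ ρ (Abelianization.of (cc (x.right.symm j))) = (abA φ ρ a)⁻¹ := by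
        rw [← map_inv, ← hccπ x.right.symm, map_prod]
      rw [hcc, e1, inv_inv, ← div_eq_mul_inv, div_eq_iff_eq_mul, ← hcl, mul_comm]
    · change σ (φK i ((s (cc i * g') : Z ≃ₐ[RatFunc K] Z) θ)) =
        φK (x.right i) ((s (cc (x.right i) * ((cc (x.right i))⁻¹ *
          (ψ (x.left (x.right i))).left * φ ρ (cc (x.right.symm (x.right i))) * φ ρ g')) :
            Z ≃ₐ[RatFunc K] Z) θ)
      rw [(hact σ ρ x hx hxρ i).2, map_mul, Equiv.symm_apply_apply]
      congr 4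
      group
  · intro x hx
    obtain ⟨h1, h2⟩ := (hTT _).1 hx
    obtain ⟨h3, h4⟩ := (hTT _).1 T.one_mem
    have h5 : t 1 ^ (2 * d.k + 1) = 1 := by
      refine h3.symm.trans (Finset.prod_eq_one fun i _ => ?_)
      exact map_one _
    have h6 : χ 1 ^ (2 * d.k + 1) = 1 := by rw [hχ1, one_pow]
    have h7 : ∏ i, Abelianization.of (x.left i) = 1 := by
      rw [← h5]
      exact h1
    have h8 : Equiv.Perm.sign x.right = 1 := by
      rw [← h6]
      exact h2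
    obtain ⟨x', ⟨σ, hσ, hR⟩, hx'⟩ := hgeo
      ⟨fun j => cc j * x.left j * (cc (x.right.symm j))⁻¹, x.right⟩ (by
        change ∏ j, Abelianization.of (cc j * x.left j * (cc (x.right.symm j))⁻¹) = 1
        simp only [map_mul, map_inv, Finset.prod_mul_distrib, Finset.prod_inv_distrib]
        rw [h7, mul_one, hcc, hccπ, mul_inv_cancel]) h8
    let x'' : Wr d.P (d.m * (2 * d.k + 1)) :=
      ⟨fun i => ⟨(x'.left i).1.restrictScalars (RatFunc K), (x'.left i).2⟩, x'.right⟩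
    have hR2 : Rx φK σ x'' := fun i z => hR i z
    have hx2 : ∀ j, (ψ (x''.left j)).left = cc j * x.left j * (cc (x.right.symm j))⁻¹ := fun j =>
      congrArg (fun w : Wr G (d.m * (2 * d.k + 1)) => w.left j) hx'
    have hx3 : x'.right = x.right :=
      congrArg (fun w : Wr G (d.m * (2 * d.k + 1)) => w.right) hx'
    have hx4 : ∀ j, π (x''.left j : Z ≃ₐ[RatFunc K] Z) = 1 := fun j =>
      ker_restrict π hπ (x'.left j).1
    refine ⟨σ, hσ, fun i => ?_⟩
    have h9 := hact σ 1 x'' hR2 hx4 i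
    have h10 : x''.right = x.right := hx3
    rw [h10] at h9
    refine ⟨h9.1, fun g' => ?_⟩
    change σ (φK i ((s (cc i * g') : Z ≃ₐ[RatFunc K] Z) θ)) =
      φK (x.right i) ((s (cc (x.right i) * (x.left (x.right i) * g')) : Z ≃ₐ[RatFunc K] Z) θ)
    rw [h9.2, hx2, Equiv.symm_apply_apply, map_one]
    congr 4
    change cc (x.right i) * x.left (x.right i) * (cc i)⁻¹ * (cc i * g') = _
    group

end coreT

section coreT2

variable {K L Z : Type} [Field K] [CharZero K] [Field L] [Algebra K L] [FiniteDimensional K L]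
  [IsGalois K L] [Field Z] [Algebra (RatFunc K) Z] [Algebra L Z] [Algebra K Z]
  [IsScalarTower K (RatFunc K) Z] [IsScalarTower K L Z] [FiniteDimensional (RatFunc K) Z]
  [IsGalois (RatFunc K) Z]

/-- The core. -/
theorem coreT
    (π : (Z ≃ₐ[RatFunc K] Z) →* (L ≃ₐ[K] L))
    (hπ : ∀ (σ : Z ≃ₐ[RatFunc K] Z) (x : L), σ (algebraMap L Z x) = algebraMap L Z (π σ x))
    (hreg : ∀ y : Z, IsAlgebraic L y → y ∈ Set.range (algebraMap L Z))
    (G : Type) [Group G] [Finite G] (φ : (L ≃ₐ[K] L) →* MulAut G)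
    [HasEnoughRootsOfUnity L (Monoid.exponent (Abelianization G))]
    (P : Subgroup (Z ≃ₐ[RatFunc K] Z)) (hm : Even P.index) (hP : P.map π = ⊤)
    (ψ : P →* G ⋊[φ] (L ≃ₐ[K] L)) (hψ1 : ∀ γ, (ψ γ).right = π γ) (hψ : Function.Surjective ψ)
    {I : Type} [Fintype I] (hI : Fintype.card I = P.index)
    (cr : I → (Z ≃ₐ[RatFunc K] Z)) (hcr1 : ∀ q, π (cr q) = 1)
    (hcr2 : ∀ i j, i ≠ j → (cr i)⁻¹ * cr j ∉ P)
    (pm : (Z ≃ₐ[RatFunc K] Z) → Equiv.Perm I)
    (hpm : ∀ x q, (cr (pm x q))⁻¹ * x * cr q ∈ P)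
    (t : (L ≃ₐ[K] L) → Abelianization G)
    (hT : ∀ x, ∏ q, Abelianization.of (ψ ⟨(cr (pm x q))⁻¹ * x * cr q, hpm x q⟩).left = t (π x))
    (χ : (L ≃ₐ[K] L) → ℤˣ) (hχ1 : χ 1 = 1)
    (hχ : ∀ (x : Z ≃ₐ[RatFunc K] Z) (f : Equiv.Perm ((Z ≃ₐ[RatFunc K] Z) ⧸ P)),
      (∀ q, f q = x • q) → ∀ (_ : Fintype ((Z ≃ₐ[RatFunc K] Z) ⧸ P))
        (_ : DecidableEq ((Z ≃ₐ[RatFunc K] Z) ⧸ P)), Equiv.Perm.sign f = χ (π x)) :
    ∃ k₀ : ℕ, ∀ k ≥ k₀, ∀ T : Subgroup (EG φ (P.index * (2 * k + 1))),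
      (∀ z, z ∈ T ↔ ∏ i, Abelianization.of (z.left.left i) = t z.right ^ (2 * k + 1) ∧
        Equiv.Perm.sign z.left.right = χ z.right ^ (2 * k + 1)) →
      RegSol K L T ((SemidirectProduct.rightHom : EG φ _ →* (L ≃ₐ[K] L)).comp T.subtype) := by
  classical
  have hcL : CharZero L := charZero_of_injective_algebraMap (algebraMap K L).injective
  obtain ⟨iKL, iLZ, t1, t2, hfd, hgal, hp⟩ := exists_ratL (K := K) (L := L) (F := Z)
  have hcross : ∀ γ γ' : P, Abelianization.of (ψ (γ * γ')).left =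
      Abelianization.of (ψ γ).left * abA φ (π γ) (Abelianization.of (ψ γ').left) := by
    intro γ γ'
    rw [map_mul, SemidirectProduct.mul_left, map_mul, hψ1, abA_of]
  obtain ⟨b, hb0, hb⟩ := exists_bb π (abA φ) (P := P) (fun γ => Abelianization.of (ψ γ).left)
  have hb1 := hb hπ hcross
  have hfin : Finite (Abelianization G →* Lˣ) := Finite.of_equiv _
    (CommGroup.monoidHom_mulEquiv_of_hasEnoughRootsOfUnity (Abelianization G) L).some.symm.toEquiv
  have hbP : ∀ χ, ∀ γ (hγ : γ ∈ P), π γ = 1 → γ (b χ) =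
      algebraMap L Z ((χ (Abelianization.of (ψ ⟨γ, hγ⟩).left) : Lˣ) : L) * b χ := by
    intro χ γ hγ h1
    have h2 := hb1 χ ⟨γ, hγ⟩
    change γ (b χ) = algebraMap L Z ((tw (abA φ) (π γ) χ _ : Lˣ) : L) * b (tw (abA φ) (π γ) χ)
      at h2
    rw [h1, tw_one] at h2
    exact h2
  obtain ⟨k₁, hk₁⟩ := exists_dat3 hp π hπ K3h79.IGP.t_der K3h3.Fam2.t_fam2 K3h66.Ort2.t_ort2 P hm
    (J := (Abelianization G →* Lˣ) × (Abelianization G →* Lˣ))
    (fun j => b j.1 * b j.2 / b (j.1 * j.2))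
    (fun j => div_ne_zero (mul_ne_zero (hb0 _) (hb0 _)) (hb0 _))
    (fun j γ hγ h1 => by
      rw [map_div₀, map_mul, hbP j.1 γ hγ h1, hbP j.2 γ hγ h1, hbP (j.1 * j.2) γ hγ h1,
        MonoidHom.mul_apply, Units.val_mul, map_mul, mul_mul_mul_comm]
      exact mul_div_mul_left _ _ (mul_ne_zero ((_root_.map_ne_zero _).2 (Units.ne_zero _))
        ((_root_.map_ne_zero _).2 (Units.ne_zero _))))
  have hi0 : 0 < P.index := Nat.pos_of_ne_zero Subgroup.index_ne_zero_of_finite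
  refine ⟨k₁ + (4 * P.index) ^ 4 + 4, fun k hk => ?_⟩
  obtain ⟨ι, i9, d, hPd, hdk, ⟨g, hg, hgs⟩, hA⟩ := hk₁ k (by omega)
  subst hPd
  subst hdk
  have h1 := coreT0 hp π hπ hreg d hP G φ ψ hψ1 hψ b hb0 hb1 (hI.trans d.hPm) cr hcr1 hcr2 pm hpm
    t hT (fun χ χ' => hA hP (χ, χ')) χ hχ1 g hg (fun x => by
      have e1 : Fintype ((Z ≃ₐ[RatFunc K] Z) ⧸ d.P) := Fintype.ofFinite _
      have e2 := hgs x (MulAction.toPerm x) (fun q => rfl) e1 (Classical.decEq _)
      rw [hχ x (MulAction.toPerm x) (fun q => rfl)] at e2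
      exact e2) (by
      have e1 : (4 * d.m) ^ 4 + 4 < 1 * (2 * d.k + 1) := by
        rw [← d.hPm]
        omega
      have e2 : 1 * (2 * d.k + 1) ≤ d.m * (2 * d.k + 1) := Nat.mul_le_mul_right _ d.hm0
      exact e1.trans_le e2)
  rw [← d.hPm] at h1
  exact h1

end coreT2

end Pool.Agent.K3h17.T
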