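import Mathlib
import Pool.Agent.K3h17.Fs
import Pool.Agent.K3h17.Stm
import Pool.Agent.R367.IG.RegL

set_option autoImplicit false
set_option linter.unusedSectionVars false
set_option linter.unusedSimpArgs false

/-!
The input groups.
-/

namespace Pool.Agent.K3h17.T

open Pool.Agent.H391R2 Pool.Agent.H391R2.T4
open Pool.Agent.R367.IG (NO mem_NO)

theorem even_pow_one {m : ℕ} (hm : Even m) (u : ℤˣ) : u ^ m = 1 := by
  obtain ⟨a, rfl⟩ := hm
  rw [← two_mul, pow_mul, Int.units_sq, one_pow]

section inp

variable {Γ G : Type} [Group Γ] [Group G] (φ : Γ →* MulAut G) (m : ℕ)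

/-- The class of an element. -/
def kl (z : EG φ m) : Abelianization G := ∏ i, Abelianization.of (z.left.left i)

/-- The sign of an element. -/
def sg : EG φ m →* ℤˣ where
  toFun z := Equiv.Perm.sign z.left.right
  map_one' := map_one _
  map_mul' a b := by
    change Equiv.Perm.sign (a.left.right * b.left.right) = _
    rw [map_mul]

theorem kl_mul (a b : EG φ m) (ha : a.right = 1) : kl φ m (a * b) = kl φ m a * kl φ m b := by
  unfold kl
  have h1 : ∀ i, Abelianization.of ((a * b).left.left i) =
      Abelianization.of (a.left.left i) * Abelianization.of (b.left.left (a.left.right⁻¹ i)) := by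
    intro i
    rw [eg_mul_left, wr_mul_left, wrAct_left, ha, map_one, map_mul]
    rfl
  rw [Finset.prod_congr rfl fun i _ => h1 i, Finset.prod_mul_distrib,
    Equiv.prod_comp a.left.right⁻¹ (fun i => Abelianization.of (b.left.left i))]

/-- The kernel group `G ≀ A_m`. -/
def KG : Subgroup (EG φ m) where
  carrier := {z | z.right = 1 ∧ sg φ m z = 1}
  one_mem' := ⟨rfl, map_one _⟩
  mul_mem' := by
    rintro a b ⟨ha, ha'⟩ ⟨hb, hb'⟩
    refine ⟨?_, ?_⟩
    · rw [eg_mul_right, ha, hb, one_mul]
    · rw [map_mul, ha', hb', one_mul]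
  inv_mem' := by
    rintro a ⟨ha, ha'⟩
    refine ⟨?_, ?_⟩
    · rw [SemidirectProduct.inv_right, ha, inv_one]
    · rw [map_inv, ha', inv_one]

instance KG_normal : (KG φ m).Normal := ⟨by
  rintro a ⟨ha, ha'⟩ b
  refine ⟨?_, ?_⟩
  · rw [eg_mul_right, eg_mul_right, ha, mul_one, SemidirectProduct.inv_right, mul_inv_cancel]
  · rw [map_mul, map_mul, ha', mul_one, ← map_mul, mul_inv_cancel, map_one]⟩

theorem mem_KG (z : EG φ m) : z ∈ KG φ m ↔ z.right = 1 ∧ sg φ m z = 1 := Iff.rfl

variable {m} (s : Γ →* EG φ m)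

/-- The action on the kernel group. -/
def phi1 : Γ →* MulAut (KG φ m) := MulAut.conjNormal.comp s

theorem phi1_apply (ρ : Γ) (z : KG φ m) :
    (phi1 φ s ρ z : EG φ m) = s ρ * z * (s ρ)⁻¹ := rfl

/-- The labels. -/
def M1 (r : ℕ) : EG (phi1 φ s) r →* Wr (EG φ m) r where
  toFun z := ⟨fun i => (z.left.left i : EG φ m) * s z.right, z.left.right⟩
  map_one' := by
    apply SemidirectProduct.ext
    · funext i
      change (1 : EG φ m) * s 1 = 1
      rw [map_one, one_mul]
    · rfl
  map_mul' a b := by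
    apply SemidirectProduct.ext
    · funext i
      change ((a.left.left i : EG φ m) * (phi1 φ s a.right (b.left.left (a.left.right⁻¹ i)) :
        EG φ m)) * s (a.right * b.right) = ((a.left.left i : EG φ m) * s a.right) *
          ((b.left.left (a.left.right⁻¹ i) : EG φ m) * s b.right)
      rw [phi1_apply, map_mul]
      group
    · rfl

/-- The points of a wreath product of wreath products. -/
def permE {r : ℕ} (w : Wr (EG φ m) r) : Equiv.Perm (Fin r × Fin m) where
  toFun p := (w.right p.1, (w.left (w.right p.1)).left.right p.2)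
  invFun p := (w.right⁻¹ p.1, (w.left p.1).left.right⁻¹ p.2)
  left_inv p := by
    ext
    · simp
    · simp
  right_inv p := by
    ext
    · simp
    · simp

theorem permE_inv {r : ℕ} (w : Wr (EG φ m) r) (p : Fin r × Fin m) :
    (permE φ w)⁻¹ p = (w.right⁻¹ p.1, (w.left p.1).left.right⁻¹ p.2) := rfl

/-- The embedding in a wreath product. -/
def M2 (r : ℕ) : Wr (EG φ m) r →* WrS (G ⋊[φ] Γ) (Fin r × Fin m) where
  toFun w := ⟨fun p => ⟨(w.left p.1).left.left p.2, (w.left p.1).right⟩, permE φ w⟩
  map_one' := by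
    apply SemidirectProduct.ext
    · rfl
    · ext p
      · rfl
      · rfl
  map_mul' a b := by
    apply SemidirectProduct.ext
    · funext p
      rfl
    · ext p
      · rfl
      · change (((a.left (a.right (b.right p.1)) * b.left (a.right⁻¹ (a.right (b.right p.1)))) :
          EG φ m).left.right p.2 : ℕ) = ((a.left (a.right (b.right p.1))).left.right
            ((b.left (b.right p.1)).left.right p.2) : ℕ)
        have h : a.right⁻¹ (a.right (b.right p.1)) = b.right p.1 := a.right.symm_apply_apply _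
        rw [h]
        rfl

/-- The labels of the points. -/
def LamE (r : ℕ) : NO (phi1 φ s) r →* WrS (G ⋊[φ] Γ) (Fin r × Fin m) :=
  ((M2 φ r).comp (M1 φ s r)).comp (NO (phi1 φ s) r).subtype

theorem LamE_right (r : ℕ) (z : NO (phi1 φ s) r) (p : Fin r × Fin m) :
    (LamE φ s r z).right p = ((z : EG (phi1 φ s) r).left.right p.1,
      (((z : EG (phi1 φ s) r).left.left ((z : EG (phi1 φ s) r).left.right p.1) : EG φ m) *
        s (z : EG (phi1 φ s) r).right).left.right p.2) := rfl

theorem LamE_left (r : ℕ) (z : NO (phi1 φ s) r) (p : Fin r × Fin m) :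
    (LamE φ s r z).left p =
      ⟨(((z : EG (phi1 φ s) r).left.left p.1 : EG φ m) *
        s (z : EG (phi1 φ s) r).right).left.left p.2,
        (((z : EG (phi1 φ s) r).left.left p.1 : EG φ m) *
        s (z : EG (phi1 φ s) r).right).right⟩ := rfl

variable (hs : ∀ ρ, (s ρ).right = ρ)

include hs

theorem LamE_lr (r : ℕ) (z : NO (phi1 φ s) r) (p : Fin r × Fin m) :
    ((LamE φ s r z).left p).right = (z : EG (phi1 φ s) r).right := by
  rw [LamE_left]
  change (((z : EG (phi1 φ s) r).left.left p.1 : EG φ m)).right *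
    (s (z : EG (phi1 φ s) r).right).right = _
  rw [((z : EG (phi1 φ s) r).left.left p.1).2.1, one_mul, hs]

omit hs in
/-- The class. -/
theorem LamE_class (r : ℕ) (z : NO (phi1 φ s) r) :
    ∏ p, Abelianization.of ((LamE φ s r z).left p).left =
      kl φ m (s (z : EG (phi1 φ s) r).right) ^ r := by
  rw [Fintype.prod_prod_type]
  have h1 : ∀ i, ∏ j, Abelianization.of ((LamE φ s r z).left (i, j)).left =
      kl φ m ((z : EG (phi1 φ s) r).left.left i : EG φ m) *
        kl φ m (s (z : EG (phi1 φ s) r).right) := by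
    intro i
    rw [← kl_mul φ m _ _ ((z : EG (phi1 φ s) r).left.left i).2.1]
    rfl
  rw [Finset.prod_congr rfl fun i _ => h1 i, Finset.prod_mul_distrib, Finset.prod_const,
    Finset.card_univ, Fintype.card_fin]
  let F : KG φ m →* Abelianization G :=
    { toFun := fun a => kl φ m a
      map_one' := by
        refine Finset.prod_eq_one fun i _ => ?_
        exact map_one _
      map_mul' := fun a b => kl_mul φ m _ _ a.2.1 }
  have h2 : ∏ i, Abelianization.of ((z : EG (phi1 φ s) r).left.left i) = 1 :=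
    (mem_NO _ _ _).1 z.2
  have h3 := congrArg (Abelianization.lift F) h2
  rw [map_prod, map_one] at h3
  have h4 : ∏ i, kl φ m ((z : EG (phi1 φ s) r).left.left i : EG φ m) = 1 := by
    rw [← h3]
    refine Finset.prod_congr rfl fun i _ => ?_
    rw [Abelianization.lift_apply_of]
    rfl
  rw [h4, one_mul]

omit hs in
/-- The sign. -/
theorem LamE_sign (hm : Even m) (r : ℕ) (z : NO (phi1 φ s) r) :
    Equiv.Perm.sign (LamE φ s r z).right = sg φ m (s (z : EG (phi1 φ s) r).right) ^ r := by
  have h1 : (LamE φ s r z).right = Equiv.prodCongrRight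
      (fun i => (((z : EG (phi1 φ s) r).left.left i : EG φ m) *
        s (z : EG (phi1 φ s) r).right).left.right) *
      Equiv.prodCongrLeft (fun _ : Fin m => (z : EG (phi1 φ s) r).left.right) := by
    ext p
    · rfl
    · rfl
  rw [h1, map_mul, Equiv.Perm.sign_prodCongrRight, Equiv.Perm.sign_prodCongrLeft]
  have h2 : ∀ i, Equiv.Perm.sign ((((z : EG (phi1 φ s) r).left.left i : EG φ m) *
      s (z : EG (phi1 φ s) r).right).left.right) = sg φ m (s (z : EG (phi1 φ s) r).right) := by
    intro i
    change sg φ m ((((z : EG (phi1 φ s) r).left.left i : EG φ m) *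
      s (z : EG (phi1 φ s) r).right)) = _
    rw [map_mul, ((z : EG (phi1 φ s) r).left.left i).2.2, one_mul]
  simp only [h2, Finset.prod_const, Finset.card_univ, Fintype.card_fin]
  rw [even_pow_one hm, mul_one]

omit hs in
/-- Elements with two nontrivial components. -/
def cmp {r : ℕ} (i i' : Fin r) (h : i ≠ i') (a : KG φ m) (σ : Equiv.Perm (Fin r)) :
    NO (phi1 φ s) r :=
  ⟨⟨⟨fun k => if k = i then a else if k = i' then a⁻¹ else 1, σ⟩, 1⟩, by
    rw [mem_NO]
    change ∏ k, Abelianization.of (if k = i then a else if k = i' then a⁻¹ else 1) = 1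
    rw [← Finset.mul_prod_erase Finset.univ _ (Finset.mem_univ i), if_pos rfl,
      ← Finset.mul_prod_erase _ _ (Finset.mem_erase.2 ⟨Ne.symm h, Finset.mem_univ i'⟩),
      if_neg (Ne.symm h), if_pos rfl, map_inv, mul_inv_cancel_left]
    refine Finset.prod_eq_one fun k hk => ?_
    rw [Finset.mem_erase, Finset.mem_erase] at hk
    rw [if_neg hk.2.1, if_neg hk.1, map_one]⟩

omit hs in
theorem cmp_right {r : ℕ} (i i' : Fin r) (h : i ≠ i') (a : KG φ m) (σ : Equiv.Perm (Fin r)) :
    ((cmp φ s i i' h a σ : NO (phi1 φ s) r) : EG (phi1 φ s) r).right = 1 := rfl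

omit hs in
theorem cmp_at {r : ℕ} (i i' : Fin r) (h : i ≠ i') (a : KG φ m) (σ : Equiv.Perm (Fin r))
    (j : Fin m) : (LamE φ s r (cmp φ s i i' h a σ)).left (i, j) =
      ⟨(a : EG φ m).left.left j, 1⟩ := by
  have h1 : ((cmp φ s i i' h a σ : NO (phi1 φ s) r) : EG (phi1 φ s) r).left.left i = a := by
    change (if i = i then a else if i = i' then a⁻¹ else 1) = a
    rw [if_pos rfl]
  rw [LamE_left, h1, cmp_right, map_one, mul_one]
  exact SemidirectProduct.ext rfl a.2.1

omit hs in
theorem cmp_to {r : ℕ} (i i' : Fin r) (h : i ≠ i') (a : KG φ m) (σ : Equiv.Perm (Fin r))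
    (k : Fin r) (hk : σ k = i) (j : Fin m) :
    (LamE φ s r (cmp φ s i i' h a σ)).right (k, j) = (i, (a : EG φ m).left.right j) := by
  have h1 : ((cmp φ s i i' h a σ : NO (phi1 φ s) r) : EG (phi1 φ s) r).left.left i = a := by
    change (if i = i then a else if i = i' then a⁻¹ else 1) = a
    rw [if_pos rfl]
  have h2 : ((cmp φ s i i' h a σ : NO (phi1 φ s) r) : EG (phi1 φ s) r).left.right k = i := hk
  rw [LamE_right]
  change (_, _) = _
  rw [h2, h1, cmp_right, map_one, mul_one]

end inp

/-- The alternating group is transitive. -/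
theorem alt_tr {m : ℕ} (hm : 4 ≤ m) (j₀ j : Fin m) :
    ∃ τ : Equiv.Perm (Fin m), Equiv.Perm.sign τ = 1 ∧ τ j₀ = j := by
  classical
  by_cases h : j = j₀
  · exact ⟨1, map_one _, h.symm⟩
  · obtain ⟨k, hk⟩ : ∃ k : Fin m, k ∉ ({j₀, j} : Finset (Fin m)) := by
      by_contra hcon
      push Not at hcon
      have h1 : Finset.univ ⊆ ({j₀, j} : Finset (Fin m)) := fun k _ => hcon k
      have h2 := (Finset.card_le_card h1).trans (Finset.card_le_two)
      rw [Finset.card_univ, Fintype.card_fin] at h2
      omega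
    rw [Finset.mem_insert, Finset.mem_singleton, not_or] at hk
    refine ⟨Equiv.swap j₀ j * Equiv.swap j k, ?_, ?_⟩
    · rw [map_mul, Equiv.Perm.sign_swap (Ne.symm h), Equiv.Perm.sign_swap (Ne.symm hk.2)]
      rfl
    · rw [Equiv.Perm.mul_apply, Equiv.swap_apply_of_ne_of_ne (Ne.symm h) (Ne.symm hk.1),
        Equiv.swap_apply_left]

end Pool.Agent.K3h17.T
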