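import Mathlib
import Pool.Agent.K3h17.T.Gh
import Pool.Agent.K3h17.T.Gi

set_option autoImplicit false
set_option linter.unusedSectionVars false
set_option linter.unusedSimpArgs false

/-!
The main theorem, with roots of unity in `L`.
-/

namespace Pool.Agent.K3h17.T

open Pool.Agent.H391R2 Pool.Agent.H391R2.T4
open Pool.Agent.R367.IG (NO mem_NO)

/-- The main theorem with roots of unity. -/
theorem mainE (K L : Type) [Field K] [CharZero K] [Field L] [Algebra K L] [FiniteDimensional K L]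
    [IsGalois K L] (G : Type) [Group G] [Finite G] (φ : (L ≃ₐ[K] L) →* MulAut G)
    [HasEnoughRootsOfUnity L (Monoid.exponent (Abelianization G))] {m : ℕ} (hm4 : 4 ≤ m)
    (hm : Even m) (s : (L ≃ₐ[K] L) →* EG φ m) (hs : ∀ ρ, (s ρ).right = ρ) :
    ∃ r₀ : ℕ, ∀ r ≥ r₀, ∃ k₀ : ℕ, ∀ k ≥ k₀, ∀ T : Subgroup (EG φ (r * m * (2 * k + 1))),
      (∀ z, z ∈ T ↔ ∏ i, Abelianization.of (z.left.left i) =
          (kl φ m (s z.right) ^ r) ^ (2 * k + 1) ∧
        Equiv.Perm.sign z.left.right = (sg φ m (s z.right) ^ r) ^ (2 * k + 1)) →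
      RegSol K L T ((SemidirectProduct.rightHom : EG φ _ →* (L ≃ₐ[K] L)).comp T.subtype) := by
  classical
  have hfinE : Finite (EG φ m) := inferInstance
  let _ : Fintype (KG φ m) := Fintype.ofFinite _
  let j₀ : Fin m := ⟨0, by omega⟩
  choose τ hτ1 hτ2 using alt_tr hm4 j₀
  let at' : Fin m → KG φ m := fun j => ⟨⟨⟨1, τ j⟩, 1⟩, rfl, hτ1 j⟩
  have hat : Function.Injective at' := by
    intro j j' h
    have h1 : τ j = τ j' := congrArg (fun z : KG φ m => (z : EG φ m).left.right) h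
    rw [← hτ2 j, ← hτ2 j', h1]
  have hcard : 3 ≤ Fintype.card (KG φ m) := by
    have h1 := Fintype.card_le_of_injective at' hat
    rw [Fintype.card_fin] at h1
    omega
  have hreg := IGW.reg_kerL3 K L (KG φ m) hcard (phi1 φ s)
  refine ⟨((Fintype.card (KG φ m) + 2).factorial) ^ 3, fun r hr => ?_⟩
  obtain ⟨hr3, Z, i1, i2, i3, i4, i5, i6, i7, i8, γ, hγ, hreg⟩ := hreg r hr
  let pr : NO (phi1 φ s) r →* (L ≃ₐ[K] L) :=
    (SemidirectProduct.rightHom : EG (phi1 φ s) r →* (L ≃ₐ[K] L)).comp (NO (phi1 φ s) r).subtype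
  let π : (Z ≃ₐ[RatFunc K] Z) →* (L ≃ₐ[K] L) :=
    pr.comp (γ : (Z ≃ₐ[RatFunc K] Z) →* NO (phi1 φ s) r)
  have hπ : ∀ (σ : Z ≃ₐ[RatFunc K] Z) (x : L), σ (algebraMap L Z x) = algebraMap L Z (π σ x) := hγ
  let Λ : (Z ≃ₐ[RatFunc K] Z) →* WrS (G ⋊[φ] (L ≃ₐ[K] L)) (Fin r × Fin m) :=
    (LamE φ s r).comp (γ : (Z ≃ₐ[RatFunc K] Z) →* NO (phi1 φ s) r)
  have hΛ : ∀ y, Λ (γ.symm y) = LamE φ s r y := by
    intro y
    change LamE φ s r (γ (γ.symm y)) = _
    rw [MulEquiv.apply_symm_apply]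
  have hπs : ∀ y, π (γ.symm y) = pr y := by
    intro y
    change pr (γ (γ.symm y)) = _
    rw [MulEquiv.apply_symm_apply]
  let i₀ : Fin r := ⟨0, by omega⟩
  let s₀ : Fin r × Fin m := (i₀, j₀)
  have hnt : Nontrivial (Fin r) := Fin.nontrivial_iff_two_le.2 (by omega)
  choose ii hii using fun i : Fin r => exists_ne i
  -- the representatives
  let cr : Fin r × Fin m → (Z ≃ₐ[RatFunc K] Z) := fun q =>
    γ.symm (cmp φ s q.1 (ii q.1) (Ne.symm (hii q.1)) (at' q.2) (Equiv.swap i₀ q.1))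
  have hcr0 : ∀ q, Λ (cr q) = LamE φ s r (cmp φ s q.1 (ii q.1) (Ne.symm (hii q.1)) (at' q.2)
      (Equiv.swap i₀ q.1)) := fun q => hΛ _
  have hcr1 : ∀ q, π (cr q) = 1 := fun q => hπs _
  have hcrr : ∀ q, (Λ (cr q)).right s₀ = q := by
    intro q
    rw [hcr0, cmp_to φ s q.1 (ii q.1) _ (at' q.2) _ i₀ (Equiv.swap_apply_left _ _)]
    change (q.1, τ q.2 j₀) = q
    rw [hτ2]
  have hcrl : ∀ q, (Λ (cr q)).left q = 1 := by
    intro q
    rw [hcr0]
    exact cmp_at φ s q.1 (ii q.1) _ (at' q.2) _ q.2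
  have htr : ∀ q, ∃ x, (Λ x).right s₀ = q := fun q => ⟨cr q, hcrr q⟩
  have hind : (Pst Λ s₀).index = r * m := by
    rw [index_Pst Λ s₀ htr, Nat.card_eq_fintype_card, Fintype.card_prod, Fintype.card_fin,
      Fintype.card_fin]
  let pm : (Z ≃ₐ[RatFunc K] Z) → Equiv.Perm (Fin r × Fin m) := fun x => (Λ x).right
  have hpm0 : ∀ x q, (Λ (cr (pm x q)))⁻¹.right (pm x q) = s₀ := by
    intro x q
    rw [SemidirectProduct.inv_right, Equiv.Perm.inv_eq_iff_eq, hcrr]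
  have hpm : ∀ x q, (cr (pm x q))⁻¹ * x * cr q ∈ Pst Λ s₀ := by
    intro x q
    rw [mem_Pst, map_mul, map_mul, map_inv, SemidirectProduct.mul_right,
      SemidirectProduct.mul_right, Equiv.Perm.mul_apply, Equiv.Perm.mul_apply, hcrr]
    exact hpm0 x q
  have hlab : ∀ x q, (psi Λ s₀ ⟨_, hpm x q⟩) = (Λ x).left (pm x q) := by
    intro x q
    change (Λ ((cr (pm x q))⁻¹ * x * cr q)).left s₀ = _
    rw [map_mul, map_mul, map_inv, mulS_left, mulS_left, invS_left, hcrr, hcrl, inv_one, one_mul]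
    have h1 : ((Λ (cr (pm x q)))⁻¹.right)⁻¹ s₀ = pm x q := by
      rw [SemidirectProduct.inv_right, inv_inv, hcrr]
    have h2 : ((Λ (cr (pm x q)))⁻¹ * Λ x).right⁻¹ s₀ = q := by
      rw [SemidirectProduct.mul_right, mul_inv_rev, Equiv.Perm.mul_apply, h1]
      exact (Λ x).right.symm_apply_apply q
    rw [h1, h2, hcrl, mul_one]
  have hlr : ∀ x q, ((Λ x).left q).right = π x := fun x q => LamE_lr φ s hs r (γ x) q
  have hcls : ∀ x, ∏ q, Abelianization.of ((Λ x).left q).left = kl φ m (s (π x)) ^ r := fun x =>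
    LamE_class φ s r (γ x)
  have hsgn : ∀ x, Equiv.Perm.sign (Λ x).right = sg φ m (s (π x)) ^ r := fun x =>
    LamE_sign φ s hm r (γ x)
  have hP : (Pst Λ s₀).map π = ⊤ := by
    rw [Subgroup.eq_top_iff']
    intro ρ
    let x : Z ≃ₐ[RatFunc K] Z := γ.symm ⟨⟨1, ρ⟩, by
      rw [mem_NO]
      refine Finset.prod_eq_one fun i _ => ?_
      exact map_one _⟩
    refine Subgroup.mem_map.2 ⟨(cr (pm x s₀))⁻¹ * x * cr s₀, hpm x s₀, ?_⟩
    rw [map_mul, map_mul, map_inv, hcr1, hcr1, inv_one, one_mul, mul_one, hπs]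
    rfl
  have hψ : Function.Surjective (psi Λ s₀) := by
    rintro ⟨g, ρ⟩
    have h1 : ρ ∈ (Pst Λ s₀).map π := by
      rw [hP]
      exact Subgroup.mem_top _
    obtain ⟨x, hx, hxρ⟩ := Subgroup.mem_map.1 h1
    have h2 : (psi Λ s₀ ⟨x, hx⟩).right = ρ := by
      rw [← hxρ]
      exact hlr x s₀
    let g' : G := g * (psi Λ s₀ ⟨x, hx⟩).left⁻¹
    let a : KG φ m := ⟨⟨⟨Pi.mulSingle j₀ g', 1⟩, 1⟩, rfl,
      show Equiv.Perm.sign (1 : Equiv.Perm (Fin m)) = 1 from map_one _⟩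
    let y : Z ≃ₐ[RatFunc K] Z := γ.symm (cmp φ s i₀ (ii i₀) (Ne.symm (hii i₀)) a 1)
    have hy : y ∈ Pst Λ s₀ := by
      rw [mem_Pst, hΛ, cmp_to φ s i₀ (ii i₀) _ a 1 i₀ rfl]
      rfl
    have hy2 : psi Λ s₀ ⟨y, hy⟩ = ⟨g', 1⟩ := by
      change (Λ (γ.symm _)).left s₀ = _
      rw [hΛ, cmp_at]
      apply SemidirectProduct.ext
      · change (Pi.mulSingle j₀ g' : Fin m → G) j₀ = g'
        rw [Pi.mulSingle_eq_same]
      · rfl
    refine ⟨⟨y, hy⟩ * ⟨x, hx⟩, ?_⟩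
    rw [map_mul, hy2]
    apply SemidirectProduct.ext
    · rw [SemidirectProduct.mul_left]
      change g' * φ 1 (psi Λ s₀ ⟨x, hx⟩).left = g
      rw [map_one]
      change g * (psi Λ s₀ ⟨x, hx⟩).left⁻¹ * (psi Λ s₀ ⟨x, hx⟩).left = g
      rw [inv_mul_cancel_right]
    · rw [SemidirectProduct.mul_right, h2]
      exact one_mul _
  obtain ⟨k₀, hk₀⟩ := coreT π hπ hreg G φ (Pst Λ s₀) (by rw [hind]; exact hm.mul_left r) hP
    (psi Λ s₀) (fun x => hlr x s₀) hψ (I := Fin r × Fin m)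
    (by rw [hind, Fintype.card_prod, Fintype.card_fin, Fintype.card_fin]) cr hcr1
    (fun i j hij h => by
      rw [mem_Pst, map_mul, map_inv, SemidirectProduct.mul_right, SemidirectProduct.inv_right,
        Equiv.Perm.mul_apply, hcrr, Equiv.Perm.inv_eq_iff_eq, hcrr] at h
      exact hij h.symm) pm hpm (fun ρ => kl φ m (s ρ) ^ r)
    (fun x => by
      rw [← hcls x, ← Equiv.prod_comp (pm x) (fun q => Abelianization.of ((Λ x).left q).left)]
      refine Finset.prod_congr rfl fun q _ => ?_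
      rw [hlab])
    (fun ρ => sg φ m (s ρ) ^ r) (by rw [map_one, map_one, one_pow])
    (fun x f hf j1 j2 => by
      rw [← hsgn x]
      refine Equiv.Perm.sign_eq_sign_of_equiv f (Λ x).right (eS Λ s₀ htr) fun q => ?_
      rw [hf, eS_smul])
  refine ⟨k₀, fun k hk => ?_⟩
  have h1 := hk₀ k hk
  rw [hind] at h1
  exact h1

end Pool.Agent.K3h17.T
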