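import Mathlib
import Pool.Agent.K3h17.T.Gj

set_option autoImplicit false
set_option linter.unusedSectionVars false
set_option linter.unusedSimpArgs false

/-!
The main theorem.
-/

namespace Pool.Agent.K3h17.T

open Pool.Agent.H391R2 Pool.Agent.H391R2.T4

section chg

variable {Γ Γ' G : Type} [Group Γ] [Group Γ'] [Group G] (φ : Γ →* MulAut G) (p : Γ' →* Γ)

/-- Change of the acting group. -/
def chg (n : ℕ) : EG (φ.comp p) n →* EG φ n where
  toFun z := ⟨z.left, p z.right⟩
  map_one' := by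
    apply SemidirectProduct.ext
    · rfl
    · exact map_one p
  map_mul' a b := by
    apply SemidirectProduct.ext
    · rfl
    · exact map_mul p _ _

/-- The pulled back section. -/
def chS {m : ℕ} (s : Γ →* EG φ m) (hs : ∀ ρ, (s ρ).right = ρ) : Γ' →* EG (φ.comp p) m where
  toFun ρ := ⟨(s (p ρ)).left, ρ⟩
  map_one' := by
    apply SemidirectProduct.ext
    · change (s (p 1)).left = 1
      rw [map_one, map_one]
      rfl
    · rfl
  map_mul' ρ ρ' := by
    apply SemidirectProduct.ext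
    · change (s (p (ρ * ρ'))).left = (s (p ρ)).left * wrAct φ m (p ρ) (s (p ρ')).left
      rw [map_mul, map_mul, eg_mul_left, hs]
    · rfl

end chg

/-- The main theorem. -/
theorem mainF (K L : Type) [Field K] [CharZero K] [Field L] [Algebra K L] [FiniteDimensional K L]
    [IsGalois K L] (G : Type) [Group G] [Finite G] (φ : (L ≃ₐ[K] L) →* MulAut G)
    {m : ℕ} (hm4 : 4 ≤ m)
    (hm : Even m) (s : (L ≃ₐ[K] L) →* EG φ m) (hs : ∀ ρ, (s ρ).right = ρ) :
    ∃ r₀ : ℕ, ∀ r ≥ r₀, ∃ k₀ : ℕ, ∀ k ≥ k₀, ∀ T : Subgroup (EG φ (r * m * (2 * k + 1))),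
      (∀ z, z ∈ T ↔ ∏ i, Abelianization.of (z.left.left i) =
          (kl φ m (s z.right) ^ r) ^ (2 * k + 1) ∧
        Equiv.Perm.sign z.left.right = (sg φ m (s z.right) ^ r) ^ (2 * k + 1)) →
      RegSol K L T ((SemidirectProduct.rightHom : EG φ _ →* (L ≃ₐ[K] L)).comp T.subtype) := by
  classical
  obtain ⟨L', i1, i2, i3, i4, i5, i6, ζ, hζ⟩ := exists_root_ext K L
    (Monoid.exponent (Abelianization G)) Monoid.exponent_ne_zero_of_finite
  have hne : NeZero (Monoid.exponent (Abelianization G)) := ⟨Monoid.exponent_ne_zero_of_finite⟩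
  have hroot : HasEnoughRootsOfUnity L' (Monoid.exponent (Abelianization G)) :=
    { prim := ⟨ζ, hζ⟩
      cyc := inferInstance }
  let p : (L' ≃ₐ[K] L') →* (L ≃ₐ[K] L) := AlgEquiv.restrictNormalHom L
  obtain ⟨r₀, h1⟩ := mainE K L' G (φ.comp p) hm4 hm (chS φ p s hs) (fun ρ => rfl)
  refine ⟨r₀, fun r hr => ?_⟩
  obtain ⟨k₀, h2⟩ := h1 r hr
  refine ⟨k₀, fun k hk T hT => ?_⟩
  have h3 := h2 k hk (T.comap (chg φ p _)) (fun z => hT (chg φ p _ z))
  let T' : Subgroup (EG (φ.comp p) (r * m * (2 * k + 1))) := T.comap (chg φ p _)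
  let f : T' →* T := ((chg φ p _).comp T'.subtype).codRestrict T (fun z => z.2)
  have hf : ∀ z : T', ((f z : T) : EG φ (r * m * (2 * k + 1))) = chg φ p _ z := fun z => rfl
  have hf1 : Function.Surjective f := by
    rintro ⟨⟨w, ρ⟩, hz⟩
    obtain ⟨ρ', hρ'⟩ := AlgEquiv.restrictNormalHom_surjective (F := K) (K₁ := L) L' ρ
    have h4 : chg φ p (r * m * (2 * k + 1)) ⟨w, ρ'⟩ = ⟨w, ρ⟩ := by
      apply SemidirectProduct.ext
      · rfl
      · exact hρ'
    refine ⟨⟨⟨w, ρ'⟩, ?_⟩, ?_⟩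
    · change chg φ p _ ⟨w, ρ'⟩ ∈ T
      rw [h4]
      exact hz
    · exact Subtype.ext h4
  have hf2 : ∀ z : T', ((SemidirectProduct.rightHom : EG φ _ →* (L ≃ₐ[K] L)).comp T.subtype) (f z) =
      (((SemidirectProduct.rightHom : EG (φ.comp p) _ →* (L' ≃ₐ[K] L')).comp T'.subtype)
        z).restrictNormal L := fun z => rfl
  refine RegSol.quot _ _ f hf1 hf2 (fun ρ hρ => ?_) h3
  have h4 : chg φ p (r * m * (2 * k + 1)) ⟨1, ρ⟩ = 1 := by
    apply SemidirectProduct.ext
    · rfl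
    · exact hρ
  refine ⟨⟨⟨1, ρ⟩, ?_⟩, ?_, rfl⟩
  · change chg φ p _ ⟨1, ρ⟩ ∈ T
    rw [h4]
    exact T.one_mem
  · exact Subtype.ext h4

section perf

variable {Γ G : Type} [Group Γ] [Group G]

/-- The perfect kernel group with the action of `Γ`. -/
def PE (φ : Γ →* MulAut G) (n : ℕ) : Subgroup (EG φ n) where
  carrier := {z | ∏ i, Abelianization.of (z.left.left i) = 1 ∧ Equiv.Perm.sign z.left.right = 1}
  one_mem' := ⟨Finset.prod_eq_one fun _ _ => map_one _, map_one _⟩
  mul_mem' := by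
    rintro a b ⟨ha, ha'⟩ ⟨hb, hb'⟩
    refine ⟨?_, ?_⟩
    · change ∏ i, Abelianization.of (a.left.left i * φ a.right (b.left.left (a.left.right⁻¹ i))) = 1
      simp only [map_mul, Finset.prod_mul_distrib, ← abA_of]
      rw [ha, one_mul, ← map_prod (abA φ a.right),
        Equiv.prod_comp a.left.right⁻¹ (fun i => Abelianization.of (b.left.left i)), hb, map_one]
    · change Equiv.Perm.sign (a.left.right * b.left.right) = 1
      rw [map_mul, ha', hb', one_mul]
  inv_mem' := by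
    rintro a ⟨ha, ha'⟩
    have h0 : ∀ z : EG φ n, ∀ i, (z⁻¹).left.left i =
        φ z.right⁻¹ ((z.left.left (z.left.right i))⁻¹) := by
      intro z i
      rw [SemidirectProduct.inv_left, wrAct_left, wr_inv_left]
    refine ⟨?_, ?_⟩
    · change ∏ i, Abelianization.of ((a⁻¹).left.left i) = 1
      have h1 : ∀ i, Abelianization.of ((a⁻¹).left.left i) =
          abA φ a.right⁻¹ (Abelianization.of (a.left.left (a.left.right i)))⁻¹ := by
        intro i
        rw [h0, ← map_inv, abA_of]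
      rw [Finset.prod_congr rfl fun i _ => h1 i, ← map_prod (abA φ a.right⁻¹),
        Finset.prod_inv_distrib,
        Equiv.prod_comp a.left.right (fun i => Abelianization.of (a.left.left i)), ha, inv_one,
        map_one]
    · change Equiv.Perm.sign (a⁻¹).left.right = 1
      rw [SemidirectProduct.inv_left, wrAct_right, SemidirectProduct.inv_right, map_inv, ha',
        inv_one]

end perf

/-- Split embedding problems with perfect kernels. -/
theorem mainP (K L : Type) [Field K] [CharZero K] [Field L] [Algebra K L] [FiniteDimensional K L]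
    [IsGalois K L] (G : Type) [Group G] [Finite G] (φ : (L ≃ₐ[K] L) →* MulAut G) :
    ∃ r₀ : ℕ, ∀ r ≥ r₀, ∃ k₀ : ℕ, ∀ k ≥ k₀,
      RegSol K L (PE φ (4 * r * (2 * k + 1)))
        ((SemidirectProduct.rightHom : EG φ _ →* (L ≃ₐ[K] L)).comp (PE φ _).subtype) := by
  classical
  obtain ⟨r₀, h1⟩ := mainF K L G φ (m := 4) le_rfl ⟨2, rfl⟩
    (SemidirectProduct.inr : (L ≃ₐ[K] L) →* EG φ 4) (fun ρ => rfl)
  refine ⟨r₀, fun r hr => ?_⟩
  obtain ⟨k₀, h2⟩ := h1 r hr
  refine ⟨k₀, fun k hk => ?_⟩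
  have h3 := h2 k hk
  rw [mul_comm r 4] at h3
  refine h3 (PE φ _) (fun z => ?_)
  have e1 : kl φ 4 (SemidirectProduct.inr z.right : EG φ 4) = 1 :=
    Finset.prod_eq_one fun _ _ => map_one _
  have e2 : sg φ 4 (SemidirectProduct.inr z.right : EG φ 4) = 1 :=
    show Equiv.Perm.sign (1 : Equiv.Perm (Fin 4)) = 1 from map_one _
  rw [e1, e2, one_pow, one_pow, one_pow, one_pow]
  rfl

end Pool.Agent.K3h17.T
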