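import Mathlib
import Pool.Agent.K3h17.T.Gk

set_option autoImplicit false
set_option linter.unusedSectionVars false
set_option linter.unusedSimpArgs false

/-!
The groups between `(G ≀ S_n)'` and `G ≀ S_n`: group theory.
-/

namespace Pool.Agent.K3h17.T

open Pool.Agent.H391R2 Pool.Agent.H391R2.T4

section abn

variable (G : Type) [Group G] (n : ℕ)

/-- The class and the sign. -/
def abn : Wr G n →* Abelianization G × ℤˣ :=
  (wcl G n).prod (Equiv.Perm.sign.comp SemidirectProduct.rightHom)

theorem abn_fst (w : Wr G n) : (abn G n w).1 = ∏ i, Abelianization.of (w.left i) := rfl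

theorem abn_snd (w : Wr G n) : (abn G n w).2 = Equiv.Perm.sign w.right := rfl

/-- The kernel is contained in the commutator subgroup. -/
theorem ker_abn (hn : 5 ≤ n) (w : Wr G n) (hw : abn G n w = 1) : w ∈ commutator (Wr G n) := by
  classical
  have h1 : ∏ i, Abelianization.of (w.left i) = 1 := congrArg Prod.fst hw
  have h2 : Equiv.Perm.sign w.right = 1 := congrArg Prod.snd hw
  have key : Abelianization.of w = 1 := by
    have e1 : w = SemidirectProduct.inl w.left * SemidirectProduct.inr w.right := by
      apply SemidirectProduct.ext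
      · funext i
        change w.left i = w.left i * 1
        rw [mul_one]
      · exact (one_mul _).symm
    have e2 : Abelianization.of (SemidirectProduct.inr w.right : Wr G n) = 1 := by
      have e3 : w.right ∈ commutator (Equiv.Perm (Fin n)) := by
        have h5 : 5 ≤ Nat.card (Fin n) := by
          rw [Nat.card_eq_fintype_card, Fintype.card_fin]
          exact hn
        rw [alternatingGroup.commutator_perm_eq h5]
        exact h2
      exact Abelianization.commutator_subset_ker
        ((Abelianization.of : Wr G n →* _).comp SemidirectProduct.inr) e3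
    let i₀ : Fin n := ⟨0, by omega⟩
    let ψ₀ : G →* Abelianization (Wr G n) :=
      (Abelianization.of.comp SemidirectProduct.inl).comp (MonoidHom.mulSingle (fun _ => G) i₀)
    let clh : (Fin n → G) →* Abelianization G :=
      { toFun := fun f => ∏ i, Abelianization.of (f i)
        map_one' := Finset.prod_eq_one fun _ _ => map_one _
        map_mul' := fun f f' => by
          rw [← Finset.prod_mul_distrib]
          rfl }
    have e4 : (Abelianization.of.comp SemidirectProduct.inl : (Fin n → G) →* _) =
        (Abelianization.lift ψ₀).comp clh := by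
      apply MonoidHom.pi_ext
      intro i x
      have e5 : clh (Pi.mulSingle i x) = Abelianization.of x := by
        change ∏ j, Abelianization.of ((Pi.mulSingle i x : Fin n → G) j) = _
        rw [Finset.prod_eq_single i]
        · rw [Pi.mulSingle_eq_same]
        · intro j _ hj
          rw [Pi.mulSingle_eq_of_ne hj, map_one]
        · intro h
          exact absurd (Finset.mem_univ _) h
      change Abelianization.of (SemidirectProduct.inl (Pi.mulSingle i x) : Wr G n) =
        Abelianization.lift ψ₀ (clh (Pi.mulSingle i x))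
      rw [e5, Abelianization.lift_apply_of]
      change _ = Abelianization.of (SemidirectProduct.inl (Pi.mulSingle i₀ x) : Wr G n)
      have e6 : (SemidirectProduct.inl (Pi.mulSingle i x) : Wr G n) =
          SemidirectProduct.inr (Equiv.swap i₀ i) * SemidirectProduct.inl (Pi.mulSingle i₀ x) *
            (SemidirectProduct.inr (Equiv.swap i₀ i))⁻¹ := by
        apply SemidirectProduct.ext
        · funext j
          change (Pi.mulSingle i x : Fin n → G) j =
            1 * (Pi.mulSingle i₀ x : Fin n → G) ((Equiv.swap i₀ i)⁻¹ j) *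
              ((SemidirectProduct.inr (Equiv.swap i₀ i) : Wr G n)⁻¹).left _
          rw [← map_inv, SemidirectProduct.left_inr, one_mul, Pi.one_apply, mul_one]
          by_cases hj : j = i
          · subst hj
            have e7 : (Equiv.swap i₀ j)⁻¹ j = i₀ := by
              rw [Equiv.swap_inv, Equiv.swap_apply_right]
            rw [e7, Pi.mulSingle_eq_same, Pi.mulSingle_eq_same]
          · rw [Pi.mulSingle_eq_of_ne hj, Pi.mulSingle_eq_of_ne]
            intro e7
            apply hj
            rw [Equiv.swap_inv] at e7
            have e8 := congrArg (Equiv.swap i₀ i) e7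
            rw [Equiv.swap_apply_self, Equiv.swap_apply_left] at e8
            exact e8
        · rw [SemidirectProduct.mul_right, SemidirectProduct.mul_right,
            SemidirectProduct.inv_right]
          simp
      rw [e6, map_mul, map_mul, map_inv, mul_comm, inv_mul_cancel_left]
    have e5 : Abelianization.of (SemidirectProduct.inl w.left : Wr G n) = 1 := by
      have e6 := congrArg (fun f => f w.left) e4
      change Abelianization.of (SemidirectProduct.inl w.left : Wr G n) =
        Abelianization.lift ψ₀ (∏ i, Abelianization.of (w.left i)) at e6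
      rw [e6, h1, map_one]
    rw [e1, map_mul, e2, e5, one_mul]
  exact (QuotientGroup.eq_one_iff w).1 key

variable {G n}

theorem mem_iff_abn (hn : 5 ≤ n) (H : Subgroup (Wr G n)) (hH : commutator (Wr G n) ≤ H)
    (w : Wr G n) : w ∈ H ↔ abn G n w ∈ H.map (abn G n) := by
  refine ⟨fun h => Subgroup.mem_map_of_mem _ h, fun h => ?_⟩
  obtain ⟨h', hh, h1⟩ := Subgroup.mem_map.1 h
  have h2 : h'⁻¹ * w ∈ H := hH (ker_abn G n hn _ (by rw [map_mul, map_inv, h1, inv_mul_cancel]))
  have h3 := H.mul_mem hh h2
  rwa [mul_inv_cancel_left] at h3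

end abn

section sec

/-- The homomorphism `ℤˣ → S_m` of a transposition. -/
def swH (m' : ℕ) : ℤˣ →* Equiv.Perm (Fin (m' + 2)) where
  toFun u := if u = 1 then 1 else Equiv.swap 0 1
  map_one' := if_pos rfl
  map_mul' u v := by
    rcases Int.units_eq_one_or u with rfl | rfl
    · rw [one_mul, if_pos rfl, one_mul]
    · rcases Int.units_eq_one_or v with rfl | rfl
      · rw [mul_one, if_pos rfl, mul_one]
      · rw [if_pos (by decide), if_neg (by decide), Equiv.swap_mul_self]

theorem sign_swH (m' : ℕ) (u : ℤˣ) : Equiv.Perm.sign (swH m' u) = u := by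
  rcases Int.units_eq_one_or u with rfl | rfl
  · rw [map_one, map_one]
  · change Equiv.Perm.sign (if (-1 : ℤˣ) = 1 then 1 else Equiv.swap 0 1) = -1
    rw [if_neg (by decide), Equiv.Perm.sign_swap]
    intro h
    exact absurd (congrArg Fin.val h) (by simp)

variable {G : Type} [Group G] {m' : ℕ}

/-- Extension by two trivial entries. -/
def cons2 (f : Fin m' → G) : Fin (m' + 2) → G := Fin.cons 1 (Fin.cons 1 f)

theorem cons2_swap (f : Fin m' → G) (u : ℤˣ) (i : Fin (m' + 2)) :
    cons2 f ((swH m' u)⁻¹ i) = cons2 f i := by
  rcases Int.units_eq_one_or u with rfl | rfl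
  · rw [map_one]
    rfl
  · have h1 : swH m' (-1) = Equiv.swap 0 1 := by
      change (if (-1 : ℤˣ) = 1 then 1 else Equiv.swap 0 1) = _
      rw [if_neg (by decide)]
    rw [h1, Equiv.swap_inv]
    by_cases h0 : i = 0
    · subst h0
      rw [Equiv.swap_apply_left]
      rfl
    · by_cases h2 : i = 1
      · subst h2
        rw [Equiv.swap_apply_right]
        rfl
      · rw [Equiv.swap_apply_of_ne_of_ne h0 h2]

theorem prod_cons2 (f : Fin m' → G) :
    ∏ i, Abelianization.of (cons2 f i) = ∏ j, Abelianization.of (f j) := by
  rw [Fin.prod_univ_succ, Fin.prod_univ_succ]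
  change Abelianization.of (1 : G) * (Abelianization.of (1 : G) * _) = _
  rw [map_one, one_mul, one_mul]
  rfl

variable {C : Type} [Group C] (α : Fin m' → (C →* G)) (β : Fin m' → (C →* ℤˣ))

/-- The homomorphism to the wreath product. -/
def sC : (Fin m' → C) →* Wr G (m' + 2) where
  toFun x := ⟨cons2 fun j => α j (x j), swH m' (∏ j, β j (x j))⟩
  map_one' := by
    apply SemidirectProduct.ext
    · funext i
      refine Fin.cases rfl (fun i => Fin.cases rfl (fun j => ?_) i) i
      exact map_one (α j)
    · change swH m' (∏ j, β j 1) = 1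
      simp only [map_one, Finset.prod_const_one]
  map_mul' x y := by
    apply SemidirectProduct.ext
    · funext i
      change cons2 (fun j => α j (x j * y j)) i = cons2 (fun j => α j (x j)) i *
        cons2 (fun j => α j (y j)) ((swH m' (∏ j, β j (x j)))⁻¹ i)
      rw [cons2_swap]
      refine Fin.cases ?_ (fun i => Fin.cases ?_ (fun j => ?_) i) i
      · exact (one_mul _).symm
      · exact (one_mul _).symm
      · exact map_mul (α j) _ _
    · change swH m' (∏ j, β j (x j * y j)) = swH m' (∏ j, β j (x j)) * swH m' (∏ j, β j (y j))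
      simp only [map_mul, Finset.prod_mul_distrib]

theorem abn_sC (x : Fin m' → C) :
    abn G (m' + 2) (sC α β x) = ∏ j, (Abelianization.of (α j (x j)), β j (x j)) := by
  have h1 : (∏ j, (Abelianization.of (α j (x j)), β j (x j))) =
      (∏ j, Abelianization.of (α j (x j)), ∏ j, β j (x j)) := by
    apply Prod.ext
    · rw [Prod.fst_prod]
    · rw [Prod.snd_prod]
  rw [h1]
  apply Prod.ext
  · rw [abn_fst]
    exact prod_cons2 _
  · rw [abn_snd]
    exact sign_swH _ _

/-- Every subgroup is the image of the class and sign for some homomorphism. -/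
theorem exists_sC [Finite G] (B' : Subgroup (Abelianization G × ℤˣ)) (hm' : Nat.card B' ≤ m')
    (C : Type) [Group C] [Finite C] (c₀ : C) (hc₀ : ∀ x, x ∈ Subgroup.zpowers c₀)
    (hC : orderOf c₀ = 2 * Nat.card G) :
    ∃ s : (Fin m' → C) →* Wr G (m' + 2), ∀ b, b ∈ B' ↔ ∃ x, abn G (m' + 2) (s x) = b := by
  classical
  have hfinB : Finite B' := inferInstance
  obtain ⟨f, hf⟩ : ∃ f : Fin m' → B', Function.Surjective f := by
    let _ : Fintype B' := Fintype.ofFinite _
    obtain ⟨g⟩ := Function.Embedding.nonempty_of_card_le (α := B') (β := Fin m') (by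
      rw [Fintype.card_fin, ← Nat.card_eq_fintype_card]
      exact hm')
    exact ⟨Function.invFun g, Function.invFun_surjective g.injective⟩
  choose g hg using fun j => QuotientGroup.mk_surjective (f j : Abelianization G × ℤˣ).1
  have hg' : ∀ j, Abelianization.of (g j) = (f j : Abelianization G × ℤˣ).1 := hg
  let α : Fin m' → (C →* G) := fun j => monoidHomOfForallMemZpowers hc₀ (g' := g j) (by
    rw [hC]
    exact (orderOf_dvd_natCard (g j)).mul_left 2)
  let β : Fin m' → (C →* ℤˣ) := fun j => monoidHomOfForallMemZpowers hc₀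
    (g' := (f j : Abelianization G × ℤˣ).2) (by
    rw [hC]
    exact (orderOf_dvd_of_pow_eq_one (Int.units_sq _)).mul_right _)
  have hα : ∀ j, α j c₀ = g j := fun j => monoidHomOfForallMemZpowers_apply_gen hc₀ _
  have hβ : ∀ j, β j c₀ = (f j : Abelianization G × ℤˣ).2 := fun j =>
    monoidHomOfForallMemZpowers_apply_gen hc₀ _
  refine ⟨sC α β, fun b => ⟨fun hb => ?_, ?_⟩⟩
  · obtain ⟨j, hj⟩ := hf ⟨b, hb⟩
    refine ⟨Pi.mulSingle j c₀, ?_⟩
    rw [abn_sC, Finset.prod_eq_single j]
    · rw [Pi.mulSingle_eq_same, hα, hβ, hg', hj]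
    · intro i _ hi
      rw [Pi.mulSingle_eq_of_ne hi, map_one, map_one, map_one]
      rfl
    · intro h
      exact absurd (Finset.mem_univ _) h
  · rintro ⟨x, rfl⟩
    rw [abn_sC]
    refine Subgroup.prod_mem _ fun j _ => ?_
    obtain ⟨k, hk⟩ := Subgroup.mem_zpowers_iff.1 (hc₀ (x j))
    have h1 : (Abelianization.of (α j (x j)), β j (x j)) =
        ((f j : Abelianization G × ℤˣ)) ^ k := by
      rw [← hk, map_zpow, map_zpow, map_zpow, hα, hβ, hg']
      rfl
    rw [h1]
    exact B'.zpow_mem (f j).2 k

end sec

end Pool.Agent.K3h17.T
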