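import Mathlib
import Pool.Agent.K3h17.T.Gl
import Pool.Agent.TH444.TW.RSK
import Pool.Agent.TH444.TW.CycAll
import Pool.Agent.Y793.E.All

set_option autoImplicit false
set_option linter.unusedSectionVars false
set_option linter.unusedSimpArgs false

/-!
The groups between `(G ≀ S_n)'` and `G ≀ S_n`: the main theorem.
-/

namespace Pool.Agent.K3h17.T

open Pool.Agent.H391R2 Pool.Agent.H391R2.T4

theorem aut_triv (K : Type) [Field K] (σ τ : K ≃ₐ[K] K) : σ = τ := AlgEquiv.ext fun x => by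
  have h1 : ∀ ρ : K ≃ₐ[K] K, ρ x = x := fun ρ => ρ.commutes x
  rw [h1, h1]

/-- Powers of a regular group. -/
theorem reg_pi (K C : Type) [Field K] [Infinite K] [Group C] [Finite C] (m : ℕ)
    (h : RegSol K K C 1) : RegSol K K (Fin m → C) 1 := by
  classical
  let _ : MulAction (K ≃ₐ[K] K) (Fin m) :=
    { smul := fun _ x => x
      one_smul := fun _ => rfl
      mul_smul := fun _ _ _ => rfl }
  have h1 := Pool.Agent.TH15.IGP.pw_reg K K K C (Fin m) h
  let e : Pool.Agent.TH15.IGP.PW C (Fin m) (K ≃ₐ[K] K) ≃* (Fin m → C) :=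
    { toFun := fun x => x.left
      invFun := fun a => ⟨a, 1⟩
      left_inv := fun x => by
        apply SemidirectProduct.ext
        · rfl
        · exact aut_triv K _ _
      right_inv := fun a => rfl
      map_mul' := fun x y => rfl }
  exact Pool.Agent.TH444.TW.regSol_equiv e 1 SemidirectProduct.rightHom
    (fun g => aut_triv K _ _) h1

section hom

variable {Γ G : Type} [Group Γ] [Group G]

/-- The projection to the wreath product for a trivial action. -/
def lftH (n : ℕ) : EG (1 : Γ →* MulAut G) n →* Wr G n where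
  toFun z := z.left
  map_one' := rfl
  map_mul' _ _ := rfl

/-- The section for a trivial action. -/
def secH {n : ℕ} (u : Γ →* Wr G n) : Γ →* EG (1 : Γ →* MulAut G) n where
  toFun ρ := ⟨u ρ, ρ⟩
  map_one' := by
    apply SemidirectProduct.ext
    · exact map_one u
    · rfl
  map_mul' ρ ρ' := by
    apply SemidirectProduct.ext
    · exact map_mul u ρ ρ'
    · rfl

/-- The group of the extension. -/
def TT {m : ℕ} (u : Γ →* Wr G m) (n N : ℕ) : Subgroup (EG (1 : Γ →* MulAut G) n) :=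
  ((abn G n).comp (lftH n)).eqLocus ((powMonoidHom N).comp ((abn G m).comp
    (u.comp SemidirectProduct.rightHom)))

theorem mem_TT {m : ℕ} (u : Γ →* Wr G m) (n N : ℕ) (z : EG (1 : Γ →* MulAut G) n) :
    z ∈ TT u n N ↔ abn G n z.left = abn G m (u z.right) ^ N := Iff.rfl

theorem mem_TT' {m : ℕ} (u : Γ →* Wr G m) (n r d : ℕ) (z : EG (1 : Γ →* MulAut G) n) :
    z ∈ TT u n (r * d) ↔ ∏ i, Abelianization.of (z.left.left i) =
      (kl 1 m (secH u z.right) ^ r) ^ d ∧
      Equiv.Perm.sign z.left.right = (sg 1 m (secH u z.right) ^ r) ^ d := by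
  rw [mem_TT, Prod.ext_iff, ← pow_mul, ← pow_mul]
  rfl

end hom

/-- The groups between `(G ≀ S_n)'` and `G ≀ S_n`. -/
theorem mainI (K : Type) [Field K] [CharZero K] (G : Type) [Group G] [Finite G] (m' : ℕ)
    (hm' : 2 * Nat.card (Abelianization G) ≤ m') (hev : Even m') :
    ∃ r₀ : ℕ, ∀ r ≥ r₀, r.Coprime (2 * Nat.card G) → ∃ k₀ : ℕ, ∀ k ≥ k₀,
      (2 * k + 1).Coprime (Nat.card G) → ∀ H : Subgroup (Wr G ((m' + 2) * r * (2 * k + 1))),
        commutator (Wr G ((m' + 2) * r * (2 * k + 1))) ≤ H → RegSol K K H 1 := by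
  classical
  have hinf : Infinite K := inferInstance
  have hB0 : 0 < Nat.card (Abelianization G × ℤˣ) := Nat.card_pos
  have hG0 : 0 < Nat.card G := Nat.card_pos
  have hBc : Nat.card (Abelianization G × ℤˣ) = Nat.card (Abelianization G) * 2 := by
    rw [Nat.card_prod]
    congr 1
    rw [Nat.card_eq_fintype_card]
    rfl
  have hA0 : 0 < Nat.card (Abelianization G) := Nat.card_pos
  have hAG : Nat.card (Abelianization G) ∣ Nat.card G := Subgroup.card_quotient_dvd_card _
  have hne : NeZero (2 * Nat.card G) := ⟨by omega⟩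
  let C := Multiplicative (ZMod (2 * Nat.card G))
  let c₀ : C := Multiplicative.ofAdd 1
  have hCc : Nat.card C = 2 * Nat.card G := by
    change Nat.card (ZMod (2 * Nat.card G)) = _
    exact Nat.card_zmod _
  have hfC : Finite C := inferInstanceAs (Finite (ZMod (2 * Nat.card G)))
  have hc₀ : ∀ x : C, x ∈ Subgroup.zpowers c₀ := by
    intro x
    rw [Subgroup.mem_zpowers_iff]
    refine ⟨((Multiplicative.toAdd x).val : ℤ), ?_⟩
    apply Multiplicative.toAdd.injective
    rw [toAdd_zpow]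
    change (((Multiplicative.toAdd x).val : ℤ)) • (1 : ZMod (2 * Nat.card G)) = _
    rw [zsmul_eq_mul, mul_one, Int.cast_natCast, ZMod.natCast_zmod_val]
  have hCo : orderOf c₀ = 2 * Nat.card G := by
    rw [orderOf_eq_card_of_forall_mem_zpowers hc₀, hCc]
  have hcyc : IsCyclic C := ⟨c₀, hc₀⟩
  have hregC : RegSol K K C 1 :=
    Pool.Agent.TH444.TW.cycReg_all K (2 * Nat.card G) (by omega) C hCc
  obtain ⟨M, i1, i2, i3, i4, i5, i6, i7, i8, γ₁, hγ₁, hreg₁⟩ := reg_pi K C m' hregC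
  have hLK : i3 = i4 := Algebra.algebra_ext i3 i4 (fun x =>
    (@IsScalarTower.algebraMap_apply K K M _ _ _ _ i3 i4 i6 x).symm)
  subst hLK
  have hcR : CharZero (RatFunc K) := charZero_of_injective_algebraMap
    (algebraMap K (RatFunc K)).injective
  -- the sections
  have hsec : ∀ B' : Subgroup (Abelianization G × ℤˣ), ∃ s : (Fin m' → C) →* Wr G (m' + 2),
      ∀ b, b ∈ B' ↔ ∃ x, abn G (m' + 2) (s x) = b := by
    intro B'
    refine exists_sC B' ?_ C c₀ hc₀ hCo
    have h1 : Nat.card B' ≤ Nat.card (Abelianization G × ℤˣ) :=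
      Nat.card_le_card_of_injective _ (Subtype.val_injective)
    omega
  choose s hs using hsec
  let u : Subgroup (Abelianization G × ℤˣ) → ((M ≃ₐ[RatFunc K] M) →* Wr G (m' + 2)) := fun B' =>
    (s B').comp γ₁.toMonoidHom
  have hF := fun B' => mainF (RatFunc K) M G 1 (m := m' + 2) (by omega)
    (hev.add even_two) (secH (u B'))
    (fun ρ => rfl)
  choose r₀ hr₀ using hF
  have hfS : Finite (Subgroup (Abelianization G × ℤˣ)) := inferInstance
  let _ : Fintype (Subgroup (Abelianization G × ℤˣ)) := Fintype.ofFinite _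
  refine ⟨Finset.univ.sup r₀, fun r hr hrc => ?_⟩
  have hr' : ∀ B', r ≥ r₀ B' := fun B' => (Finset.le_sup (Finset.mem_univ B')).trans hr
  choose k₀ hk₀ using fun B' => hr₀ B' r (hr' B')
  refine ⟨Finset.univ.sup k₀ + 1, fun k hk hkc => ?_⟩
  rw [mul_comm (m' + 2) r]
  intro H hH
  have hk' : ∀ B', k ≥ k₀ B' := fun B' =>
    (Finset.le_sup (Finset.mem_univ B')).trans ((Nat.le_succ _).trans hk)
  have hr1 : 0 < r := by
    rcases Nat.eq_zero_or_pos r with h0 | h0
    · rw [h0, Nat.coprime_zero_left] at hrc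
      omega
    · exact h0
  have hn5 : 5 ≤ r * (m' + 2) * (2 * k + 1) := by
    have h1 : 1 * 4 * 3 ≤ r * (m' + 2) * (2 * k + 1) :=
      Nat.mul_le_mul (Nat.mul_le_mul hr1 (by omega)) (by omega)
    omega
  set B' := H.map (abn G (r * (m' + 2) * (2 * k + 1))) with hB'
  have hmem : ∀ w, w ∈ H ↔ abn G _ w ∈ B' := fun w => mem_iff_abn hn5 H hH w
  -- the power map
  have hcop : (r * (2 * k + 1)).Coprime (2 * Nat.card G) := by
    refine Nat.Coprime.mul_left hrc (Nat.Coprime.mul_right ?_ hkc)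
    rw [Nat.coprime_two_right, Nat.odd_iff]
    omega
  have hpow : ∀ b ∈ B', ∃ b' ∈ B', b' ^ (r * (2 * k + 1)) = b := by
    intro b hb
    have h1 : (Nat.card B').Coprime (r * (2 * k + 1)) := by
      refine (Nat.Coprime.coprime_dvd_right ?_ hcop).symm
      refine (Subgroup.card_subgroup_dvd_card B').trans ?_
      rw [hBc, mul_comm]
      exact Nat.mul_dvd_mul_left 2 hAG
    obtain ⟨b', hb'⟩ := (powCoprime h1).surjective ⟨b, hb⟩
    exact ⟨b', b'.2, congrArg Subtype.val hb'⟩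
  have hT := hk₀ B' k (hk' B') (TT (u B') _ (r * (2 * k + 1))) (fun z => mem_TT' (u B') _ _ _ z)
  obtain ⟨F, j1, j2, j3, j4, j5, j6, j7, j8, γ, hγ, hreg⟩ := hT
  have hfinW : Finite (EG (1 : (M ≃ₐ[RatFunc K] M) →* MulAut G) (r * (m' + 2) * (2 * k + 1))) :=
    finite_eg _ _
  obtain ⟨a1, h1, t1⟩ := Pool.Agent.TH15.IGP.ratFunc_unit K
  have h3 : RegSol K K (TT (u B') (r * (m' + 2) * (2 * k + 1)) (r * (2 * k + 1))) 1 := by
    refine Pool.Agent.TH444.TW.reg_comp_aux K K (RatFunc K) (RatFunc (RatFunc K)) M F _ 1 γ ?_ ?_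
      hreg
    · intro σ x
      rw [hγ]
      congr 1
      have h2 : algebraMap K M x = algebraMap (RatFunc K) M (algebraMap K (RatFunc K) x) := by
        rw [← IsScalarTower.algebraMap_apply K (RatFunc K) M]
      change (γ σ).1.right (algebraMap K M x) = algebraMap K M x
      rw [h2, AlgEquiv.commutes]
    · exact hreg₁
  let f : TT (u B') (r * (m' + 2) * (2 * k + 1)) (r * (2 * k + 1)) →* H :=
    ((lftH _).comp (TT (u B') _ _).subtype).codRestrict H (fun z => by
      rw [hmem]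
      have h4 := (mem_TT _ _ _ _).1 z.2
      change abn G _ z.1.left ∈ B'
      rw [h4]
      refine B'.pow_mem ?_ _
      exact (hs B' _).2 ⟨_, rfl⟩)
  refine RegSol.quot (K := K) (L := K) (L' := K) 1 1 f ?_ (fun z => aut_triv K _ _)
    (fun ρ _ => ⟨1, map_one f, aut_triv K _ _⟩) h3
  rintro ⟨w, hw⟩
  obtain ⟨b', hb', hbw⟩ := hpow _ ((hmem w).1 hw)
  obtain ⟨x, hx⟩ := (hs B' b').1 hb'
  refine ⟨⟨⟨w, γ₁.symm x⟩, ?_⟩, rfl⟩
  rw [mem_TT]
  change abn G _ w = abn G _ (s B' (γ₁ (γ₁.symm x))) ^ _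
  rw [MulEquiv.apply_symm_apply, hx, hbw]

/-- The main theorem, uniformly in the base field. -/
theorem mainI_unif (G : Type) [Group G] [Finite G] (m : ℕ)
    (hm : 2 * Nat.card (Abelianization G) + 2 ≤ m) (hev : Even m) :
    ∃ r₀ : ℕ, ∀ r ≥ r₀, r.Coprime (2 * Nat.card G) → ∃ k₀ : ℕ, ∀ k ≥ k₀,
      (2 * k + 1).Coprime (Nat.card G) → ∀ H : Subgroup (Wr G (m * r * (2 * k + 1))),
        commutator (Wr G (m * r * (2 * k + 1))) ≤ H →
        ∀ (K : Type) [Field K] [CharZero K], RegSol K K H 1 := by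
  obtain ⟨m', rfl⟩ : ∃ m', m = m' + 2 := ⟨m - 2, by omega⟩
  have hev' : Even m' := by
    rw [Nat.even_iff] at hev ⊢
    omega
  obtain ⟨r₀, h⟩ := mainI ℚ G m' (by omega) hev'
  refine ⟨r₀, fun r hr hrc => ?_⟩
  obtain ⟨k₀, h2⟩ := h r hr hrc
  refine ⟨k₀, fun k hk hkc H hH K _ _ => ?_⟩
  have hf : Finite (Wr G ((m' + 2) * r * (2 * k + 1))) := finite_wr G _
  exact TH444.TW.reg_base ℚ K _ (h2 k hk hkc H hH)

end Pool.Agent.K3h17.T
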